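import Pool.Agent.H703R3.HXDefs

set_option autoImplicit false

open Set Filter Topology

namespace Pool.Agent.H703R3.HX

/-- scalar product -/
def dt (z w : ℂ) : ℝ := z.re * w.re + z.im * w.im

theorem inner_eq (z w : ℂ) : inner ℝ z w = dt z w := by
  rw [Complex.inner]; simp [dt]; ring

theorem dt_sub_left (a b c : ℂ) : dt (a - b) c = dt a c - dt b c := by simp [dt]; ring
theorem dt_add_left (a b c : ℂ) : dt (a + b) c = dt a c + dt b c := by simp [dt]; ring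
theorem dt_smul_left (t : ℝ) (b c : ℂ) : dt (t * b) c = t * dt b c := by simp [dt]; ring
theorem dt_smul_right (t : ℝ) (b c : ℂ) : dt b (t * c) = t * dt b c := by simp [dt]; ring
theorem dt_self (a : ℂ) : dt a a = ‖a‖ ^ 2 := by
  rw [← Complex.normSq_eq_norm_sq, Complex.normSq_apply]; rfl

theorem dt_mul (ρ a b : ℂ) : dt (ρ * a) (ρ * b) = ‖ρ‖ ^ 2 * dt a b := by
  rw [← Complex.normSq_eq_norm_sq, Complex.normSq_apply]
  simp [dt]; ring

theorem continuous_dt (b : ℂ) : Continuous fun a => dt a b := by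
  unfold dt; fun_prop

noncomputable def ω : ℂ := ⟨1 / 2, √3 / 2⟩

theorem s3 : √3 * √3 = 3 := Real.mul_self_sqrt (by norm_num)
theorem s3' : √3 ^ 2 = 3 := Real.sq_sqrt (by norm_num)
theorem s3pos : 0 < √3 := Real.sqrt_pos.2 (by norm_num)

@[simp] theorem ω_re : ω.re = 1 / 2 := rfl
@[simp] theorem ω_im : ω.im = √3 / 2 := rfl

theorem ω_sq : ω ^ 2 = ⟨-1 / 2, √3 / 2⟩ := by
  apply Complex.ext
  · simp [pow_two]; nlinarith [s3]
  · simp [pow_two]; ring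

theorem ω_sq' : ω ^ 2 = ω - 1 := by
  rw [ω_sq]; apply Complex.ext <;> simp
  norm_num

theorem ω_cube : ω ^ 3 = -1 := by
  have : ω ^ 3 = ω * ω ^ 2 := by ring
  rw [this, ω_sq', mul_sub, ← pow_two, ω_sq']; ring

theorem ω_ne : ω ≠ 0 := by
  intro h
  have := congrArg Complex.re h
  simp at this

theorem norm_ω : ‖ω‖ = 1 := by
  have : ‖ω‖ ^ 2 = 1 := by
    rw [← dt_self]; simp [dt]; nlinarith [s3]
  nlinarith [norm_nonneg ω]

theorem nω (k : ℤ) : ‖ω ^ k‖ = 1 := by rw [norm_zpow, norm_ω, one_zpow]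

theorem zpow_ne (k : ℤ) : ω ^ k ≠ 0 := zpow_ne_zero _ ω_ne

theorem dt_rot (k : ℤ) (a b : ℂ) : dt (ω ^ k * a) (ω ^ k * b) = dt a b := by
  rw [dt_mul, nω]; ring

theorem ω_six : ω ^ (6 : ℤ) = 1 := by
  have : ω ^ (6 : ℤ) = (ω ^ 3) ^ 2 := by
    rw [← pow_mul]; norm_cast
  rw [this, ω_cube]; norm_num

theorem zpow_add_six (k : ℤ) : ω ^ (k + 6) = ω ^ k := by
  rw [zpow_add₀ ω_ne, ω_six, mul_one]

theorem zpow_mod (k : ℤ) : ω ^ k = ω ^ (k % 6) := by
  conv_lhs => rw [← Int.mul_ediv_add_emod k 6]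
  rw [zpow_add₀ ω_ne, zpow_mul, ω_six, one_zpow, one_mul]

/-- The six powers, in coordinates. -/
theorem zpow_cases (k : ℤ) :
    ω ^ k = 1 ∨ ω ^ k = ω ∨ ω ^ k = ⟨-1 / 2, √3 / 2⟩ ∨ ω ^ k = -1 ∨
      ω ^ k = ⟨-1 / 2, -√3 / 2⟩ ∨ ω ^ k = ⟨1 / 2, -√3 / 2⟩ := by
  have h0 : 0 ≤ k % 6 := Int.emod_nonneg _ (by norm_num)
  have h1 : k % 6 < 6 := Int.emod_lt_of_pos _ (by norm_num)
  rw [zpow_mod k]
  generalize k % 6 = r at h0 h1
  have h4 : ω ^ (4 : ℕ) = ⟨-1 / 2, -√3 / 2⟩ := by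
    have : ω ^ 4 = ω * ω ^ 3 := by ring
    rw [this, ω_cube]; apply Complex.ext <;> simp <;> ring
  have h5 : ω ^ (5 : ℕ) = ⟨1 / 2, -√3 / 2⟩ := by
    have : ω ^ 5 = ω ^ 2 * ω ^ 3 := by ring
    rw [this, ω_cube, ω_sq]; apply Complex.ext <;> simp <;> ring
  interval_cases r
  · left; simp
  · right; left; simp
  · right; right; left; rw [← ω_sq]; norm_cast
  · right; right; right; left; rw [← ω_cube]; norm_cast
  · right; right; right; right; left; rw [← h4]; norm_cast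
  · right; right; right; right; right; rw [← h5]; norm_cast

end Pool.Agent.H703R3.HX
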