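import Pool.Agent.H703R3.HXNormal

set_option autoImplicit false
set_option maxHeartbeats 4000000

open Set Filter Topology

namespace Pool.Agent.H703R3.HX

/-- unit normal of the edge `[1, ω]` of the hexagon -/
noncomputable def mm : ℂ := ⟨√3 / 2, 1 / 2⟩

/-- the regular hexagon with vertices `ω ^ k` -/
def Cx : Set ℂ := {z | ∀ k : ℤ, dt z (ω ^ k * mm) ≤ √3 / 2}
/-- its interior -/
def Co : Set ℂ := {z | ∀ k : ℤ, dt z (ω ^ k * mm) < √3 / 2}

theorem mm_ne : mm ≠ 0 := by
  intro hh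
  have := congrArg Complex.im hh
  simp [mm] at this

theorem fin_iff {p : ℂ → Prop} : (∀ k : ℤ, p (ω ^ k)) ↔ ∀ k ∈ Finset.Ico (0 : ℤ) 6, p (ω ^ k) := by
  constructor
  · intro h k _; exact h k
  · intro h k
    rw [zpow_mod]
    exact h _ (by simp [Int.emod_nonneg, Int.emod_lt_of_pos])

theorem isOpen_Co : IsOpen Co := by
  have : Co = ⋂ k ∈ Finset.Ico (0 : ℤ) 6, {z | dt z (ω ^ k * mm) < √3 / 2} := by
    ext z
    simp only [mem_iInter, Co]
    exact fin_iff (p := fun w => dt z (w * mm) < √3 / 2)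
  rw [this]
  apply isOpen_biInter_finset
  intro k _
  exact isOpen_lt (continuous_dt _) continuous_const

theorem isClosed_Cx : IsClosed Cx := by
  have : Cx = ⋂ k : ℤ, {z | dt z (ω ^ k * mm) ≤ √3 / 2} := by
    ext z; simp [Cx]
  rw [this]
  exact isClosed_iInter fun k => isClosed_le (continuous_dt _) continuous_const

theorem Co_subset_Cx : Co ⊆ Cx := fun _ h k => (h k).le

theorem int_lt {S : Set ℂ} {N : ℂ} {c : ℝ} (hN : N ≠ 0) (h : ∀ z ∈ S, dt z N ≤ c) {z : ℂ}
    (hz : z ∈ interior S) : dt z N < c := by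
  have hn : 0 < dt N N := by
    rw [dt_self]; have := norm_pos_iff.2 hN; positivity
  have hcont : Tendsto (fun t : ℝ => z + t * N) (𝓝[>] 0) (𝓝 z) := by
    have : Continuous fun t : ℝ => z + t * N := by fun_prop
    have h2 := this.tendsto 0
    simp only [Complex.ofReal_zero, zero_mul, add_zero] at h2
    exact h2.mono_left nhdsWithin_le_nhds
  have hev := hcont.eventually (mem_interior_iff_mem_nhds.1 hz)
  obtain ⟨t, ht, htpos⟩ := (hev.and self_mem_nhdsWithin).exists
  have h1 := h _ ht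
  rw [dt_add_left, dt_smul_left] at h1
  have : 0 < t * dt N N := mul_pos htpos hn
  linarith

theorem interior_Cx : interior Cx = Co := by
  apply subset_antisymm
  · intro z hz k
    exact int_lt (S := Cx) (mul_ne_zero (zpow_ne k) mm_ne) (fun w hw => hw k) hz
  · exact interior_maximal Co_subset_Cx isOpen_Co

theorem rot_Cx {z : ℂ} (k : ℤ) : ω ^ k * z ∈ Cx ↔ z ∈ Cx := by
  constructor
  · intro h j
    have := h (k + j)
    rw [zpow_add₀ ω_ne, mul_assoc, dt_rot] at this
    exact this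
  · intro h j
    have := h (j - k)
    have e : ω ^ j = ω ^ k * ω ^ (j - k) := by rw [← zpow_add₀ ω_ne]; congr 1; ring
    rw [e, mul_assoc, dt_rot]
    exact this

theorem rot_Co {z : ℂ} (k : ℤ) : ω ^ k * z ∈ Co ↔ z ∈ Co := by
  constructor
  · intro h j
    have := h (k + j)
    rw [zpow_add₀ ω_ne, mul_assoc, dt_rot] at this
    exact this
  · intro h j
    have := h (j - k)
    have e : ω ^ j = ω ^ k * ω ^ (j - k) := by rw [← zpow_add₀ ω_ne]; congr 1; ring
    rw [e, mul_assoc, dt_rot]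
    exact this

/-- coordinates -/
theorem mem_Cx_of {z : ℂ} (h1 : √3 * z.re + z.im ≤ √3) (h2 : √3 * z.re - z.im ≤ √3)
    (h3 : -(√3 * z.re) + z.im ≤ √3) (h4 : -(√3 * z.re) - z.im ≤ √3) (h5 : 2 * z.im ≤ √3)
    (h6 : -(2 * z.im) ≤ √3) : z ∈ Cx := by
  intro k
  rcases zpow_cases k with hj | hj | hj | hj | hj | hj <;> rw [hj] <;> simp [dt, mm]
  · linarith
  · have := s3; nlinarith
  · have := s3; nlinarith
  · linarith
  · have := s3; nlinarith
  · have := s3; nlinarith

theorem mem_Co_of {z : ℂ} (h1 : √3 * z.re + z.im < √3) (h2 : √3 * z.re - z.im < √3)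
    (h3 : -(√3 * z.re) + z.im < √3) (h4 : -(√3 * z.re) - z.im < √3) (h5 : 2 * z.im < √3)
    (h6 : -(2 * z.im) < √3) : z ∈ Co := by
  intro k
  rcases zpow_cases k with hj | hj | hj | hj | hj | hj <;> rw [hj] <;> simp [dt, mm]
  · linarith
  · have := s3; nlinarith
  · have := s3; nlinarith
  · linarith
  · have := s3; nlinarith
  · have := s3; nlinarith

theorem m0 (z : ℂ) : dt z (ω ^ (0 : ℤ) * mm) = √3 / 2 * z.re + z.im / 2 := by
  simp [dt, mm]; ring
theorem m1 (z : ℂ) : dt z (ω ^ (1 : ℤ) * mm) = z.im := by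
  simp [dt, mm]; linear_combination (z.im / 4) * s3
theorem m5 (z : ℂ) : dt z (ω ^ (-1 : ℤ) * mm) = √3 / 2 * z.re - z.im / 2 := by
  rw [ω_inv]; simp [dt, mm]; linear_combination (-z.im / 4) * s3
theorem m4 (z : ℂ) : dt z (ω ^ (-2 : ℤ) * mm) = -z.im := by
  have : ω ^ (-2 : ℤ) = ω ^ (-1 : ℤ) * ω ^ (-1 : ℤ) := by rw [← zpow_add₀ ω_ne]; norm_num
  rw [this, ω_inv]; simp [dt, mm]; linear_combination (-z.im / 2 + z.im / 8 - z.re * √3 / 8) * s3

theorem convex_Cx : Convex ℝ Cx := by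
  intro x hx y hy a b ha hb hab k
  have e : a • x + b • y = a * x + b * y := by simp
  rw [e, dt_add_left, dt_smul_left, dt_smul_left]
  have h1 := mul_le_mul_of_nonneg_left (hx k) ha
  have h2 := mul_le_mul_of_nonneg_left (hy k) hb
  have h3 : a * (√3 / 2) + b * (√3 / 2) = √3 / 2 := by rw [← add_mul, hab, one_mul]
  linarith

theorem Cx_subset_Om : Cx ⊆ Om := by
  intro z hz
  rw [mem_Om_iff]
  intro k X y h
  have hle := h.le
  have hge := h.ge
  have hX := h.Xle
  have h1 := hz k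
  have h2 := hz (k + -1)
  rw [zpow_add₀ ω_ne, mul_assoc] at h2
  have e : ω ^ k * nn X y = ((√3 * X + 2 * y : ℝ) : ℂ) * (ω ^ k * mm) +
      ((√3 * X - 2 * y : ℝ) : ℂ) * (ω ^ k * (ω ^ (-1 : ℤ) * mm)) := by
    have : nn X y = ((√3 * X + 2 * y : ℝ) : ℂ) * mm + ((√3 * X - 2 * y : ℝ) : ℂ) * (ω ^ (-1 : ℤ) * mm) := by
      rw [ω_inv]
      apply Complex.ext
      · simp only [nn, mm, Complex.add_re, Complex.mul_re, Complex.mul_im, Complex.ofReal_re,
          Complex.ofReal_im]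
        linear_combination (-X) * s3
      · simp only [nn, mm, Complex.add_im, Complex.mul_re, Complex.mul_im, Complex.ofReal_re,
          Complex.ofReal_im]
        linear_combination ((√3 * X - 2 * y) / 4) * s3
    rw [this]; ring
  have h2' : dt z (ω ^ k * nn X y) = (√3 * X + 2 * y) * dt z (ω ^ k * mm) +
      (√3 * X - 2 * y) * dt z (ω ^ k * (ω ^ (-1 : ℤ) * mm)) := by
    rw [e]; simp [dt]; ring
  rw [dt_sub_left, dt_rot, dt_pt_nn h, h2']
  have hp := s3pos
  have hX1 := h.2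
  have a1 : 0 ≤ √3 * X + 2 * y := by nlinarith
  have a2 : 0 ≤ √3 * X - 2 * y := by nlinarith
  have b1 := mul_le_mul_of_nonneg_left h1 a1
  have b2 := mul_le_mul_of_nonneg_left h2 a2
  nlinarith [s3]

theorem isCompact_Cx : IsCompact Cx :=
  Metric.isCompact_of_isClosed_isBounded isClosed_Cx (bounded_Om.subset Cx_subset_Om)

theorem one_mem : (1 : ℂ) ∈ Cx := by
  apply mem_Cx_of <;> simp

theorem zpow_mem (k : ℤ) : ω ^ k ∈ Cx := by
  rw [← mul_one (ω ^ k), rot_Cx]; exact one_mem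

end Pool.Agent.H703R3.HX
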