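import Pool.Agent.H703R3.HXTangent

set_option autoImplicit false
set_option maxHeartbeats 4000000

open Set Filter Topology

namespace Pool.Agent.H703R3.HX

variable {X y : ℝ}

theorem refl_B (h : Ar X y) : ((3 / 2 - √3 / 3 * y : ℝ) : ℂ) *
    refl (((‖nn X y‖⁻¹ : ℝ) : ℂ) * nn X y) (ω ^ (-1 : ℤ) - pt X y) =
    (-(3 / 2 + √3 / 3 * y) : ℝ) * (ω - pt X y) := by
  have hnpos := norm_pos_iff.2 (nn_ne h)
  have hN : ‖nn X y‖ ^ 2 = 9 * X ^ 2 + 4 * y ^ 2 := by rw [← dt_self]; simp [dt, nn]; ring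
  have e1 : (2 * inner ℝ (ω ^ (-1 : ℤ) - pt X y) (((‖nn X y‖⁻¹ : ℝ) : ℂ) * nn X y) : ℝ) *
      ((‖nn X y‖⁻¹ : ℝ) : ℂ) =
      ((2 * dt (ω ^ (-1 : ℤ) - pt X y) (nn X y) / ‖nn X y‖ ^ 2 : ℝ) : ℂ) := by
    rw [inner_eq, dt_smul_right, ← Complex.ofReal_mul]
    congr 1
    field_simp
  have e2 : refl (((‖nn X y‖⁻¹ : ℝ) : ℂ) * nn X y) (ω ^ (-1 : ℤ) - pt X y) = (ω ^ (-1 : ℤ) - pt X y) -
      ((2 * dt (ω ^ (-1 : ℤ) - pt X y) (nn X y) / ‖nn X y‖ ^ 2 : ℝ) : ℂ) * nn X y := by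
    rw [refl, ← mul_assoc, e1]
  have hX := h.2
  have h0 := h.1
  have hq : 9 * X ^ 2 + 4 * y ^ 2 = 27 / 2 - 2 * y ^ 2 := by linarith
  have hpos : 0 < 9 * X ^ 2 + 4 * y ^ 2 := by positivity
  have e3 : (3 / 2 - √3 / 3 * y) * (2 * dt (ω ^ (-1 : ℤ) - pt X y) (nn X y) / ‖nn X y‖ ^ 2) = -1 := by
    rw [hN, mul_div_assoc', div_eq_iff hpos.ne', pB]
    simp only [dt, nn]
    linear_combination (-2 * (3 / 2 - √3 / 3 * y)) * h0 / 2 + hq + (2 * y ^2 / 3) * s3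
  rw [e2]
  have e4 : ((3 / 2 - √3 / 3 * y : ℝ) : ℂ) * ((ω ^ (-1 : ℤ) - pt X y) -
      ((2 * dt (ω ^ (-1 : ℤ) - pt X y) (nn X y) / ‖nn X y‖ ^ 2 : ℝ) : ℂ) * nn X y) =
      ((3 / 2 - √3 / 3 * y : ℝ) : ℂ) * (ω ^ (-1 : ℤ) - pt X y) -
      (((3 / 2 - √3 / 3 * y) * (2 * dt (ω ^ (-1 : ℤ) - pt X y) (nn X y) / ‖nn X y‖ ^ 2) : ℝ) : ℂ) *
        nn X y := by
    push_cast; ring
  rw [e4, e3, pA, pB]
  apply Complex.ext
  · simp only [nn, Complex.sub_re, Complex.re_ofReal_mul]; ring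
  · simp only [nn, Complex.sub_im, Complex.im_ofReal_mul]
    linear_combination (y / 3) * s3

theorem refl_rot (k : ℤ) (n v : ℂ) : refl (ω ^ k * n) (ω ^ k * v) = ω ^ k * refl n v := by
  simp only [refl, inner_eq, dt_rot]; ring

theorem refl_smul (t : ℝ) (n v : ℂ) : refl n (t * v) = t * refl n v := by
  simp only [refl, inner_eq, dt_smul_left]; push_cast; ring

theorem tan_smul {C : Set ℂ} {P v : ℂ} {t : ℝ} (ht : t ≠ 0) (h : IsTangentLine C P v) :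
    IsTangentLine C P (t * v) := by
  obtain ⟨h0, ⟨s, hs⟩, h2⟩ := h
  have ht' : (t : ℂ) ≠ 0 := by exact_mod_cast ht
  refine ⟨mul_ne_zero ht' h0, ⟨s / t, ?_⟩, fun r hr => h2 (r * t) ?_⟩
  · have : P + ((s / t : ℝ) : ℂ) * (t * v) = P + s * v := by
      push_cast; field_simp
    rw [this]; exact hs
  · have : P + ((r * t : ℝ) : ℂ) * v = P + r * (t * v) := by push_cast; ring
    rw [this]; exact hr

theorem tan_rot (k : ℤ) {P v : ℂ} : IsTangentLine Cx (ω ^ k * P) (ω ^ k * v) ↔ IsTangentLine Cx P v := by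
  unfold IsTangentLine
  have e : ∀ t : ℝ, ω ^ k * P + t * (ω ^ k * v) = ω ^ k * (P + t * v) := fun t => by ring
  simp only [e, interior_Cx, rot_Cx, rot_Co]
  constructor
  · rintro ⟨h0, h1, h2⟩; exact ⟨right_ne_zero_of_mul h0, h1, h2⟩
  · rintro ⟨h0, h1, h2⟩; exact ⟨mul_ne_zero (zpow_ne k) h0, h1, h2⟩

theorem aux (a b : ℝ) (hb : b ≠ 0) : a = b * (a / b) := by field_simp

theorem tan_refl0 (h : Ar X y) {v : ℂ} (hv : IsTangentLine Cx (pt X y) v) :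
    IsTangentLine Cx (pt X y) (refl (((‖nn X y‖⁻¹ : ℝ) : ℂ) * nn X y) v) := by
  have hp := s3pos
  have c1 : 0 < 3 / 2 - √3 / 3 * y := by nlinarith [h.le, s3]
  have c2 : 0 < 3 / 2 + √3 / 3 * y := by nlinarith [h.ge, s3]
  have c1' : ((3 / 2 - √3 / 3 * y : ℝ) : ℂ) ≠ 0 := by exact_mod_cast c1.ne'
  have c2' : ((3 / 2 + √3 / 3 * y : ℝ) : ℂ) ≠ 0 := by exact_mod_cast c2.ne'
  obtain ⟨t, ht | ht⟩ := classify h hv
  · have ht0 : t ≠ 0 := by
      rintro rfl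
      apply hv.1; rw [ht]; simp
    have e : refl (((‖nn X y‖⁻¹ : ℝ) : ℂ) * nn X y) (ω - pt X y) =
        ((-(3 / 2 - √3 / 3 * y) / (3 / 2 + √3 / 3 * y) : ℝ) : ℂ) * (ω ^ (-1 : ℤ) - pt X y) := by
      apply mul_left_cancel₀ c2'
      rw [refl_A h, ← mul_assoc, ← Complex.ofReal_mul]
      congr 2
      exact aux _ _ c2.ne'
    rw [ht, refl_smul]
    apply tan_smul ht0
    rw [e]
    apply tan_smul _ (tanB h)
    apply div_ne_zero _ c2.ne'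
    linarith
  · have ht0 : t ≠ 0 := by
      rintro rfl
      apply hv.1; rw [ht]; simp
    have e : refl (((‖nn X y‖⁻¹ : ℝ) : ℂ) * nn X y) (ω ^ (-1 : ℤ) - pt X y) =
        ((-(3 / 2 + √3 / 3 * y) / (3 / 2 - √3 / 3 * y) : ℝ) : ℂ) * (ω - pt X y) := by
      apply mul_left_cancel₀ c1'
      rw [refl_B h, ← mul_assoc, ← Complex.ofReal_mul]
      congr 2
      exact aux _ _ c1.ne'
    rw [ht, refl_smul]
    apply tan_smul ht0
    rw [e]
    apply tan_smul _ (tanA h)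
    apply div_ne_zero _ c1.ne'
    linarith

theorem isConvexCaustic : IsConvexCaustic Om Cx where
  isCompact := isCompact_Cx
  convex := convex_Cx
  nonempty := by
    rw [interior_Cx]
    refine ⟨0, ?_⟩
    have := s3pos
    apply mem_Co_of <;> simp
  subset := Cx_subset_Om
  reflected := by
    intro P hP n hn v hv
    obtain ⟨k, X, y, h, rfl⟩ := frontier_Om hP
    rw [eq_un h k hn]
    have hv2 : v = ω ^ k * (ω ^ (-k) * v) := by
      rw [← mul_assoc, ← zpow_add₀ ω_ne, add_neg_cancel, zpow_zero, one_mul]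
    rw [hv2] at hv ⊢
    have e : un k X y = ω ^ k * (((‖nn X y‖⁻¹ : ℝ) : ℂ) * nn X y) := by rw [un]; ring
    rw [e, refl_rot, tan_rot]
    rw [tan_rot] at hv
    exact tan_refl0 h hv

end Pool.Agent.H703R3.HX
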