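import Pool.Agent.H703R3.HXCaustic

set_option autoImplicit false
set_option maxHeartbeats 4000000

open Set Filter Topology

namespace Pool.Agent.H703R3.HX

/-- arc-length parametrisation of the boundary of the regular hexagon with vertices `ω ^ k` -/
noncomputable def gam (s : ℝ) : ℂ := ω ^ ⌊s⌋ * (1 + (Int.fract s : ℝ) * (ω - 1))

theorem gam_Icc {j : ℤ} {s : ℝ} (h1 : j ≤ s) (h2 : s ≤ j + 1) :
    gam s = ω ^ j * (1 + ((s - j : ℝ) : ℂ) * (ω - 1)) := by
  rcases h2.lt_or_eq with h | h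
  · have : ⌊s⌋ = j := Int.floor_eq_iff.2 ⟨h1, h⟩
    rw [gam, Int.fract, this]
  · have h3 : s = ((j + 1 : ℤ) : ℝ) := by push_cast; exact h
    rw [gam, h3, Int.floor_intCast, Int.fract_intCast, zpow_add₀ ω_ne, zpow_one]
    push_cast; ring

theorem gam_int (j : ℤ) : gam j = ω ^ j := by
  rw [gam, Int.floor_intCast, Int.fract_intCast]; simp

theorem gam_periodic : Function.Periodic gam 6 := by
  intro s
  have h1 : ⌊s + 6⌋ = ⌊s⌋ + 6 := by
    simp
  have h2 : Int.fract (s + 6) = Int.fract s := by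
    simp
  rw [gam, gam, h1, h2, zpow_add_six]

theorem ω_sub_one : ω - 1 = ⟨-1 / 2, √3 / 2⟩ := by
  apply Complex.ext <;> simp
  norm_num

theorem norm_ω_sub_one : ‖ω - 1‖ = 1 := by
  rw [← ω_sq', norm_pow, norm_ω, one_pow]

theorem gam_mem (s : ℝ) : gam s ∈ Cx := by
  rw [gam, rot_Cx]
  have h0 := Int.fract_nonneg s
  have h1 := (Int.fract_lt_one s).le
  have := s3pos
  rw [ω_sub_one]
  apply mem_Cx_of <;> simp <;> nlinarith

theorem dt_gam (s : ℝ) : dt (gam s) (ω ^ ⌊s⌋ * mm) = √3 / 2 := by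
  rw [gam, dt_rot, ω_sub_one]
  simp [dt, mm]; ring

theorem range_gam : range gam = frontier Cx := by
  rw [frontier, isClosed_Cx.closure_eq, interior_Cx]
  apply subset_antisymm
  · rintro _ ⟨s, rfl⟩
    refine ⟨gam_mem s, fun h => ?_⟩
    have := h ⌊s⌋
    rw [dt_gam] at this
    exact lt_irrefl _ this
  · rintro z ⟨hz, hz2⟩
    have : ∃ k : ℤ, √3 / 2 ≤ dt z (ω ^ k * mm) := by
      by_contra hc
      push Not at hc
      exact hz2 hc
    obtain ⟨k, hk⟩ := this
    set w := ω ^ (-k) * z with hw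
    have hzw : z = ω ^ k * w := by
      rw [hw, ← mul_assoc, ← zpow_add₀ ω_ne, add_neg_cancel, zpow_zero, one_mul]
    rw [hzw, dt_rot] at hk
    rw [hzw, rot_Cx] at hz
    have h0 := hz 0
    have h1 := hz 1
    have h5 := hz (-1)
    rw [m0] at h0
    rw [m1] at h1
    rw [m5] at h5
    have hk' : √3 / 2 * w.re + w.im / 2 = √3 / 2 := by
      apply le_antisymm h0
      have : dt w mm = √3 / 2 * w.re + w.im / 2 := by simp [dt, mm]; ring
      rw [this] at hk; exact hk
    have hp := s3pos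
    have hy0 : 0 ≤ w.im := by linarith
    set t := √3 / 3 * (2 * w.im) with ht
    have ht0 : 0 ≤ t := by positivity
    have ht1 : t ≤ 1 := by
      have : √3 * (2 * w.im) ≤ √3 * √3 := mul_le_mul_of_nonneg_left (by linarith) hp.le
      rw [s3] at this
      rw [ht]; linarith
    refine ⟨k + t, ?_⟩
    rw [gam_Icc (j := k) (by linarith) (by linarith), hzw]
    congr 1
    rw [ω_sub_one]
    have hr : w.re = 1 - √3 / 3 * w.im := by
      have : √3 * (w.re - (1 - √3 / 3 * w.im)) = 0 := by linear_combination 2 * hk' + w.im / 3 * s3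
      rcases mul_eq_zero.1 this with h | h
      · linarith
      · linarith
    apply Complex.ext
    · simp only [Complex.add_re, Complex.one_re, Complex.re_ofReal_mul, hr, ht]; ring
    · simp only [Complex.add_im, Complex.one_im, Complex.im_ofReal_mul, ht]
      linear_combination (w.im / 3) * s3

theorem gam_injOn : InjOn gam (Ico 0 6) := by
  intro s hs t ht he
  set i := ⌊s⌋ with hi
  set j := ⌊t⌋ with hj
  set f := Int.fract s with hf
  set g := Int.fract t with hg
  have hf0 : 0 ≤ f := Int.fract_nonneg s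
  have hf1 : f < 1 := Int.fract_lt_one s
  have hg0 : 0 ≤ g := Int.fract_nonneg t
  have hg1 : g < 1 := Int.fract_lt_one t
  have i0 : 0 ≤ i := Int.floor_nonneg.2 hs.1
  have i1 : i < 6 := Int.floor_lt.2 (by exact_mod_cast hs.2)
  have j0 : 0 ≤ j := Int.floor_nonneg.2 ht.1
  have j1 : j < 6 := Int.floor_lt.2 (by exact_mod_cast ht.2)
  have he' : ω ^ (i - j) * (1 + (f : ℂ) * (ω - 1)) = 1 + (g : ℂ) * (ω - 1) := by
    have h1 : ω ^ i * (1 + (f : ℂ) * (ω - 1)) = ω ^ j * (1 + (g : ℂ) * (ω - 1)) := he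
    have h2 : ω ^ (i - j) = ω ^ (-j) * ω ^ i := by rw [← zpow_add₀ ω_ne]; congr 1; ring
    rw [h2, mul_assoc, h1, ← mul_assoc, ← zpow_add₀ ω_ne, neg_add_cancel, zpow_zero, one_mul]
  have hp := s3pos
  rw [ω_sub_one] at he'
  have hre := congrArg Complex.re he'
  have him := congrArg Complex.im he'
  have key : i = j ∧ f = g := by
    have hmod : ω ^ (i - j) = 1 → i = j := by
      intro h1
      have h2 : (i - j) % 6 = 0 ∨ (i - j) % 6 = 1 ∨ (i - j) % 6 = 2 ∨ (i - j) % 6 = 3 ∨ (i - j) % 6 = 4 ∨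
        (i - j) % 6 = 5 := by omega
      rw [zpow_mod] at h1
      have e2 : ω ^ (2 : ℤ) = ⟨-1 / 2, √3 / 2⟩ := by rw [← ω_sq]; norm_cast
      have e3 : ω ^ (3 : ℤ) = -1 := by rw [← ω_cube]; norm_cast
      have e4 : ω ^ (4 : ℤ) = -ω := by
        rw [show (4 : ℤ) = 3 + 1 by norm_num, zpow_add₀ ω_ne, e3, zpow_one]; ring
      have e5 : ω ^ (5 : ℤ) = -ω ^ (2 : ℤ) := by
        rw [show (5 : ℤ) = 3 + 2 by norm_num, zpow_add₀ ω_ne, e3]; ring
      rcases h2 with h | h | h | h | h | h <;> rw [h] at h1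
      · omega
      · rw [zpow_one] at h1
        have := congrArg Complex.re h1
        norm_num at this
      · rw [e2] at h1
        have := congrArg Complex.re h1
        norm_num at this
      · rw [e3] at h1
        have := congrArg Complex.re h1
        norm_num at this
      · rw [e4] at h1
        have := congrArg Complex.re h1
        norm_num at this
      · rw [e5, e2] at h1
        have := congrArg Complex.re h1
        norm_num at this
    rcases zpow_cases (i - j) with h | h | h | h | h | h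
    · refine ⟨hmod h, ?_⟩
      rw [h] at hre
      simp at hre
      linarith
    · exfalso
      rw [h] at hre him
      simp at hre him
      nlinarith [s3]
    · exfalso
      rw [h] at hre him
      simp at hre him
      nlinarith [s3]
    · exfalso
      rw [h] at hre him
      simp at hre him
      nlinarith [s3]
    · exfalso
      rw [h] at hre him
      simp at hre him
      nlinarith [s3]
    · exfalso
      rw [h] at hre him
      simp at hre him
      nlinarith [s3]
  rw [← Int.floor_add_fract s, ← Int.floor_add_fract t, ← hi, ← hj, ← hf, ← hg, key.1, key.2]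

theorem unit_Icc_one (j : ℤ) : HasUnitSpeedOn gam (Icc (j : ℝ) (j + 1)) := by
  have hd : ∀ x ∈ Icc (j : ℝ) (j + 1), ∀ y ∈ Icc (j : ℝ) (j + 1), dist (gam x) (gam y) = dist x y := by
    intro x hx y hy
    rw [gam_Icc hx.1 hx.2, gam_Icc hy.1 hy.2, dist_eq_norm, dist_eq_norm, ← mul_sub, norm_mul, nω,
      one_mul]
    have : (1 + ((x - j : ℝ) : ℂ) * (ω - 1)) - (1 + ((y - j : ℝ) : ℂ) * (ω - 1)) =
        ((x - y : ℝ) : ℂ) * (ω - 1) := by push_cast; ring
    rw [this, norm_mul, norm_ω_sub_one, mul_one, Complex.norm_real]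
  have hs : (1 : NNReal) = 1 := rfl
  unfold HasUnitSpeedOn
  rw [hasConstantSpeedOnWith_iff_ordered]
  intro x hx y hy hxy
  have hsub : Icc (j : ℝ) (j + 1) ∩ Icc x y = Icc x y :=
    inter_eq_self_of_subset_right (Icc_subset_Icc hx.1 hy.2)
  rw [hsub]
  apply le_antisymm
  · have h1 : LipschitzOnWith 1 gam (Icc (j : ℝ) (j + 1)) := by
      apply LipschitzOnWith.of_dist_le_mul
      intro a ha b hb
      rw [hd a ha b hb]; simp
    have h2 := h1.comp_eVariationOn_le (f := gam) (g := fun x : ℝ => x) (s := Icc x y)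
      (fun z hz => ⟨hx.1.trans hz.1, hz.2.trans hy.2⟩)
    have h3 : eVariationOn (fun x : ℝ => x) (Icc x y ∩ Icc x y) = ENNReal.ofReal (y - x) :=
      MonotoneOn.eVariationOn_eq (fun a _ b _ hab => hab) (left_mem_Icc.2 hxy) (right_mem_Icc.2 hxy)
    rw [inter_self] at h3
    calc eVariationOn gam (Icc x y) = eVariationOn (gam ∘ fun x : ℝ => x) (Icc x y) := rfl
      _ ≤ _ := h2
      _ ≤ _ := by
        rw [ENNReal.coe_one, one_mul, h3, NNReal.coe_one, one_mul]
  · have h1 := eVariationOn.edist_le gam (s := Icc x y) (left_mem_Icc.2 hxy) (right_mem_Icc.2 hxy)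
    rw [edist_dist, hd x hx y hy, dist_comm, Real.dist_eq, abs_of_nonneg (sub_nonneg.2 hxy)] at h1
    simpa using h1

theorem unit_Icc (j : ℤ) (n : ℕ) : HasUnitSpeedOn gam (Icc (j : ℝ) (j + n)) := by
  induction n with
  | zero =>
    have : Icc (j : ℝ) (j + (0 : ℕ)) = {(j : ℝ)} := by simp
    rw [this]
    exact hasConstantSpeedOnWith_of_subsingleton _ subsingleton_singleton _
  | succ n ih =>
    have h := unit_Icc_one (j + n)
    push_cast at h ⊢
    rw [← add_assoc]
    exact ih.Icc_Icc h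

theorem unit_univ : HasUnitSpeedOn gam univ := by
  unfold HasUnitSpeedOn
  rw [hasConstantSpeedOnWith_iff_ordered]
  intro x _ y _ hxy
  have h := unit_Icc ⌊x⌋ (⌈y⌉ - ⌊x⌋).toNat
  have e1 : (⌊x⌋ : ℝ) ≤ x := Int.floor_le x
  have e2 : y ≤ ⌊x⌋ + ((⌈y⌉ - ⌊x⌋).toNat : ℝ) := by
    have h1 : ((⌈y⌉ - ⌊x⌋ : ℤ) : ℝ) ≤ ((⌈y⌉ - ⌊x⌋).toNat : ℝ) := by
      exact_mod_cast Int.self_le_toNat (⌈y⌉ - ⌊x⌋)
    have h2 := Int.le_ceil y
    push_cast at h1
    linarith
  have h3 := h ⟨e1, hxy.trans e2⟩ ⟨e1.trans hxy, e2⟩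
  have e3 : Icc (⌊x⌋ : ℝ) (⌊x⌋ + ((⌈y⌉ - ⌊x⌋).toNat : ℝ)) ∩ Icc x y = univ ∩ Icc x y := by
    rw [univ_inter]
    exact inter_eq_self_of_subset_right (Icc_subset_Icc e1 e2)
  rw [← e3]
  exact h3

theorem isArcLengthParam : IsArcLengthParam Cx gam 6 where
  pos := by norm_num
  unitSpeed := unit_univ
  periodic := gam_periodic
  injOn := gam_injOn
  range := range_gam

end Pool.Agent.H703R3.HX
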