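import Mathlib

/-!
# Convex billiard tables, convex caustics, tangency points
The plane is `ℂ`, with its Euclidean norm.
-/

set_option autoImplicit false

open Set Filter Topology

namespace Pool.Agent.H703R3.HX

/-- `n` is an outer unit normal of the set `Ω` at the point `P`. -/
def IsOuterNormal (Ω : Set ℂ) (P n : ℂ) : Prop :=
  ‖n‖ = 1 ∧ ∀ z ∈ Ω, inner ℝ (z - P) n ≤ 0

/-- `Ω` is (the inside of) a strictly convex billiard table of class `C^1`: a nonempty bounded open
convex set whose closure is strictly convex, with exactly one outer unit normal (i.e. one supporting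
line) at every boundary point; for a convex domain this says that the boundary curve is `C^1`. -/
structure IsTable (Ω : Set ℂ) : Prop where
  isOpen : IsOpen Ω
  nonempty : Ω.Nonempty
  bounded : Bornology.IsBounded Ω
  convex : Convex ℝ Ω
  strictConvex : StrictConvex ℝ (closure Ω)
  normal : ∀ P ∈ frontier Ω, ∃! n : ℂ, IsOuterNormal Ω P n

/-- The line `P + ℝ v` is tangent to the closed convex curve `frontier C` bounding the convex body `C`:
it meets `C` and does not meet the interior of `C` (i.e. it is a supporting line of `C`). -/
def IsTangentLine (C : Set ℂ) (P v : ℂ) : Prop :=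
  v ≠ 0 ∧ (∃ t : ℝ, P + t * v ∈ C) ∧ ∀ t : ℝ, P + t * v ∉ interior C

/-- Specular reflection of the direction `v` in a wall with unit normal `n`
(angle of incidence = angle of reflection). -/
noncomputable def refl (n v : ℂ) : ℂ := v - (2 * inner ℝ v n : ℝ) * n

/-- The closed convex curve `frontier C` is a convex caustic of the table `Ω`: `C` is a convex body
(compact, convex, with interior points) contained in `Ω`, and whenever a line through a boundary point
`P` of `Ω` is tangent to the curve, the line reflected at `P` is again tangent to it. -/
structure IsConvexCaustic (Ω C : Set ℂ) : Prop where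
  isCompact : IsCompact C
  convex : Convex ℝ C
  nonempty : (interior C).Nonempty
  subset : C ⊆ Ω
  reflected : ∀ P ∈ frontier Ω, ∀ n, IsOuterNormal Ω P n → ∀ v, IsTangentLine C P v →
    IsTangentLine C P (refl n v)

/-- `γ` is a parametrisation by arc length of the closed curve `frontier C`, of total length `L`. -/
structure IsArcLengthParam (C : Set ℂ) (γ : ℝ → ℂ) (L : ℝ) : Prop where
  pos : 0 < L
  unitSpeed : HasUnitSpeedOn γ univ
  periodic : Function.Periodic γ L
  injOn : InjOn γ (Ico 0 L)
  range : range γ = frontier C

/-- `A` and `B` are points of the two tangent lines to `frontier C` through `P`: they lie on the curve,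
the lines `PA` and `PB` are tangent and different, and every tangent line through `P` is one of them. -/
structure TangentFrom (C : Set ℂ) (P A B : ℂ) : Prop where
  left : A ∈ frontier C
  right : B ∈ frontier C
  tangent_left : IsTangentLine C P (A - P)
  tangent_right : IsTangentLine C P (B - P)
  ne : ∀ t : ℝ, A - P ≠ t * (B - P)
  only : ∀ v, IsTangentLine C P v → ∃ t : ℝ, v = t * (A - P) ∨ v = t * (B - P)

/-- The line `PA` meets `C` only in `A`: then `A` is the point of tangency of this tangent line. -/
def TouchesOnlyAt (C : Set ℂ) (P A : ℂ) : Prop := ∀ t : ℝ, P + t * (A - P) ∈ C → t = 1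

/-- The arc `γ [s, s + c]` is the one facing `P`: it lies in the triangle with vertices
`P`, `γ s`, `γ (s + c)`. -/
def Faces (γ : ℝ → ℂ) (P : ℂ) (s c : ℝ) : Prop :=
  ∀ t ∈ Icc s (s + c), γ t ∈ convexHull ℝ {P, γ s, γ (s + c)}

end Pool.Agent.H703R3.HX
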