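import Pool.Agent.H703R3.HXCurve

set_option autoImplicit false
set_option maxHeartbeats 4000000

open Set Filter Topology

namespace Pool.Agent.H703R3.HX

variable {X y : ℝ}

theorem vertex_mem (h : Ar X y) :
    (1 : ℂ) ∈ convexHull ℝ {pt X y, ω ^ (-1 : ℤ), ω} := by
  have hX := h.2
  have hXpos : 0 < X := by linarith
  have hp := s3pos
  set a := ((X - 1 / 2) - √3 / 3 * y) / (2 * X) with ha
  set b := ((X - 1 / 2) + √3 / 3 * y) / (2 * X) with hb
  have ha0 : 0 ≤ a := div_nonneg (cf4 h) (by linarith)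
  have hb0 : 0 ≤ b := div_nonneg (cf3 h) (by linarith)
  have hab : a + b = 1 - 1 / (2 * X) := by rw [ha, hb]; field_simp; ring
  have hc0 : 0 ≤ 1 - a - b := by
    have : 0 ≤ 1 / (2 * X) := by positivity
    linarith
  have e : (1 : ℂ) = (1 - a - b) • pt X y + (b • ω ^ (-1 : ℤ) + a • ω) := by
    rw [ω_inv]
    apply Complex.ext
    · simp only [Complex.real_smul, Complex.add_re, Complex.re_ofReal_mul, Complex.one_re, pt, ω_re]
      have : 1 - a - b = 1 / (2 * X) := by linarith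
      have h2 : a + b = 1 - 1 / (2 * X) := hab
      rw [this]
      have h3 : b * (1 / 2) + a * (1 / 2) = (1 - 1 / (2 * X)) / 2 := by linarith
      rw [h3]; field_simp; ring
    · simp only [Complex.real_smul, Complex.add_im, Complex.im_ofReal_mul, Complex.one_im, pt, ω_im]
      have : 1 - a - b = 1 / (2 * X) := by linarith
      rw [this, ha, hb]
      field_simp
      linear_combination (4 * y) * s3
  have hA : pt X y ∈ convexHull ℝ ({pt X y, ω ^ (-1 : ℤ), ω} : Set ℂ) := subset_convexHull _ _ (by simp)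
  have hB : ω ^ (-1 : ℤ) ∈ convexHull ℝ ({pt X y, ω ^ (-1 : ℤ), ω} : Set ℂ) :=
    subset_convexHull _ _ (by simp)
  have hC : ω ∈ convexHull ℝ ({pt X y, ω ^ (-1 : ℤ), ω} : Set ℂ) := subset_convexHull _ _ (by simp)
  have hcv := convex_convexHull ℝ ({pt X y, ω ^ (-1 : ℤ), ω} : Set ℂ)
  have := hcv.sum_mem (t := (Finset.univ : Finset (Fin 3))) (w := ![1 - a - b, b, a])
    (z := ![pt X y, ω ^ (-1 : ℤ), ω])
    (by
      intro i _
      fin_cases i
      · exact hc0
      · exact hb0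
      · exact ha0)
    (by simp [Fin.sum_univ_succ]; ring)
    (by
      intro i _
      fin_cases i
      · exact hA
      · exact hB
      · exact hC)
  rw [e]
  simpa [Fin.sum_univ_succ] using this

theorem faces (h : Ar X y) (k : ℤ) : Faces gam (ω ^ k * pt X y) ((k : ℝ) - 1) 2 := by
  intro t ht
  have e1 : gam ((k : ℝ) - 1) = ω ^ k * ω ^ (-1 : ℤ) := by
    have := gam_int (k - 1)
    push_cast at this
    rw [this, ← zpow_add₀ ω_ne]; rfl
  have e2 : gam ((k : ℝ) - 1 + 2) = ω ^ k * ω := by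
    have := gam_int (k + 1)
    push_cast at this
    rw [show (k : ℝ) - 1 + 2 = k + 1 by ring, this, zpow_add₀ ω_ne, zpow_one]
  rw [e1, e2]
  have hk : ω ^ k * 1 ∈ convexHull ℝ ({ω ^ k * pt X y, ω ^ k * ω ^ (-1 : ℤ), ω ^ k * ω} : Set ℂ) := by
    have h1 := vertex_mem h
    have h2 : (LinearMap.mulLeft ℝ (ω ^ k)) '' convexHull ℝ {pt X y, ω ^ (-1 : ℤ), ω} =
        convexHull ℝ ((LinearMap.mulLeft ℝ (ω ^ k)) '' {pt X y, ω ^ (-1 : ℤ), ω}) :=
      LinearMap.image_convexHull _ _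
    have h3 : (LinearMap.mulLeft ℝ (ω ^ k)) '' {pt X y, ω ^ (-1 : ℤ), ω} =
        {ω ^ k * pt X y, ω ^ k * ω ^ (-1 : ℤ), ω ^ k * ω} := by
      simp [image_insert_eq]
    rw [← h3, ← h2]
    exact ⟨1, h1, rfl⟩
  have hcv := convex_convexHull ℝ ({ω ^ k * pt X y, ω ^ k * ω ^ (-1 : ℤ), ω ^ k * ω} : Set ℂ)
  have hB : ω ^ k * ω ^ (-1 : ℤ) ∈ convexHull ℝ ({ω ^ k * pt X y, ω ^ k * ω ^ (-1 : ℤ), ω ^ k * ω} : Set ℂ) :=
    subset_convexHull _ _ (by simp)
  have hC : ω ^ k * ω ∈ convexHull ℝ ({ω ^ k * pt X y, ω ^ k * ω ^ (-1 : ℤ), ω ^ k * ω} : Set ℂ) :=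
    subset_convexHull _ _ (by simp)
  rcases le_total t k with htk | htk
  · have e3 : gam t = (k - t : ℝ) • (ω ^ k * ω ^ (-1 : ℤ)) + (1 - (k - t) : ℝ) • (ω ^ k * 1) := by
      rw [gam_Icc (j := k - 1) (by push_cast; linarith [ht.1]) (by push_cast; linarith)]
      rw [zpow_sub₀ ω_ne, zpow_one, zpow_neg, zpow_one]
      have := ω_ne
      simp only [Complex.real_smul]
      push_cast
      field_simp
      ring
    rw [e3]
    exact hcv hB hk (by linarith) (by linarith [ht.1]) (by ring)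
  · have e3 : gam t = (1 - (t - k) : ℝ) • (ω ^ k * 1) + (t - k : ℝ) • (ω ^ k * ω) := by
      rw [gam_Icc (j := k) htk (by linarith [ht.2])]
      simp only [Complex.real_smul]
      push_cast
      ring
    rw [e3]
    exact hcv hk hC (by linarith [ht.2]) (by linarith) (by ring)

theorem tangentFrom (h : Ar X y) (k : ℤ) :
    TangentFrom Cx (ω ^ k * pt X y) (gam ((k : ℝ) - 1)) (gam ((k : ℝ) - 1 + 2)) := by
  have e1 : gam ((k : ℝ) - 1) = ω ^ k * ω ^ (-1 : ℤ) := by
    have := gam_int (k - 1)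
    push_cast at this
    rw [this, ← zpow_add₀ ω_ne]; rfl
  have e2 : gam ((k : ℝ) - 1 + 2) = ω ^ k * ω := by
    have := gam_int (k + 1)
    push_cast at this
    rw [show (k : ℝ) - 1 + 2 = k + 1 by ring, this, zpow_add₀ ω_ne, zpow_one]
  refine ⟨range_gam ▸ mem_range_self _, range_gam ▸ mem_range_self _, ?_, ?_, ?_, ?_⟩
  · rw [e1, ← mul_sub, tan_rot]; exact tanB h
  · rw [e2, ← mul_sub, tan_rot]; exact tanA h
  · intro t ht
    rw [e1, e2, ← mul_sub, ← mul_sub] at ht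
    have h1 : ω ^ (-1 : ℤ) - pt X y = t * (ω - pt X y) := by
      apply mul_left_cancel₀ (zpow_ne k)
      rw [ht]; ring
    have ht0 : t ≠ 0 := by
      rintro rfl
      apply B_ne h; rw [h1]; simp
    apply not_parallel h t⁻¹
    rw [h1]
    have : (t : ℂ) ≠ 0 := by exact_mod_cast ht0
    push_cast
    field_simp
  · intro v hv
    have hv2 : v = ω ^ k * (ω ^ (-k) * v) := by
      rw [← mul_assoc, ← zpow_add₀ ω_ne, add_neg_cancel, zpow_zero, one_mul]
    rw [hv2, tan_rot] at hv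
    obtain ⟨t, ht⟩ := classify h hv
    refine ⟨t, ?_⟩
    rw [e1, e2, hv2]
    rcases ht with ht | ht
    · right; rw [ht]; ring
    · left; rw [ht]; ring

theorem touch_rot (k : ℤ) {P A : ℂ} (h : TouchesOnlyAt Cx P A) :
    TouchesOnlyAt Cx (ω ^ k * P) (ω ^ k * A) := by
  intro t ht
  apply h t
  have : ω ^ k * P + t * (ω ^ k * A - ω ^ k * P) = ω ^ k * (P + t * (A - P)) := by ring
  rw [this, rot_Cx] at ht
  exact ht

/-- the six exceptional points -/
noncomputable def tips : Finset ℂ := (Finset.Ico (0 : ℤ) 6).image fun k => ω ^ k * pt 1 (√3 / 2)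

theorem tips_card : tips.card ≤ 6 := by
  refine Finset.card_image_le.trans ?_
  simp

theorem mem_tips (k : ℤ) : ω ^ k * pt 1 (√3 / 2) ∈ tips := by
  rw [tips, Finset.mem_image]
  exact ⟨k % 6, by simp [Int.emod_nonneg, Int.emod_lt_of_pos], by rw [← zpow_mod]⟩

theorem tip_conj : pt 1 (-(√3 / 2)) = ω ^ (-1 : ℤ) * pt 1 (√3 / 2) := by
  rw [ω_inv]
  apply Complex.ext
  · simp [pt]; linear_combination (-1 / 4) * s3
  · simp [pt]; ring

theorem one_lt_of_notMem (h : Ar X y) (k : ℤ) (hP : ω ^ k * pt X y ∉ tips) : 1 < X := by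
  rcases h.2.lt_or_eq with h1 | h1
  · exact h1
  · exfalso
    have h0 := h.1
    rw [← h1] at h0 hP
    have h2 : (y - √3 / 2) * (y + √3 / 2) = 0 := by nlinarith [s3]
    rcases mul_eq_zero.1 h2 with h3 | h3
    · have : y = √3 / 2 := by linarith
      rw [this] at hP
      exact hP (mem_tips k)
    · have : y = -(√3 / 2) := by linarith
      rw [this, tip_conj, ← mul_assoc, ← zpow_add₀ ω_ne] at hP
      exact hP (mem_tips _)

theorem main :
    ∃ (Ω C : Set ℂ) (γ : ℝ → ℂ) (L c : ℝ) (F : Finset ℂ),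
      IsTable Ω ∧ (¬ ∃ (z : ℂ) (r : ℝ), frontier Ω = Metric.sphere z r) ∧
      IsConvexCaustic Ω C ∧ IsArcLengthParam C γ L ∧ 0 < c ∧ c < L ∧ F.card ≤ 6 ∧
      ∀ P ∈ frontier Ω, ∃ s : ℝ, TangentFrom C P (γ s) (γ (s + c)) ∧ Faces γ P s c ∧
        (P ∉ F → TouchesOnlyAt C P (γ s) ∧ TouchesOnlyAt C P (γ (s + c))) := by
  refine ⟨Om, Cx, gam, 6, 2, tips, isTable_Om, not_circle, isConvexCaustic, isArcLengthParam,
    by norm_num, by norm_num, tips_card, ?_⟩
  intro P hP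
  obtain ⟨k, X, y, h, rfl⟩ := frontier_Om hP
  refine ⟨(k : ℝ) - 1, tangentFrom h k, faces h k, fun hF => ?_⟩
  have hX := one_lt_of_notMem h k hF
  have e1 : gam ((k : ℝ) - 1) = ω ^ k * ω ^ (-1 : ℤ) := by
    have := gam_int (k - 1)
    push_cast at this
    rw [this, ← zpow_add₀ ω_ne]; rfl
  have e2 : gam ((k : ℝ) - 1 + 2) = ω ^ k * ω := by
    have := gam_int (k + 1)
    push_cast at this
    rw [show (k : ℝ) - 1 + 2 = k + 1 by ring, this, zpow_add₀ ω_ne, zpow_one]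
  rw [e1, e2]
  exact ⟨touch_rot k (touchB h hX), touch_rot k (touchA h hX)⟩

end Pool.Agent.H703R3.HX
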