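import Pool.Agent.H703R3.HXTable2

set_option autoImplicit false
set_option maxHeartbeats 4000000

open Set Filter Topology

namespace Pool.Agent.H703R3.HX

/-- the outer unit normal at `ω ^ k * pt X y` -/
noncomputable def un (k : ℤ) (X y : ℝ) : ℂ := ((‖nn X y‖⁻¹ : ℝ) : ℂ) * (ω ^ k * nn X y)

theorem isOuterNormal_un {X y : ℝ} (h : Ar X y) (k : ℤ) :
    IsOuterNormal Om (ω ^ k * pt X y) (un k X y) := by
  have hn := norm_pos_iff.2 (nn_ne h)
  constructor
  · rw [un, norm_mul, norm_mul, nω, one_mul, Complex.norm_real, norm_inv, norm_norm]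
    exact inv_mul_cancel₀ hn.ne'
  · intro z hz
    rw [inner_eq, un, dt_smul_right]
    exact mul_nonpos_of_nonneg_of_nonpos (by positivity) (lemA_lt h k hz).le

theorem enter {X y : ℝ} (h : Ar X y) (k : ℤ) (d : ℂ) (hd : dt d (ω ^ k * nn X y) < 0) :
    ∃ e : ℝ, 0 < e ∧ ω ^ k * pt X y + e * d ∈ Om := by
  set d' := ω ^ (-k) * d with hd'
  have hdd : d = ω ^ k * d' := by
    rw [hd', ← mul_assoc, ← zpow_add₀ ω_ne, add_neg_cancel, zpow_zero, one_mul]
  rw [hdd, dt_rot] at hd
  set b := dt d' (nn X y) with hb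
  have hc : 0 ≤ 6 * d'.re ^ 2 + 4 * d'.im ^ 2 := by positivity
  refine ⟨-b / (6 * d'.re ^ 2 + 4 * d'.im ^ 2 + 1), div_pos (by linarith) (by linarith), k, ?_⟩
  set e := -b / (6 * d'.re ^ 2 + 4 * d'.im ^ 2 + 1) with he
  have hepos : 0 < e := div_pos (by linarith) (by linarith)
  have h1 : ω ^ (-k) * (ω ^ k * pt X y + e * d) = pt X y + e * d' := by
    have : ω ^ (-k) * ω ^ k = 1 := by
      rw [← zpow_add₀ ω_ne, neg_add_cancel, zpow_zero]
    rw [hd']
    linear_combination (pt X y) * this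
  rw [h1]
  have h2 : q (pt X y + e * d') = 4 * e * b + e ^ 2 * (6 * d'.re ^ 2 + 4 * d'.im ^ 2) := by
    obtain ⟨h0, _⟩ := h
    simp only [q, pt, hb, dt, nn, Complex.add_re, Complex.add_im, Complex.re_ofReal_mul,
      Complex.im_ofReal_mul]
    linear_combination h0
  rw [h2]
  have h3 : e * (6 * d'.re ^ 2 + 4 * d'.im ^ 2 + 1) = -b := by
    rw [he]; field_simp
  have h4 : e * (6 * d'.re ^ 2 + 4 * d'.im ^ 2) ≤ -b := by nlinarith
  nlinarith

theorem eq_un {X y : ℝ} (h : Ar X y) (k : ℤ) {n : ℂ} (hn : IsOuterNormal Om (ω ^ k * pt X y) n) :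
    n = un k X y := by
  set N := ω ^ k * nn X y with hN
  have hNpos : 0 < dt N N := by rw [hN, dt_rot]; exact dt_nn_pos h
  have key : ∀ d : ℂ, dt d N < 0 → dt d n ≤ 0 := by
    intro d hd
    obtain ⟨e, he, hm⟩ := enter h k d hd
    have := hn.2 _ hm
    rw [inner_eq] at this
    have e2 : ω ^ k * pt X y + e * d - ω ^ k * pt X y = e * d := by ring
    rw [e2, dt_smul_left] at this
    by_contra hc
    push Not at hc
    have := mul_pos he hc
    linarith
  have k2 : ∀ t : ℝ, -(dt N n) + t * dt (Complex.I * N) n ≤ 0 := by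
    intro t
    have h1 : dt (-N + t * (Complex.I * N)) N < 0 := by
      have : dt (-N + t * (Complex.I * N)) N = - dt N N := by
        simp [dt]; ring
      rw [this]; linarith
    have h2 := key _ h1
    have h3 : dt (-N + t * (Complex.I * N)) n = -(dt N n) + t * dt (Complex.I * N) n := by
      rw [dt_add_left, dt_smul_left]; simp [dt]; ring
    rw [h3] at h2; exact h2
  have h0 : 0 ≤ dt N n := by have := k2 0; linarith
  have h1 : dt (Complex.I * N) n = 0 := by
    by_contra hc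
    have := k2 ((dt N n + 1) / dt (Complex.I * N) n)
    rw [div_mul_cancel₀ _ hc] at this
    linarith
  have h2 : (dt N N : ℂ) * n = (dt N n : ℂ) * N := by
    have e1 : dt (Complex.I * N) n = N.re * n.im - N.im * n.re := by simp [dt]; ring
    rw [e1] at h1
    apply Complex.ext
    · simp only [dt, Complex.re_ofReal_mul]; linear_combination (-N.im) * h1
    · simp only [dt, Complex.im_ofReal_mul]; linear_combination (N.re) * h1
  have hNn : ‖N‖ = ‖nn X y‖ := by rw [hN, norm_mul, nω, one_mul]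
  have hnpos := norm_pos_iff.2 (nn_ne h)
  have h3 : dt N N = ‖N‖ ^ 2 := dt_self N
  have h4 : ‖N‖ ^ 2 * 1 = dt N n * ‖N‖ := by
    have := congrArg norm h2
    rw [norm_mul, norm_mul, hn.1, Complex.norm_real, Complex.norm_real, Real.norm_of_nonneg hNpos.le,
      Real.norm_of_nonneg h0, h3] at this
    exact this
  have h5 : dt N n = ‖N‖ := by
    have hpos : 0 < ‖N‖ := by rw [hNn]; exact hnpos
    nlinarith
  rw [h5, h3] at h2
  rw [un, ← hN, ← hNn]
  have hpos : (‖N‖ : ℂ) ≠ 0 := by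
    have : 0 < ‖N‖ := by rw [hNn]; exact hnpos
    exact_mod_cast this.ne'
  push_cast at h2 ⊢
  field_simp
  apply mul_left_cancel₀ hpos
  linear_combination h2

theorem isTable_Om : IsTable Om where
  isOpen := isOpen_Om
  nonempty := ⟨1 / 2, 0, by simp [q]⟩
  bounded := bounded_Om
  convex := convex_Om
  strictConvex := by rw [closure_Om]; exact strictConvex_Kc
  normal := by
    intro P hP
    obtain ⟨k, X, y, h, rfl⟩ := frontier_Om hP
    exact ⟨un k X y, isOuterNormal_un h k, fun n hn => eq_un h k hn⟩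

/-- The boundary of the table is not a circle. -/
theorem not_circle : ¬ ∃ (z : ℂ) (r : ℝ), frontier Om = Metric.sphere z r := by
  rintro ⟨z, r, he⟩
  have hr : ∀ P ∈ frontier Om, ‖P - z‖ = r := by
    intro P hP; rw [he] at hP; exact mem_sphere_iff_norm.1 hP
  have hT : Ar 1 (√3 / 2) := ⟨by nlinarith [s3], le_refl 1⟩
  obtain ⟨s, hs, hs1⟩ : ∃ s : ℝ, s * s = 3 / 2 ∧ 1 ≤ s :=
    ⟨√(3 / 2), Real.mul_self_sqrt (by norm_num), by
      rw [show (1 : ℝ) = √1 by simp]; exact Real.sqrt_le_sqrt (by norm_num)⟩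
  have hV : Ar s 0 := ⟨by nlinarith, hs1⟩
  have f : ∀ (k : ℤ) (X y : ℝ), Ar X y → dt (ω ^ k * pt X y - z) (ω ^ k * pt X y - z) = r ^ 2 := by
    intro k X y h
    rw [dt_self, hr _ (pt_mem_frontier h k)]
  have f1 := f 0 _ _ hT
  have f2 := f 0 _ _ hT.neg
  have f3 := f 3 _ _ hT
  have f4 := f 0 _ _ hV
  have f5 := f 3 _ _ hV
  have h3 : ω ^ (3 : ℤ) = -1 := by rw [← ω_cube]; norm_cast
  rw [h3] at f3 f5
  simp [dt, pt] at f1 f2 f3 f4 f5
  have hz2 : z.im = 0 := by nlinarith [s3pos]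
  rw [hz2] at f1 f2 f3 f4 f5
  have hz1 : z.re = 0 := by nlinarith
  rw [hz1] at f1 f2 f3 f4 f5
  have g1 : r ^ 2 = 3 := by rw [← f1]; nlinarith [s3]
  have g2 : s = 5 / 4 := by nlinarith
  rw [g2] at hs
  norm_num at hs

end Pool.Agent.H703R3.HX
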