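import Pool.Agent.H703R3.HXBasic

set_option autoImplicit false
set_option maxHeartbeats 4000000

open Set Filter Topology

namespace Pool.Agent.H703R3.HX

/-- quadratic function of the elliptic disc with foci `ω` and `ω⁻¹`, string length `3` -/
noncomputable def q (z : ℂ) : ℝ := 6 * (z.re - 1 / 2) ^ 2 + 4 * z.im ^ 2 - 9

/-- the table -/
def Om : Set ℂ := {z | ∃ k : ℤ, q (ω ^ (-k) * z) < 0}
/-- its closure -/
def Kc : Set ℂ := {z | ∃ k : ℤ, q (ω ^ (-k) * z) ≤ 0}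

/-- points of the elliptic arc, in the frame of the sector -/
noncomputable def pt (X y : ℝ) : ℂ := ⟨1 / 2 + X, y⟩
/-- normal vector -/
def nn (X y : ℝ) : ℂ := ⟨3 * X, 2 * y⟩

/-- parameters of the arc -/
def Ar (X y : ℝ) : Prop := 6 * X ^ 2 + 4 * y ^ 2 = 9 ∧ 1 ≤ X

theorem Ar.bd {X y : ℝ} (h : Ar X y) : y ^ 2 ≤ 3 / 4 := by
  obtain ⟨h1, h2⟩ := h; nlinarith

theorem Ar.le {X y : ℝ} (h : Ar X y) : y ≤ √3 / 2 := by
  have := h.bd
  nlinarith [s3, s3pos, sq_nonneg (y - √3 / 2), sq_nonneg (y + √3 / 2)]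

theorem Ar.neg {X y : ℝ} (h : Ar X y) : Ar X (-y) := ⟨by rw [neg_sq]; exact h.1, h.2⟩

theorem Ar.ge {X y : ℝ} (h : Ar X y) : -(√3 / 2) ≤ y := by
  have := h.neg.le; linarith

theorem Ar.Xle {X y : ℝ} (h : Ar X y) : X < 3 / 2 := by
  obtain ⟨h1, h2⟩ := h; nlinarith [sq_nonneg y]

/-- Cauchy bound on the ellipse -/
theorem cau (p r a b M : ℝ) (hab : 6 * a ^ 2 + 4 * b ^ 2 ≤ 9) (hM : 0 ≤ M)
    (h : 3 / 2 * p ^ 2 + 9 / 4 * r ^ 2 < M ^ 2) : p * a + r * b < M := by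
  have h1 : (p * a + r * b) ^ 2 ≤ 3 / 2 * p ^ 2 + 9 / 4 * r ^ 2 := by
    have : (p * a + r * b) ^ 2 ≤ (p ^ 2 / 6 + r ^ 2 / 4) * (6 * a ^ 2 + 4 * b ^ 2) := by
      nlinarith [sq_nonneg (2 * p * b - 3 * r * a)]
    have h2 : (p ^ 2 / 6 + r ^ 2 / 4) * (6 * a ^ 2 + 4 * b ^ 2) ≤ (p ^ 2 / 6 + r ^ 2 / 4) * 9 :=
      mul_le_mul_of_nonneg_left hab (by positivity)
    linarith
  by_contra hc
  push Not at hc
  nlinarith

/-- the case of a frame in which the normal has first coordinate `p` -/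
theorem frame_lt {X y p r : ℝ} (h : Ar X y) (hpr : p ^ 2 + r ^ 2 = 9 * X ^ 2 + 4 * y ^ 2)
    (hp : p < 9 / 2 - 3 / 2 * X) (w : ℂ) (hw : q w ≤ 0) :
    p * w.re + r * w.im < 3 / 2 * X + 9 / 2 := by
  obtain ⟨h1, h2⟩ := h
  unfold q at hw
  have h3 : p < 3 * X := by linarith
  have h4 : 0 < (3 * X - p) * (9 / 2 - 3 / 2 * X - p) := mul_pos (by linarith) (by linarith)
  have := cau p r (w.re - 1 / 2) w.im (3 / 2 * X + 9 / 2 - p / 2) (by linarith) (by linarith) (by nlinarith)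
  linarith

/-- the tip -/
theorem tip_le (w : ℂ) (hw : q w ≤ 0) (e : ℝ) (he : e * e = 3) :
    3 * w.re + e * w.im ≤ 6 ∧ (3 * w.re + e * w.im = 6 → w.re = 3 / 2 ∧ w.im = e / 2) := by
  unfold q at hw
  have h1 : 6 * (w.re - 1 / 2 - 1) ^ 2 + 4 * (w.im - e / 2) ^ 2 ≤
      4 * (6 - (3 * w.re + e * w.im)) := by nlinarith
  refine ⟨by nlinarith [sq_nonneg (w.re - 1 / 2 - 1), sq_nonneg (w.im - e / 2)], fun h => ?_⟩
  rw [h] at h1
  have h2 : (w.re - 1 / 2 - 1) ^ 2 ≤ 0 := by nlinarith [sq_nonneg (w.im - e / 2)]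
  have h3 : (w.im - e / 2) ^ 2 ≤ 0 := by nlinarith [sq_nonneg (w.re - 1 / 2 - 1)]
  have h4 : w.re - 1 / 2 - 1 = 0 := by
    have := le_antisymm h2 (sq_nonneg _); simpa using this
  have h5 : w.im - e / 2 = 0 := by
    have := le_antisymm h3 (sq_nonneg _); simpa using this
  constructor <;> linarith

theorem own_le {X y : ℝ} (h : Ar X y) (w : ℂ) (hw : q w ≤ 0) :
    3 * X * w.re + 2 * y * w.im ≤ 3 / 2 * X + 9 / 2 ∧
    (3 * X * w.re + 2 * y * w.im = 3 / 2 * X + 9 / 2 → w.re = 1 / 2 + X ∧ w.im = y) := by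
  obtain ⟨h0, _⟩ := h
  unfold q at hw
  have h1 : 6 * (w.re - 1 / 2 - X) ^ 2 + 4 * (w.im - y) ^ 2 ≤
      4 * (3 / 2 * X + 9 / 2 - (3 * X * w.re + 2 * y * w.im)) := by nlinarith
  refine ⟨by nlinarith [sq_nonneg (w.re - 1 / 2 - X), sq_nonneg (w.im - y)], fun h => ?_⟩
  rw [h] at h1
  have h2 : (w.re - 1 / 2 - X) ^ 2 ≤ 0 := by nlinarith [sq_nonneg (w.im - y)]
  have h3 : (w.im - y) ^ 2 ≤ 0 := by nlinarith [sq_nonneg (w.re - 1 / 2 - X)]
  have h4 : w.re - 1 / 2 - X = 0 := by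
    have := le_antisymm h2 (sq_nonneg _); simpa using this
  have h5 : w.im - y = 0 := by
    have := le_antisymm h3 (sq_nonneg _); simpa using this
  constructor <;> linarith

/-- Lemma A in the frame of the arc: `dt (ω^j w) n ≤ dt P n`. -/
theorem lemA0 {X y : ℝ} (h : Ar X y) (j : ℤ) (w : ℂ) (hw : q w ≤ 0) :
    dt (ω ^ j * w) (nn X y) ≤ 3 / 2 * X + 9 / 2 ∧
    (dt (ω ^ j * w) (nn X y) = 3 / 2 * X + 9 / 2 → ω ^ j * w = pt X y) := by
  have hb := h.bd
  have hle := h.le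
  have hge := h.ge
  have hX := h.Xle
  obtain ⟨h1, h2⟩ := h
  have h : Ar X y := ⟨h1, h2⟩
  have t3 := s3
  have t3' := s3pos
  rcases zpow_cases j with hj | hj | hj | hj | hj | hj <;> rw [hj]
  · have := own_le h w hw
    have he : dt (1 * w) (nn X y) = 3 * X * w.re + 2 * y * w.im := by simp [dt, nn]; ring
    rw [he]
    refine ⟨this.1, fun hh => ?_⟩
    obtain ⟨ha, hb⟩ := this.2 hh
    rw [one_mul]; exact Complex.ext ha hb
  · have he : dt (ω * w) (nn X y) = (3 / 2 * X + √3 * y) * w.re + (y - 3 / 2 * √3 * X) * w.im := by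
      simp [dt, nn]; ring
    rw [he]
    rcases lt_or_ge (3 / 2 * X + √3 * y) (9 / 2 - 3 / 2 * X) with hp | hp
    · have := frame_lt (p := 3 / 2 * X + √3 * y) (r := y - 3 / 2 * √3 * X) h (by nlinarith) hp w hw
      exact ⟨this.le, fun hh => absurd hh this.ne⟩
    · have hX1 : (X - 1) ^ 2 ≤ 0 := by nlinarith [sq_nonneg (2 * y - √3)]
      have hy1 : (2 * y - √3) ^ 2 ≤ 0 := by nlinarith [sq_nonneg (X - 1)]
      have hX2 : X = 1 := by
        have := le_antisymm hX1 (sq_nonneg _)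
        have : X - 1 = 0 := by simpa using this
        linarith
      have hy2 : y = √3 / 2 := by
        have := le_antisymm hy1 (sq_nonneg _)
        have : 2 * y - √3 = 0 := by simpa using this
        linarith
      subst hX2
      subst hy2
      have ht := tip_le w hw (-√3) (by nlinarith)
      have he2 : (3 / 2 * 1 + √3 * (√3 / 2)) * w.re + (√3 / 2 - 3 / 2 * √3 * 1) * w.im
          = 3 * w.re + (-√3) * w.im := by linear_combination (w.re / 2) * s3
      rw [he2]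
      refine ⟨by linarith [ht.1], fun hh => ?_⟩
      obtain ⟨ha, hb⟩ := ht.2 (by linarith)
      apply Complex.ext
      · simp [pt, ha, hb]; linear_combination (1 / 4) * s3
      · simp [pt, ha, hb]; ring
  · have he : dt ((⟨-1 / 2, √3 / 2⟩ : ℂ) * w) (nn X y) =
        (-3 / 2 * X + √3 * y) * w.re + (-y - 3 / 2 * √3 * X) * w.im := by
      simp [dt, nn]; ring
    rw [he]
    have := frame_lt (p := -3 / 2 * X + √3 * y) (r := -y - 3 / 2 * √3 * X) h (by nlinarith)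
      (by nlinarith) w hw
    exact ⟨this.le, fun hh => absurd hh this.ne⟩
  · have he : dt (-1 * w) (nn X y) = (-3 * X) * w.re + (-2 * y) * w.im := by
      simp [dt, nn]; ring
    rw [he]
    have := frame_lt (p := -3 * X) (r := -2 * y) h (by nlinarith) (by linarith) w hw
    exact ⟨this.le, fun hh => absurd hh this.ne⟩
  · have he : dt ((⟨-1 / 2, -√3 / 2⟩ : ℂ) * w) (nn X y) =
        (-3 / 2 * X - √3 * y) * w.re + (-y + 3 / 2 * √3 * X) * w.im := by
      simp [dt, nn]; ring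
    rw [he]
    have := frame_lt (p := -3 / 2 * X - √3 * y) (r := -y + 3 / 2 * √3 * X) h (by nlinarith)
      (by nlinarith) w hw
    exact ⟨this.le, fun hh => absurd hh this.ne⟩
  · have he : dt ((⟨1 / 2, -√3 / 2⟩ : ℂ) * w) (nn X y) =
        (3 / 2 * X - √3 * y) * w.re + (y + 3 / 2 * √3 * X) * w.im := by
      simp [dt, nn]; ring
    rw [he]
    rcases lt_or_ge (3 / 2 * X - √3 * y) (9 / 2 - 3 / 2 * X) with hp | hp
    · have := frame_lt (p := 3 / 2 * X - √3 * y) (r := y + 3 / 2 * √3 * X) h (by nlinarith) hp w hw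
      exact ⟨this.le, fun hh => absurd hh this.ne⟩
    · have hX1 : (X - 1) ^ 2 ≤ 0 := by nlinarith [sq_nonneg (2 * y + √3)]
      have hy1 : (2 * y + √3) ^ 2 ≤ 0 := by nlinarith [sq_nonneg (X - 1)]
      have hX2 : X = 1 := by
        have := le_antisymm hX1 (sq_nonneg _)
        have : X - 1 = 0 := by simpa using this
        linarith
      have hy2 : y = -(√3 / 2) := by
        have := le_antisymm hy1 (sq_nonneg _)
        have : 2 * y + √3 = 0 := by simpa using this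
        linarith
      subst hX2
      subst hy2
      have ht := tip_le w hw (√3) (by nlinarith)
      have he2 : (3 / 2 * 1 - √3 * -(√3 / 2)) * w.re + (-(√3 / 2) + 3 / 2 * √3 * 1) * w.im
          = 3 * w.re + (√3) * w.im := by linear_combination (w.re / 2) * s3
      rw [he2]
      refine ⟨by linarith [ht.1], fun hh => ?_⟩
      obtain ⟨ha, hb⟩ := ht.2 (by linarith)
      apply Complex.ext
      · simp [pt, ha, hb]; linear_combination (1 / 4) * s3
      · simp [pt, ha, hb]; ring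

theorem dt_pt_nn {X y : ℝ} (h : Ar X y) : dt (pt X y) (nn X y) = 3 / 2 * X + 9 / 2 := by
  obtain ⟨h1, _⟩ := h
  simp [dt, pt, nn]; nlinarith

/-- Lemma A. -/
theorem lemA {X y : ℝ} (h : Ar X y) (k : ℤ) {z : ℂ} (hz : z ∈ Kc) :
    dt (z - ω ^ k * pt X y) (ω ^ k * nn X y) ≤ 0 ∧
    (dt (z - ω ^ k * pt X y) (ω ^ k * nn X y) = 0 → z = ω ^ k * pt X y) := by
  obtain ⟨m, hm⟩ := hz
  have h1 := lemA0 h (m - k) _ hm
  have hz : ω ^ (m - k) * (ω ^ (-m) * z) = ω ^ (-k) * z := by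
    rw [← mul_assoc, ← zpow_add₀ ω_ne]; congr 2; ring
  rw [hz] at h1
  have hz2 : z = ω ^ k * (ω ^ (-k) * z) := by
    rw [← mul_assoc, ← zpow_add₀ ω_ne, add_neg_cancel, zpow_zero, one_mul]
  have h2 : dt (z - ω ^ k * pt X y) (ω ^ k * nn X y) =
      dt (ω ^ (-k) * z) (nn X y) - (3 / 2 * X + 9 / 2) := by
    rw [dt_sub_left, dt_rot, dt_pt_nn h]
    conv_lhs => rw [hz2]
    rw [dt_rot]
  rw [h2]
  refine ⟨by linarith [h1.1], fun hh => ?_⟩
  rw [hz2, h1.2 (by linarith)]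

end Pool.Agent.H703R3.HX
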