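import Pool.Agent.H703R3.HXTable

set_option autoImplicit false
set_option maxHeartbeats 4000000

open Set Filter Topology

namespace Pool.Agent.H703R3.HX

/-- choice of the sector -/
theorem exists_sector (w : ℂ) : ∃ k : ℤ, ∀ j : ℤ, (ω ^ (-j) * w).re ≤ (ω ^ (-k) * w).re := by
  obtain ⟨k, _, hk⟩ := Finset.exists_max_image (Finset.Ico (0 : ℤ) 6)
    (fun k => (ω ^ (-k) * w).re) ⟨0, by simp⟩
  refine ⟨k, fun j => ?_⟩
  have h0 : 0 ≤ j % 6 := Int.emod_nonneg _ (by norm_num)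
  have h1 : j % 6 < 6 := Int.emod_lt_of_pos _ (by norm_num)
  have := hk (j % 6) (by simp [h0, h1])
  have h2 : ω ^ (-j) = ω ^ (-(j % 6)) := by
    rw [zpow_neg, zpow_neg, ← zpow_mod]
  rw [h2]; exact this

theorem ω_inv : ω ^ (-1 : ℤ) = ⟨1 / 2, -√3 / 2⟩ := by
  rw [zpow_neg, zpow_one]
  apply inv_eq_of_mul_eq_one_right
  apply Complex.ext
  · simp; nlinarith [s3]
  · simp; ring

theorem sector_ineq {w : ℂ} (h : ∀ j : ℤ, (ω ^ j * w).re ≤ w.re) :
    √3 * w.im ≤ w.re ∧ -(√3 * w.im) ≤ w.re := by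
  have h1 := h 1
  have h2 := h (-1)
  rw [ω_inv] at h2
  simp at h1 h2
  constructor <;> linarith

/-- scaling down to the arc -/
theorem exists_scale {w : ℂ} (h1 : √3 * w.im ≤ w.re) (h2 : -(√3 * w.im) ≤ w.re) (hq : 0 ≤ q w) :
    ∃ l X y : ℝ, 0 < l ∧ l ≤ 1 ∧ Ar X y ∧ (l : ℂ) * w = pt X y := by
  have hc : ContinuousOn (fun l : ℝ => q (l * w)) (Icc 0 1) := by
    apply Continuous.continuousOn
    unfold q
    simp
    fun_prop
  have h0 : q (((0 : ℝ) : ℂ) * w) ≤ 0 := by unfold q; norm_num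
  have h3 : 0 ≤ q (((1 : ℝ) : ℂ) * w) := by simpa using hq
  obtain ⟨l, hl, hl0⟩ := intermediate_value_Icc (by norm_num : (0 : ℝ) ≤ 1) hc ⟨h0, h3⟩
  have hlpos : 0 < l := by
    rcases eq_or_lt_of_le hl.1 with h | h
    · rw [← h] at hl0
      exfalso
      revert hl0
      unfold q; norm_num
    · exact h
  refine ⟨l, l * w.re - 1 / 2, l * w.im, hlpos, hl.2, ?_, ?_⟩
  · have e : 6 * (l * w.re - 1 / 2) ^ 2 + 4 * (l * w.im) ^ 2 = 9 := by
      have : q (l * w) = 0 := hl0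
      unfold q at this
      simp at this
      linarith
    refine ⟨e, ?_⟩
    have g1 : √3 * (l * w.im) ≤ l * w.re := by
      have := mul_le_mul_of_nonneg_left h1 hlpos.le; linarith
    have g2 : -(√3 * (l * w.im)) ≤ l * w.re := by
      have := mul_le_mul_of_nonneg_left h2 hlpos.le; linarith
    generalize l * w.re = x at *
    generalize l * w.im = y at *
    have hx : 0 ≤ x := by linarith
    have hy : 3 * y ^ 2 ≤ x ^ 2 := by
      have := mul_nonneg (sub_nonneg.2 g1) (by linarith : 0 ≤ x + √3 * y)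
      nlinarith [s3]
    by_contra hc
    push Not at hc
    have : (x - 3 / 2) * (22 / 3 * x + 5) < 0 := mul_neg_of_neg_of_pos (by linarith) (by linarith)
    nlinarith
  · apply Complex.ext <;> simp [pt]

/-- Lemma B. -/
theorem lemB {w : ℂ} (hw : w ∉ Om) :
    ∃ (k : ℤ) (X y : ℝ), Ar X y ∧ 0 ≤ dt (w - ω ^ k * pt X y) (ω ^ k * nn X y) := by
  obtain ⟨k, hk⟩ := exists_sector w
  have hk' : ∀ j : ℤ, (ω ^ j * (ω ^ (-k) * w)).re ≤ (ω ^ (-k) * w).re := by
    intro j
    have := hk (k - j)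
    rw [← mul_assoc, ← zpow_add₀ ω_ne]
    have e : j + -k = -(k - j) := by ring
    rw [e]; exact this
  obtain ⟨h1, h2⟩ := sector_ineq hk'
  have hq : 0 ≤ q (ω ^ (-k) * w) := by
    by_contra hc
    exact hw ⟨k, not_le.1 hc⟩
  obtain ⟨l, X, y, hl0, hl1, hA, he⟩ := exists_scale h1 h2 hq
  refine ⟨k, X, y, hA, ?_⟩
  have hz2 : w = ω ^ k * (ω ^ (-k) * w) := by
    rw [← mul_assoc, ← zpow_add₀ ω_ne, add_neg_cancel, zpow_zero, one_mul]
  have e1 : dt w (ω ^ k * nn X y) = dt (ω ^ (-k) * w) (nn X y) := by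
    conv_lhs => rw [hz2]
    rw [dt_rot]
  have e2 : l * dt (ω ^ (-k) * w) (nn X y) = 3 / 2 * X + 9 / 2 := by
    rw [← dt_smul_left, he, dt_pt_nn hA]
  rw [dt_sub_left, dt_rot, dt_pt_nn hA, e1, ← e2]
  have hpos : 0 < dt (ω ^ (-k) * w) (nn X y) := by
    by_contra hc
    push Not at hc
    have := hA.2
    nlinarith
  nlinarith

theorem isOpen_Om : IsOpen Om := by
  have : Om = ⋃ k : ℤ, {z | q (ω ^ (-k) * z) < 0} := by
    ext z; simp [Om]
  rw [this]
  apply isOpen_iUnion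
  intro k
  apply isOpen_lt _ continuous_const
  unfold q
  fun_prop

theorem Om_subset_Kc : Om ⊆ Kc := fun _ ⟨k, hk⟩ => ⟨k, hk.le⟩

theorem nn_ne {X y : ℝ} (h : Ar X y) : nn X y ≠ 0 := by
  intro hh
  have := congrArg Complex.re hh
  simp [nn] at this
  have := h.2
  linarith

theorem dt_nn_pos {X y : ℝ} (h : Ar X y) : 0 < dt (nn X y) (nn X y) := by
  rw [dt_self]
  have := norm_pos_iff.2 (nn_ne h)
  positivity

theorem isClosed_Kc : IsClosed Kc := by
  have : Kc = ⋃ k ∈ (Finset.Ico (0 : ℤ) 6 : Finset ℤ), {z | q (ω ^ (-k) * z) ≤ 0} := by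
    ext z
    simp only [Kc, mem_iUnion, Finset.mem_Ico, exists_prop]
    constructor
    · rintro ⟨k, hk⟩
      refine ⟨k % 6, ⟨Int.emod_nonneg _ (by norm_num), Int.emod_lt_of_pos _ (by norm_num)⟩, ?_⟩
      have h2 : ω ^ (-k) = ω ^ (-(k % 6)) := by
        rw [zpow_neg, zpow_neg, ← zpow_mod]
      have hk' : q (ω ^ (-k) * z) ≤ 0 := hk
      rw [h2] at hk'
      exact hk'
    · rintro ⟨k, _, hk⟩
      exact ⟨k, hk⟩
  rw [this]
  apply isClosed_biUnion_finset
  intro k _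
  apply isClosed_le _ continuous_const
  unfold q
  fun_prop

/-- strict inequality in the open table -/
theorem lemA_lt {X y : ℝ} (h : Ar X y) (k : ℤ) {z : ℂ} (hz : z ∈ Om) :
    dt (z - ω ^ k * pt X y) (ω ^ k * nn X y) < 0 := by
  have hn : 0 < dt (ω ^ k * nn X y) (ω ^ k * nn X y) := by rw [dt_rot]; exact dt_nn_pos h
  have hcont : Tendsto (fun t : ℝ => z + t * (ω ^ k * nn X y)) (𝓝[>] 0) (𝓝 z) := by
    have : Continuous fun t : ℝ => z + t * (ω ^ k * nn X y) := by fun_prop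
    have h2 := this.tendsto 0
    simp only [Complex.ofReal_zero, zero_mul, add_zero] at h2
    exact h2.mono_left nhdsWithin_le_nhds
  have hev := hcont.eventually (isOpen_Om.mem_nhds hz)
  obtain ⟨t, ht, htpos⟩ := (hev.and self_mem_nhdsWithin).exists
  have h1 := (lemA h k (Om_subset_Kc ht)).1
  have h2 : z + t * (ω ^ k * nn X y) - ω ^ k * pt X y = (z - ω ^ k * pt X y) + t * (ω ^ k * nn X y) := by
    ring
  rw [h2, dt_add_left, dt_smul_left] at h1
  have : 0 < t * dt (ω ^ k * nn X y) (ω ^ k * nn X y) := mul_pos htpos hn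
  linarith

theorem mem_Om_iff {z : ℂ} : z ∈ Om ↔ ∀ (k : ℤ) (X y : ℝ), Ar X y →
    dt (z - ω ^ k * pt X y) (ω ^ k * nn X y) < 0 := by
  constructor
  · intro hz k X y h; exact lemA_lt h k hz
  · intro h
    by_contra hc
    obtain ⟨k, X, y, hA, hh⟩ := lemB hc
    exact absurd (h k X y hA) (not_lt.2 hh)

theorem convex_Om : Convex ℝ Om := by
  intro x hx y hy a b ha hb hab
  rw [mem_Om_iff] at *
  intro k X Y h
  have e : a • x + b • y - ω ^ k * pt X Y = a * (x - ω ^ k * pt X Y) + b * (y - ω ^ k * pt X Y) := by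
    have : (a : ℂ) + b = 1 := by exact_mod_cast hab
    simp only [Complex.real_smul]
    linear_combination (ω ^ k * pt X Y) * this
  rw [e, dt_add_left, dt_smul_left, dt_smul_left]
  have h1 := hx k X Y h
  have h2 := hy k X Y h
  rcases eq_or_lt_of_le ha with h0 | h0
  · have : b = 1 := by linarith
    rw [← h0, this]; linarith
  · have : a * dt (x - ω ^ k * pt X Y) (ω ^ k * nn X Y) < 0 := mul_neg_of_pos_of_neg h0 h1
    have : b * dt (y - ω ^ k * pt X Y) (ω ^ k * nn X Y) ≤ 0 := mul_nonpos_of_nonneg_of_nonpos hb h2.le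
    linarith

theorem closure_Om : closure Om = Kc := by
  apply subset_antisymm
  · exact closure_minimal Om_subset_Kc isClosed_Kc
  · rintro z ⟨k, hk⟩
    have hcont : Tendsto (fun t : ℝ => (1 - t) * z + t * (ω ^ k * (1 / 2 : ℂ))) (𝓝[>] 0) (𝓝 z) := by
      have : Continuous fun t : ℝ => (1 - t) * z + t * (ω ^ k * (1 / 2 : ℂ)) := by fun_prop
      have h2 := this.tendsto 0
      simp only [Complex.ofReal_zero, zero_mul, add_zero, sub_zero, one_mul] at h2
      exact h2.mono_left nhdsWithin_le_nhds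
    apply mem_closure_of_tendsto hcont
    have hmem : Ioo (0 : ℝ) 1 ∈ 𝓝[>] (0 : ℝ) := Ioo_mem_nhdsGT (by norm_num)
    filter_upwards [hmem] with t ht
    refine ⟨k, ?_⟩
    have e : ω ^ (-k) * ((1 - t) * z + t * (ω ^ k * (1 / 2 : ℂ))) =
        (1 - t) * (ω ^ (-k) * z) + t * (1 / 2) := by
      have : ω ^ (-k) * ω ^ k = 1 := by
        rw [← zpow_add₀ ω_ne, neg_add_cancel, zpow_zero]
      linear_combination (t / 2 : ℂ) * this
    rw [e]
    have hk' : q (ω ^ (-k) * z) ≤ 0 := hk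
    generalize ω ^ (-k) * z = w at *
    have e2 : q ((1 - t) * w + t * (1 / 2)) = (1 - t) ^ 2 * (q w + 9) - 9 := by
      unfold q
      simp
      ring
    rw [e2]
    have h1 : (1 - t) ^ 2 < 1 := by nlinarith [ht.1, ht.2]
    nlinarith [sq_nonneg (1 - t)]

theorem strictConvex_Kc : StrictConvex ℝ Kc := by
  intro x hx y hy hne a b ha hb hab
  have : Om ⊆ interior Kc := interior_maximal Om_subset_Kc isOpen_Om
  apply this
  by_contra hc
  obtain ⟨k, X, Y, hA, hh⟩ := lemB hc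
  have e : a • x + b • y - ω ^ k * pt X Y = a * (x - ω ^ k * pt X Y) + b * (y - ω ^ k * pt X Y) := by
    have : (a : ℂ) + b = 1 := by exact_mod_cast hab
    simp only [Complex.real_smul]
    linear_combination (ω ^ k * pt X Y) * this
  rw [e, dt_add_left, dt_smul_left, dt_smul_left] at hh
  have h1 := lemA hA k hx
  have h2 := lemA hA k hy
  have h3 : a * dt (x - ω ^ k * pt X Y) (ω ^ k * nn X Y) ≤ 0 := mul_nonpos_of_nonneg_of_nonpos ha.le h1.1
  have h4 : b * dt (y - ω ^ k * pt X Y) (ω ^ k * nn X Y) ≤ 0 := mul_nonpos_of_nonneg_of_nonpos hb.le h2.1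
  have h5 : a * dt (x - ω ^ k * pt X Y) (ω ^ k * nn X Y) = 0 := by linarith
  have h6 : b * dt (y - ω ^ k * pt X Y) (ω ^ k * nn X Y) = 0 := by linarith
  have h7 := h1.2 ((mul_eq_zero.1 h5).resolve_left ha.ne')
  have h8 := h2.2 ((mul_eq_zero.1 h6).resolve_left hb.ne')
  exact hne (h7.trans h8.symm)

/-- Frontier points are points of the arcs. -/
theorem frontier_Om {P : ℂ} (hP : P ∈ frontier Om) :
    ∃ (k : ℤ) (X y : ℝ), Ar X y ∧ P = ω ^ k * pt X y := by
  rw [frontier, closure_Om, isOpen_Om.interior_eq] at hP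
  obtain ⟨k, X, y, hA, hh⟩ := lemB hP.2
  have := lemA hA k hP.1
  exact ⟨k, X, y, hA, this.2 (le_antisymm this.1 hh)⟩

theorem pt_mem_frontier {X y : ℝ} (h : Ar X y) (k : ℤ) : ω ^ k * pt X y ∈ frontier Om := by
  rw [frontier, closure_Om, isOpen_Om.interior_eq]
  constructor
  · refine ⟨k, ?_⟩
    have : ω ^ (-k) * (ω ^ k * pt X y) = pt X y := by
      rw [← mul_assoc, ← zpow_add₀ ω_ne, neg_add_cancel, zpow_zero, one_mul]
    rw [this]
    obtain ⟨h1, _⟩ := h
    simp [q, pt]; linarith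
  · intro hc
    have := lemA_lt h k hc
    simp [dt] at this

theorem bounded_Om : Bornology.IsBounded Om := by
  rw [Metric.isBounded_iff_subset_closedBall 0]
  refine ⟨5, ?_⟩
  rintro z ⟨k, hk⟩
  rw [mem_closedBall_zero_iff]
  have h1 : ‖z‖ = ‖ω ^ (-k) * z‖ := by rw [norm_mul, nω, one_mul]
  rw [h1]
  generalize ω ^ (-k) * z = w at *
  unfold q at hk
  have h2 : ‖w‖ ^ 2 ≤ 25 := by
    rw [← dt_self]; simp only [dt]
    nlinarith [sq_nonneg w.im, sq_nonneg (w.re - 1 / 2), sq_nonneg (w.re + 1)]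
  nlinarith [norm_nonneg w]

end Pool.Agent.H703R3.HX
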