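import Pool.Agent.H703R3.HXBody

set_option autoImplicit false
set_option maxHeartbeats 4000000

open Set Filter Topology

namespace Pool.Agent.H703R3.HX

def cr (a b : ℂ) : ℝ := a.re * b.im - a.im * b.re

theorem cr_smul_left (t : ℝ) (b c : ℂ) : cr (t * b) c = t * cr b c := by simp [cr]; ring

theorem pA (X y : ℝ) : ω - pt X y = ⟨-X, √3 / 2 - y⟩ := by
  apply Complex.ext <;> simp [pt]
theorem pB (X y : ℝ) : ω ^ (-1 : ℤ) - pt X y = ⟨-X, -√3 / 2 - y⟩ := by
  rw [ω_inv]; apply Complex.ext <;> simp [pt]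

/-- coefficients of the normal of the line through `P` and `ω` -/
theorem crA (X y : ℝ) (z : ℂ) : cr (z - pt X y) (ω - pt X y) =
    (1 - 2 / 3 * √3 * y) * (√3 / 2 * z.re + z.im / 2 - √3 / 2) +
      (X - 1 / 2 + √3 / 3 * y) * (z.im - √3 / 2) := by
  rw [pA]; simp [cr, pt]; linear_combination (z.re * y / 3 - y / 6) * s3
theorem crB (X y : ℝ) (z : ℂ) : -cr (z - pt X y) (ω ^ (-1 : ℤ) - pt X y) =
    (1 + 2 / 3 * √3 * y) * (√3 / 2 * z.re - z.im / 2 - √3 / 2) +
      (X - 1 / 2 - √3 / 3 * y) * (-z.im - √3 / 2) := by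
  rw [pB]; simp [cr, pt]; linear_combination (-(z.re * y / 3 - y / 6)) * s3

variable {X y : ℝ}

theorem cf1 (h : Ar X y) : 0 ≤ 1 - 2 / 3 * √3 * y := by nlinarith [h.le, s3, s3pos]
theorem cf2 (h : Ar X y) : 0 ≤ 1 + 2 / 3 * √3 * y := by nlinarith [h.ge, s3, s3pos]
theorem cf3 (h : Ar X y) : 0 ≤ X - 1 / 2 + √3 / 3 * y := by nlinarith [h.ge, s3, s3pos, h.2]
theorem cf4 (h : Ar X y) : 0 ≤ X - 1 / 2 - √3 / 3 * y := by nlinarith [h.le, s3, s3pos, h.2]

theorem crA_nonpos (h : Ar X y) {z : ℂ} (hz : z ∈ Cx) : cr (z - pt X y) (ω - pt X y) ≤ 0 := by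
  have h1 := hz 0
  have h2 := hz 1
  rw [m0] at h1
  rw [m1] at h2
  rw [crA]
  have a1 := mul_nonneg (cf1 h) (sub_nonneg.2 h1)
  have a2 := mul_nonneg (cf3 h) (sub_nonneg.2 h2)
  nlinarith

theorem crB_nonneg (h : Ar X y) {z : ℂ} (hz : z ∈ Cx) :
    0 ≤ cr (z - pt X y) (ω ^ (-1 : ℤ) - pt X y) := by
  have h1 := hz (-1)
  have h2 := hz (-2)
  rw [m5] at h1
  rw [m4] at h2
  have h3 := crB X y z
  have a1 := mul_nonneg (cf2 h) (sub_nonneg.2 h1)
  have a2 := mul_nonneg (cf4 h) (sub_nonneg.2 h2)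
  nlinarith

theorem crA_neg (h : Ar X y) {z : ℂ} (hz : z ∈ Co) : cr (z - pt X y) (ω - pt X y) < 0 := by
  have h1 := hz 0
  have h2 := hz 1
  rw [m0] at h1
  rw [m1] at h2
  rw [crA]
  rcases (cf1 h).eq_or_lt with h0 | h0
  · have : 0 < X - 1 / 2 + √3 / 3 * y := by
      have e : √3 * y = 3 / 2 := by linarith
      have := h.2; linarith
    rw [← h0]
    nlinarith [mul_pos this (sub_pos.2 h2)]
  · have a1 := mul_pos h0 (sub_pos.2 h1)
    have a2 := mul_nonneg (cf3 h) (sub_nonneg.2 h2.le)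
    nlinarith

theorem crB_pos (h : Ar X y) {z : ℂ} (hz : z ∈ Co) :
    0 < cr (z - pt X y) (ω ^ (-1 : ℤ) - pt X y) := by
  have h1 := hz (-1)
  have h2 := hz (-2)
  rw [m5] at h1
  rw [m4] at h2
  have h3 := crB X y z
  rcases (cf2 h).eq_or_lt with h0 | h0
  · have : 0 < X - 1 / 2 - √3 / 3 * y := by
      have e : √3 * y = -3 / 2 := by linarith
      have := h.2; linarith
    rw [← h0] at h3
    nlinarith [mul_pos this (sub_pos.2 h2)]
  · have a1 := mul_pos h0 (sub_pos.2 h1)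
    have a2 := mul_nonneg (cf4 h) (sub_nonneg.2 h2.le)
    nlinarith

theorem A_ne (h : Ar X y) : ω - pt X y ≠ 0 := by
  intro hh
  rw [pA] at hh
  have := congrArg Complex.re hh
  simp at this
  have := h.2; linarith
theorem B_ne (h : Ar X y) : ω ^ (-1 : ℤ) - pt X y ≠ 0 := by
  intro hh
  rw [pB] at hh
  have := congrArg Complex.re hh
  simp at this
  have := h.2; linarith

theorem cr_self (t : ℝ) (a : ℂ) : cr (t * a) a = 0 := by simp [cr]; ring

theorem tanA (h : Ar X y) : IsTangentLine Cx (pt X y) (ω - pt X y) := by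
  refine ⟨A_ne h, ⟨1, ?_⟩, fun t ht => ?_⟩
  · have : pt X y + ((1 : ℝ) : ℂ) * (ω - pt X y) = ω ^ (1 : ℤ) := by push_cast; rw [zpow_one]; ring
    rw [this]; exact zpow_mem 1
  · rw [interior_Cx] at ht
    have := crA_neg h ht
    rw [add_sub_cancel_left, cr_self] at this
    exact lt_irrefl _ this

theorem tanB (h : Ar X y) : IsTangentLine Cx (pt X y) (ω ^ (-1 : ℤ) - pt X y) := by
  refine ⟨B_ne h, ⟨1, ?_⟩, fun t ht => ?_⟩
  · have : pt X y + ((1 : ℝ) : ℂ) * (ω ^ (-1 : ℤ) - pt X y) = ω ^ (-1 : ℤ) := by push_cast; ring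
    rw [this]; exact zpow_mem (-1)
  · rw [interior_Cx] at ht
    have := crB_pos h ht
    rw [add_sub_cancel_left, cr_self] at this
    exact lt_irrefl _ this

theorem chord_mem {s : ℝ} (h1 : -(√3 / 2) < s) (h2 : s < √3 / 2) : (⟨1 / 2, s⟩ : ℂ) ∈ Co := by
  have := s3pos
  apply mem_Co_of <;> simp <;> linarith

theorem pt_notMem_Cx (h : Ar X y) : pt X y ∉ Cx := by
  intro hc
  have h1 := hc 0
  have h2 := hc (-1)
  rw [m0] at h1
  rw [m5] at h2
  simp [pt] at h1 h2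
  have := h.2
  nlinarith [s3, s3pos]

theorem parallel {v w : ℂ} (hv : v ≠ 0) (h : cr v w = 0) : ∃ t : ℝ, w = t * v := by
  have hn : 0 < dt v v := by
    rw [dt_self]; have := norm_pos_iff.2 hv; positivity
  refine ⟨dt w v / dt v v, ?_⟩
  have hn' : (dt v v : ℂ) ≠ 0 := by exact_mod_cast hn.ne'
  push_cast
  field_simp
  unfold cr at h
  apply Complex.ext
  · simp only [dt, Complex.re_ofReal_mul, Complex.mul_re, Complex.ofReal_re, Complex.ofReal_im]
    linear_combination (-v.im) * h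
  · simp only [dt, Complex.im_ofReal_mul, Complex.mul_im, Complex.ofReal_re, Complex.ofReal_im]
    linear_combination (v.re) * h

theorem classify (h : Ar X y) {v : ℂ} (hv : IsTangentLine Cx (pt X y) v) :
    ∃ t : ℝ, v = t * (ω - pt X y) ∨ v = t * (ω ^ (-1 : ℤ) - pt X y) := by
  obtain ⟨hv0, ⟨t0, ht0⟩, hint⟩ := hv
  rw [interior_Cx] at hint
  have ht0' : t0 ≠ 0 := by
    rintro rfl
    simp at ht0
    exact pt_notMem_Cx h ht0
  have h1 := crA_nonpos h ht0
  have h2 := crB_nonneg h ht0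
  rw [add_sub_cancel_left, cr_smul_left] at h1 h2
  set a := cr v (ω - pt X y) with ha
  set b := cr v (ω ^ (-1 : ℤ) - pt X y) with hb
  -- same side
  have hab : 0 ≤ a * b := by
    by_contra hc
    push Not at hc
    have hne : a - b ≠ 0 := by
      intro h0
      have : a = b := by linarith
      rw [this] at hc
      nlinarith [mul_self_nonneg b]
    set l := a / (a - b) with hl
    have hl0 : 0 < l := by
      have : l = a * (a - b) / (a - b) ^ 2 := by rw [hl]; field_simp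
      rw [this]
      apply div_pos
      · nlinarith [mul_self_nonneg a]
      · positivity
    have hl1 : 0 < 1 - l := by
      have : 1 - l = -b * (a - b) / (a - b) ^ 2 := by rw [hl]; field_simp; ring
      rw [this]
      apply div_pos
      · nlinarith [mul_self_nonneg b]
      · positivity
    have hw : cr v ((⟨1 / 2, √3 / 2 * (1 - 2 * l)⟩ : ℂ) - pt X y) = 0 := by
      have e : cr v ((⟨1 / 2, √3 / 2 * (1 - 2 * l)⟩ : ℂ) - pt X y) = (1 - l) * a + l * b := by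
        rw [ha, hb, pA, pB]; simp [cr, pt]; ring
      rw [e, hl]; field_simp; ring
    obtain ⟨t, ht⟩ := parallel hv0 hw
    apply hint t
    rw [← ht]
    have : pt X y + ((⟨1 / 2, √3 / 2 * (1 - 2 * l)⟩ : ℂ) - pt X y) = ⟨1 / 2, √3 / 2 * (1 - 2 * l)⟩ := by
      ring
    rw [this]
    have := s3pos
    apply chord_mem <;> nlinarith
  have h3 : a * b = 0 := by
    have h4 : (t0 * a) * (t0 * b) ≤ 0 := mul_nonpos_of_nonpos_of_nonneg h1 h2
    have h5 : 0 < t0 ^ 2 := by positivity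
    have h6 : t0 ^ 2 * (a * b) ≤ 0 := by linarith [h4]
    have : a * b ≤ 0 := by
      by_contra hc
      push Not at hc
      have := mul_pos h5 hc
      linarith
    linarith
  rcases mul_eq_zero.1 h3 with h4 | h4
  · obtain ⟨t, ht⟩ := parallel (v := ω - pt X y) (w := v) (A_ne h) (by
      rw [ha] at h4; simp only [cr] at h4 ⊢; linarith)
    exact ⟨t, Or.inl ht⟩
  · obtain ⟨t, ht⟩ := parallel (v := ω ^ (-1 : ℤ) - pt X y) (w := v) (B_ne h) (by
      rw [hb] at h4; simp only [cr] at h4 ⊢; linarith)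
    exact ⟨t, Or.inr ht⟩

theorem not_parallel (h : Ar X y) (t : ℝ) : ω - pt X y ≠ t * (ω ^ (-1 : ℤ) - pt X y) := by
  intro he
  rw [pA, pB] at he
  have h1 := congrArg Complex.re he
  have h2 := congrArg Complex.im he
  simp at h1 h2
  have hX := h.2
  have : t = 1 := by
    have h3 : X * (t - 1) = 0 := by linarith
    rcases mul_eq_zero.1 h3 with h4 | h4
    · linarith
    · linarith
  rw [this] at h2
  have := s3pos
  linarith

/-- Off the tips the two lines touch the hexagon only at the vertices. -/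
theorem touchA (h : Ar X y) (hX : 1 < X) : TouchesOnlyAt Cx (pt X y) ω := by
  intro t ht
  have hp := s3pos
  have hb : y ^ 2 < 3 / 4 := by have := h.1; nlinarith
  have hle : y < √3 / 2 := by nlinarith [s3]
  have hge : -(√3 / 2) < y := by nlinarith [s3]
  have h1 := ht 0
  have h2 := ht 1
  rw [m0] at h1
  rw [m1] at h2
  have e := crA X y (pt X y + t * (ω - pt X y))
  rw [add_sub_cancel_left, cr_self] at e
  have c1 : 0 < 1 - 2 / 3 * √3 * y := by nlinarith [s3]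
  have c3 : 0 < X - 1 / 2 + √3 / 3 * y := by nlinarith [s3]
  have a1 := mul_nonneg c1.le (sub_nonneg.2 h1)
  have a2 := mul_nonneg c3.le (sub_nonneg.2 h2)
  have z1 : (1 - 2 / 3 * √3 * y) * (√3 / 2 - (√3 / 2 * (pt X y + t * (ω - pt X y)).re +
      (pt X y + t * (ω - pt X y)).im / 2)) = 0 := by nlinarith
  have z2 : (X - 1 / 2 + √3 / 3 * y) * (√3 / 2 - (pt X y + t * (ω - pt X y)).im) = 0 := by nlinarith
  have w1 := (mul_eq_zero.1 z1).resolve_left c1.ne'
  have w2 := (mul_eq_zero.1 z2).resolve_left c3.ne'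
  rw [pA] at w1 w2
  simp [pt] at w1 w2
  have w3 : (√3 / 2 - y) * (1 - t) = 0 := by linarith
  rcases mul_eq_zero.1 w3 with h4 | h4
  · linarith
  · linarith

theorem touchB (h : Ar X y) (hX : 1 < X) : TouchesOnlyAt Cx (pt X y) (ω ^ (-1 : ℤ)) := by
  intro t ht
  have hp := s3pos
  have hb : y ^ 2 < 3 / 4 := by have := h.1; nlinarith
  have hle : y < √3 / 2 := by nlinarith [s3]
  have hge : -(√3 / 2) < y := by nlinarith [s3]
  have h1 := ht (-1)
  have h2 := ht (-2)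
  rw [m5] at h1
  rw [m4] at h2
  have e := crB X y (pt X y + t * (ω ^ (-1 : ℤ) - pt X y))
  rw [add_sub_cancel_left, cr_self] at e
  have c1 : 0 < 1 + 2 / 3 * √3 * y := by nlinarith [s3]
  have c3 : 0 < X - 1 / 2 - √3 / 3 * y := by nlinarith [s3]
  have a1 := mul_nonneg c1.le (sub_nonneg.2 h1)
  have a2 := mul_nonneg c3.le (sub_nonneg.2 h2)
  have z2 : (X - 1 / 2 - √3 / 3 * y) * (√3 / 2 - -(pt X y + t * (ω ^ (-1 : ℤ) - pt X y)).im) = 0 := by
    nlinarith
  have w2 := (mul_eq_zero.1 z2).resolve_left c3.ne'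
  rw [pB] at w2
  simp [pt] at w2
  have w3 : (√3 / 2 + y) * (1 - t) = 0 := by linarith
  rcases mul_eq_zero.1 w3 with h4 | h4
  · linarith
  · linarith

/-- Reflection exchanges the two lines (focal property of the ellipse). -/
theorem refl_A (h : Ar X y) : ((3 / 2 + √3 / 3 * y : ℝ) : ℂ) * refl (((‖nn X y‖⁻¹ : ℝ) : ℂ) * nn X y) (ω - pt X y) =
    (-(3 / 2 - √3 / 3 * y) : ℝ) * (ω ^ (-1 : ℤ) - pt X y) := by
  have hnpos := norm_pos_iff.2 (nn_ne h)
  have hN : ‖nn X y‖ ^ 2 = 9 * X ^ 2 + 4 * y ^ 2 := by rw [← dt_self]; simp [dt, nn]; ring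
  have e1 : (2 * inner ℝ (ω - pt X y) (((‖nn X y‖⁻¹ : ℝ) : ℂ) * nn X y) : ℝ) * ((‖nn X y‖⁻¹ : ℝ) : ℂ) =
      ((2 * dt (ω - pt X y) (nn X y) / ‖nn X y‖ ^ 2 : ℝ) : ℂ) := by
    rw [inner_eq, dt_smul_right, ← Complex.ofReal_mul]
    congr 1
    field_simp
  have e2 : refl (((‖nn X y‖⁻¹ : ℝ) : ℂ) * nn X y) (ω - pt X y) = (ω - pt X y) -
      ((2 * dt (ω - pt X y) (nn X y) / ‖nn X y‖ ^ 2 : ℝ) : ℂ) * nn X y := by
    rw [refl, ← mul_assoc, e1]
  have hX := h.2
  have h0 := h.1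
  have hq : 9 * X ^ 2 + 4 * y ^ 2 = 27 / 2 - 2 * y ^ 2 := by linarith
  have hpos : 0 < 9 * X ^ 2 + 4 * y ^ 2 := by positivity
  have e3 : (3 / 2 + √3 / 3 * y) * (2 * dt (ω - pt X y) (nn X y) / ‖nn X y‖ ^ 2) = -1 := by
    rw [hN, mul_div_assoc', div_eq_iff hpos.ne', pA]
    simp only [dt, nn]
    linear_combination (-2 * (3 / 2 + √3 / 3 * y)) * h0 / 2 + hq + (2 * y ^2 / 3) * s3
  rw [e2]
  have e4 : ((3 / 2 + √3 / 3 * y : ℝ) : ℂ) * ((ω - pt X y) -
      ((2 * dt (ω - pt X y) (nn X y) / ‖nn X y‖ ^ 2 : ℝ) : ℂ) * nn X y) =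
      ((3 / 2 + √3 / 3 * y : ℝ) : ℂ) * (ω - pt X y) -
      (((3 / 2 + √3 / 3 * y) * (2 * dt (ω - pt X y) (nn X y) / ‖nn X y‖ ^ 2) : ℝ) : ℂ) * nn X y := by
    push_cast; ring
  rw [e4, e3, pA, pB]
  apply Complex.ext
  · simp only [nn, Complex.sub_re, Complex.re_ofReal_mul]; ring
  · simp only [nn, Complex.sub_im, Complex.im_ofReal_mul]
    linear_combination (y / 3) * s3

end Pool.Agent.H703R3.HX
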