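import Pool.Agent.H703R3.MBDefs

/-!
# Bodies `f ≤ 1` for strongly convex quartic functions `f`
-/

set_option autoImplicit false

open Set Filter Topology
open scoped RealInnerProductSpace ContDiff

namespace Pool.Agent.H703R3.MB

variable {V : Type} [NormedAddCommGroup V] [InnerProductSpace ℝ V] [CompleteSpace V]

/-- `f` is smooth, quartic along lines, strongly convex, with gradient `g` -/
structure Good (f : V → ℝ) (g : V → V) : Prop where
  cd : ContDiff ℝ ∞ f
  line : ∀ x w : V, ∃ C D E : ℝ, ‖w‖ ^ 2 ≤ C ∧ ‖w‖ ^ 2 ≤ C + D + E ∧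
    ∀ s : ℝ, f (x + s • w) = f x + s * ⟪g x, w⟫ + s ^ 2 * C + s ^ 3 * D + s ^ 4 * E
  lower : ∀ x : V, ‖x‖ ^ 2 ≤ f x
  zero : f 0 = 0
  pos : ∀ x : V, f x = 1 → 0 < ⟪g x, x⟫

variable {f : V → ℝ} {g : V → V}

/-- the body `f ≤ 1` -/
def Body (f : V → ℝ) : Set V := {x | f x ≤ 1}

namespace Good

/-- the basic convexity inequality -/
theorem ge (h : Good f g) (x y : V) : f x + ⟪g x, y - x⟫ + ‖y - x‖ ^ 2 ≤ f y := by
  obtain ⟨C, D, E, _, h2, h3⟩ := h.line x (y - x)
  have h4 := h3 1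
  rw [one_smul, add_sub_cancel] at h4
  rw [h4]
  nlinarith

theorem continuous (h : Good f g) : Continuous f := h.cd.continuous

theorem strict (h : Good f g) {x y : V} (hxy : x ≠ y) {a b : ℝ} (ha : 0 < a) (hb : 0 < b)
    (hab : a + b = 1) (hx : f x ≤ 1) (hy : f y ≤ 1) : f (a • x + b • y) < 1 := by
  set z := a • x + b • y with hz
  have h1 := h.ge z x
  have h2 := h.ge z y
  have e1 : x - z = b • (x - y) := by
    rw [hz]
    have : x - (a • x + b • y) = (1 - a) • x - b • y := by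
      rw [sub_smul, one_smul]
      abel
    rw [this, show 1 - a = b by linarith, smul_sub]
  have e2 : y - z = (-a) • (x - y) := by
    rw [hz]
    have : y - (a • x + b • y) = (1 - b) • y - a • x := by
      rw [sub_smul, one_smul]
      abel
    rw [this, show 1 - b = a by linarith, neg_smul, smul_sub]
    abel
  have h3 : 0 < ‖x - z‖ ^ 2 := by
    rw [e1, norm_smul]
    have : 0 < ‖x - y‖ := norm_pos_iff.2 (sub_ne_zero.2 hxy)
    have hb' : 0 < ‖b‖ := norm_pos_iff.2 hb.ne'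
    positivity
  have h4 : a * ⟪g z, x - z⟫ + b * ⟪g z, y - z⟫ = 0 := by
    rw [e1, e2, real_inner_smul_right, real_inner_smul_right]
    ring
  have h5 : 0 ≤ ‖y - z‖ ^ 2 := by positivity
  have h6 : a * (f z + ⟪g z, x - z⟫ + ‖x - z‖ ^ 2) +
      b * (f z + ⟪g z, y - z⟫ + ‖y - z‖ ^ 2) ≤ a * 1 + b * 1 :=
    add_le_add (mul_le_mul_of_nonneg_left (h1.trans hx) ha.le)
      (mul_le_mul_of_nonneg_left (h2.trans hy) hb.le)
  have h7 : f z + a * ‖x - z‖ ^ 2 + b * ‖y - z‖ ^ 2 ≤ 1 := by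
    have : a * (f z + ⟪g z, x - z⟫ + ‖x - z‖ ^ 2) +
      b * (f z + ⟪g z, y - z⟫ + ‖y - z‖ ^ 2) = (a + b) * f z +
      (a * ⟪g z, x - z⟫ + b * ⟪g z, y - z⟫) + a * ‖x - z‖ ^ 2 + b * ‖y - z‖ ^ 2 := by ring
    rw [this, hab, h4] at h6
    linarith
  have h8 : 0 < a * ‖x - z‖ ^ 2 := mul_pos ha h3
  have h9 : 0 ≤ b * ‖y - z‖ ^ 2 := mul_nonneg hb.le h5
  linarith

end Good

theorem poly_deriv (A B C D E s : ℝ) :
    HasDerivAt (fun s : ℝ => A + s * B + s ^ 2 * C + s ^ 3 * D + s ^ 4 * E)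
      (B + 2 * s * C + 3 * s ^ 2 * D + 4 * s ^ 3 * E) s := by
  have h := ((((hasDerivAt_const s A).fun_add ((hasDerivAt_id' s).mul_const B)).fun_add
    ((hasDerivAt_pow 2 s).mul_const C)).fun_add ((hasDerivAt_pow 3 s).mul_const D)).fun_add
    ((hasDerivAt_pow 4 s).mul_const E)
  refine h.congr_deriv ?_
  push_cast
  ring

namespace Good

/-- moving in a direction of descent -/
theorem exists_lt (h : Good f g) {x w : V} (hw : ⟪g x, w⟫ < 0) :
    ∃ s : ℝ, 0 < s ∧ f (x + s • w) < f x := by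
  obtain ⟨C, D, E, _, _, h3⟩ := h.line x w
  have hc : Continuous fun s : ℝ => ⟪g x, w⟫ + s * C + s ^ 2 * D + s ^ 3 * E := by fun_prop
  have h4 : ∀ᶠ s : ℝ in 𝓝 0, ⟪g x, w⟫ + s * C + s ^ 2 * D + s ^ 3 * E < 0 :=
    (hc.tendsto 0).eventually (gt_mem_nhds (by simpa using hw))
  obtain ⟨δ, hδ, hs⟩ := Metric.eventually_nhds_iff.1 h4
  have h5 := hs (y := δ / 2) (by rw [Real.dist_eq, sub_zero, abs_of_pos (by linarith)]; linarith)
  refine ⟨δ / 2, by linarith, ?_⟩
  rw [h3]
  have h6 : δ / 2 * (⟪g x, w⟫ + δ / 2 * C + (δ / 2) ^ 2 * D + (δ / 2) ^ 3 * E) < 0 :=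
    mul_neg_of_pos_of_neg (by linarith) h5
  nlinarith

theorem isClosed_body (h : Good f g) : IsClosed (Body f) :=
  isClosed_le h.continuous continuous_const

theorem isOpen_lt (h : Good f g) : IsOpen {x : V | f x < 1} :=
  _root_.isOpen_lt h.continuous continuous_const

theorem norm_le_of_mem (h : Good f g) {x : V} (hx : x ∈ Body f) : ‖x‖ ≤ 1 := by
  have h1 : f x ≤ 1 := hx
  have := h.lower x
  nlinarith [norm_nonneg x]

theorem interior_body (h : Good f g) : interior (Body f) = {x | f x < 1} := by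
  apply Subset.antisymm
  · intro x hx
    have h1' : x ∈ Body f := interior_subset hx
    have h1 : f x ≤ 1 := h1'
    refine lt_of_le_of_ne h1 fun h2 => ?_
    have hc : Tendsto (fun s : ℝ => x + s • x) (𝓝 0) (𝓝 x) := by
      have : Continuous fun s : ℝ => x + s • x := by fun_prop
      simpa using this.tendsto 0
    have h3 : ∀ᶠ s : ℝ in 𝓝 0, x + s • x ∈ Body f :=
      hc.eventually (mem_interior_iff_mem_nhds.1 hx)
    obtain ⟨δ, hδ, hs⟩ := Metric.eventually_nhds_iff.1 h3
    have h4 := hs (y := δ / 2) (by rw [Real.dist_eq, sub_zero, abs_of_pos (by linarith)]; linarith)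
    have h5 : f (x + (δ / 2) • x) ≤ 1 := h4
    have h6 := h.ge x (x + (δ / 2) • x)
    rw [add_sub_cancel_left, real_inner_smul_right] at h6
    have h7 := h.pos x h2
    have h8 : 0 < δ / 2 * ⟪g x, x⟫ := by positivity
    have h9 : 0 ≤ ‖(δ / 2) • x‖ ^ 2 := by positivity
    linarith
  · refine interior_maximal (fun x hx => ?_) h.isOpen_lt
    have hx' : f x < 1 := hx
    exact hx'.le

theorem frontier_body (h : Good f g) : frontier (Body f) = {x | f x = 1} := by
  rw [h.isClosed_body.frontier_eq, h.interior_body]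
  ext x
  simp only [Set.mem_sdiff, mem_ofPred_eq, not_lt, Body]
  exact ⟨fun h => le_antisymm h.1 h.2, fun h => ⟨h.le, h.ge⟩⟩

theorem g_ne_zero (h : Good f g) {x : V} (hx : f x = 1) : g x ≠ 0 := by
  intro h0
  have := h.pos x hx
  rw [h0, inner_zero_left] at this
  exact lt_irrefl _ this

theorem hasGradient (h : Good f g) (x : V) : HasGradientAt f (g x) x := by
  rw [hasGradientAt_iff_hasFDerivAt]
  have hd : HasFDerivAt f (fderiv ℝ f x) x :=
    (h.cd.differentiable (by simp)).differentiableAt.hasFDerivAt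
  have he : fderiv ℝ f x = InnerProductSpace.toDual ℝ V (g x) := by
    ext w
    have hl : HasDerivAt (fun s : ℝ => x + s • w) w 0 := by
      simpa using ((hasDerivAt_id (0 : ℝ)).smul_const w).const_add x
    have hc : HasDerivAt (fun s : ℝ => f (x + s • w)) (fderiv ℝ f x w) 0 :=
      HasFDerivAt.comp_hasDerivAt (x := (0 : ℝ)) (f := fun s : ℝ => x + s • w)
        (l := f) (l' := fderiv ℝ f x) (by simpa using hd) hl
    have hc2 : HasDerivAt (fun s : ℝ => f (x + s • w)) (⟪g x, w⟫) 0 := by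
      obtain ⟨C, D, E, _, _, h3⟩ := h.line x w
      rw [funext h3]
      refine (poly_deriv _ _ _ _ _ 0).congr_deriv ?_
      ring
    rw [InnerProductSpace.toDual_apply_apply]
    exact hc.unique hc2
  rw [← he]
  exact hd

theorem gradient_sub (h : Good f g) (x : V) : gradient (fun y => f y - 1) x = g x := by
  have h1 := h.hasGradient x
  rw [hasGradientAt_iff_hasFDerivAt] at h1
  have : HasGradientAt (fun y => f y - 1) (g x) x := by
    rw [hasGradientAt_iff_hasFDerivAt]
    exact h1.sub_const 1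
  exact this.gradient

theorem second_deriv (h : Good f g) (x v : V) (hv : v ≠ 0) :
    0 < deriv (deriv fun s : ℝ => f (x + s • v) - 1) 0 := by
  obtain ⟨C, D, E, h1, _, h3⟩ := h.line x v
  have e : (fun s : ℝ => f (x + s • v) - 1) = fun s => (f x - 1) + s * ⟪g x, v⟫ +
      s ^ 2 * C + s ^ 3 * D + s ^ 4 * E := by
    ext s
    rw [h3 s]
    ring
  have e2 : (deriv fun s : ℝ => (f x - 1) + s * ⟪g x, v⟫ +
      s ^ 2 * C + s ^ 3 * D + s ^ 4 * E) = fun s => ⟪g x, v⟫ +
      s * (2 * C) + s ^ 2 * (3 * D) + s ^ 3 * (4 * E) + s ^ 4 * 0 := by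
    ext s
    rw [(poly_deriv _ _ _ _ _ s).deriv]
    ring
  rw [e, e2, (poly_deriv _ _ _ _ _ 0).deriv]
  have : 0 < ‖v‖ := norm_pos_iff.2 hv
  have h5 : 0 < ‖v‖ ^ 2 := by positivity
  simp
  linarith

theorem isTable [FiniteDimensional ℝ V] (h : Good f g) : IsTable (Body f) where
  isCompact := Metric.isCompact_of_isClosed_isBounded h.isClosed_body
    ((Metric.isBounded_closedBall (x := (0 : V)) (r := 1)).subset fun x hx => by
      rw [mem_closedBall_zero_iff]
      exact h.norm_le_of_mem hx)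
  nonempty := ⟨0, by
    rw [h.interior_body]
    show f 0 < 1
    rw [h.zero]
    exact one_pos⟩
  strictConvex := by
    intro x hx y hy hxy a b ha hb hab
    rw [h.interior_body]
    exact h.strict hxy ha hb hab hx hy
  smooth := by
    intro x hx
    rw [h.frontier_body] at hx
    refine ⟨fun y => f y - 1, h.cd.sub contDiff_const, ?_, ?_, ?_⟩
    · rw [h.gradient_sub]
      exact h.g_ne_zero hx
    · exact Eventually.of_forall fun y => by simp [Body]
    · intro v hv _
      exact h.second_deriv x v hv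

/-- the outer normal of the body -/
theorem isOuterNormal_iff (h : Good f g) {x ν : V} (hx : f x = 1) :
    IsOuterNormal (Body f) x ν ↔ ν = ‖g x‖⁻¹ • g x := by
  have h0 : 0 < ‖g x‖ := norm_pos_iff.2 (h.g_ne_zero hx)
  have hn1 : ‖‖g x‖⁻¹ • g x‖ = 1 := by
    rw [norm_smul, norm_inv, norm_norm, inv_mul_cancel₀ h0.ne']
  constructor
  · rintro ⟨h1, h2⟩
    by_contra hne
    set e := ‖g x‖⁻¹ • g x with he
    have hlt : ⟪e, ν⟫ < 1 := by
      have h3 := real_inner_le_norm e ν
      rw [hn1, h1, one_mul] at h3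
      exact lt_of_le_of_ne h3 fun h4 => hne ((inner_eq_one_iff_of_norm_eq_one hn1 h1).1 h4).symm
    have h5 : ⟪g x, ν - e⟫ < 0 := by
      have h6 : ⟪e, ν - e⟫ < 0 := by
        rw [inner_sub_right, real_inner_self_eq_norm_sq, hn1]
        linarith
      have h7 : g x = ‖g x‖ • e := by
        rw [he, smul_smul, mul_inv_cancel₀ h0.ne', one_smul]
      rw [h7, real_inner_smul_left]
      exact mul_neg_of_pos_of_neg h0 h6
    obtain ⟨s, hs0, hs⟩ := h.exists_lt h5
    have h8 := h2 (x + s • (ν - e)) (by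
      show f _ ≤ 1
      rw [← hx]
      exact hs.le)
    rw [add_sub_cancel_left, real_inner_smul_right, inner_sub_right, real_inner_self_eq_norm_sq,
      h1, real_inner_comm] at h8
    have : 0 < s * (1 ^ 2 - ⟪e, ν⟫) := by
      apply mul_pos hs0
      linarith
    linarith
  · rintro rfl
    refine ⟨hn1, fun y hy => ?_⟩
    have h3 := h.ge x y
    have h4 : f y ≤ 1 := hy
    rw [real_inner_smul_left]
    have h5 : ⟪g x, y - x⟫ ≤ 0 := by
      have : 0 ≤ ‖y - x‖ ^ 2 := by positivity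
      linarith
    exact mul_nonpos_of_nonneg_of_nonpos (by positivity) h5

theorem outerNormal_eq (h : Good f g) {x : V} (hx : f x = 1) :
    outerNormal (Body f) x = ‖g x‖⁻¹ • g x := by
  have h1 : IsOuterNormal (Body f) x (outerNormal (Body f) x) :=
    Classical.epsilon_spec ⟨_, (h.isOuterNormal_iff hx).2 rfl⟩
  exact (h.isOuterNormal_iff hx).1 h1

/-- the body is not an ellipsoid -/
theorem not_isEllipsoid [FiniteDimensional ℝ V] (h : Good f g) (hev : ∀ x, f (-x) = f x) {p q : V}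
    (hpn : ‖p‖ = 1) (hfab : ∀ a b : ℝ, f (a • p + b • q) = a ^ 2 + b ^ 2 + b ^ 4) :
    ¬ IsEllipsoid (Body f) := by
  rintro ⟨A, hA⟩
  set B := A.symm with hB
  have hBc : Continuous B := B.toAffineMap.continuous_of_finiteDimensional
  have hmem : ∀ x, x ∈ Body f ↔ ‖B x‖ ≤ 1 := by
    intro x
    rw [hA]
    constructor
    · rintro ⟨u, hu, rfl⟩
      rw [hB, AffineEquiv.symm_apply_apply]
      simpa using hu
    · intro h
      exact ⟨B x, by simpa using h, by rw [hB, AffineEquiv.apply_symm_apply]⟩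
  have hone : ∀ x, f x = 1 → ‖B x‖ = 1 := by
    intro x hx
    have h1 : ‖B x‖ ≤ 1 := (hmem x).1 (show f x ≤ 1 from hx.le)
    refine le_antisymm h1 ?_
    by_contra hcon
    push Not at hcon
    have hc : Continuous fun s : ℝ => ‖B (x + s • x)‖ := by fun_prop
    have h2 : ∀ᶠ s : ℝ in 𝓝 0, ‖B (x + s • x)‖ < 1 := by
      exact (hc.tendsto 0).eventually (gt_mem_nhds (by simpa using hcon))
    obtain ⟨δ, hδ, hs⟩ := Metric.eventually_nhds_iff.1 h2
    have h4 := hs (y := δ / 2) (by rw [Real.dist_eq, sub_zero, abs_of_pos (by linarith)]; linarith)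
    have h5 : f (x + (δ / 2) • x) ≤ 1 := (hmem _).2 h4.le
    have h6 := h.ge x (x + (δ / 2) • x)
    rw [add_sub_cancel_left, real_inner_smul_right] at h6
    have h7 := h.pos x hx
    have h8 : 0 < δ / 2 * ⟪g x, x⟫ := by positivity
    have h9 : 0 ≤ ‖(δ / 2) • x‖ ^ 2 := by positivity
    linarith
  -- linear part
  set M := B.linear with hM
  set c := B 0 with hc
  have hBM : ∀ x, B x = M x + c := by
    intro x
    have := B.map_vadd 0 x
    simpa [vadd_eq_add] using this
  have hsq : ∀ x, f x = 1 → ‖M x‖ ^ 2 = 1 - ‖c‖ ^ 2 := by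
    intro x hx
    have h1 := hone x hx
    have h2 := hone (-x) (by rw [hev, hx])
    rw [hBM] at h1 h2
    rw [map_neg] at h2
    have h3 : ‖M x + c‖ ^ 2 = 1 := by rw [h1]; norm_num
    have h4 : ‖-M x + c‖ ^ 2 = 1 := by rw [h2]; norm_num
    rw [norm_add_sq_real] at h3 h4
    rw [norm_neg, inner_neg_left] at h4
    linarith
  set κ := 1 - ‖c‖ ^ 2 with hκ
  have hkey : ∀ a b : ℝ, a ^ 2 + b ^ 2 + b ^ 4 = 1 →
      a ^ 2 * ‖M p‖ ^ 2 + b ^ 2 * ‖M q‖ ^ 2 = κ := by
    intro a b hab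
    have h1 := hsq (a • p + b • q) (by rw [hfab]; exact hab)
    have h2 := hsq ((-a) • p + b • q) (by rw [hfab, neg_sq]; exact hab)
    rw [map_add, map_smul, map_smul, norm_add_sq_real, norm_smul, norm_smul,
      real_inner_smul_left, real_inner_smul_right, mul_pow, mul_pow, Real.norm_eq_abs,
      Real.norm_eq_abs, sq_abs, sq_abs] at h1 h2
    linarith
  have k1 := hkey 1 0 (by norm_num)
  have s1 : (Real.sqrt (11 / 16)) ^ 2 = 11 / 16 := Real.sq_sqrt (by norm_num)
  have s2 : (Real.sqrt (239 / 256)) ^ 2 = 239 / 256 := Real.sq_sqrt (by norm_num)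
  have k2 := hkey (Real.sqrt (11 / 16)) (1 / 2) (by rw [s1]; norm_num)
  have k3 := hkey (Real.sqrt (239 / 256)) (1 / 4) (by rw [s2]; norm_num)
  rw [s1] at k2
  rw [s2] at k3
  have h0 : ‖M p‖ ^ 2 = 0 := by
    have e1 : ‖M p‖ ^ 2 = κ := by linarith
    rw [e1] at k2 k3
    rw [e1]
    linarith
  have h1 : M p = 0 := by
    rw [pow_eq_zero_iff (by norm_num)] at h0
    exact norm_eq_zero.1 h0
  have h2 : p = 0 := M.injective (a₁ := p) (a₂ := 0) (by rw [h1, map_zero])
  rw [h2, norm_zero] at hpn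
  exact zero_ne_one hpn

end Good

end Pool.Agent.H703R3.MB
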