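import Mathlib

/-!
# Inner and outer billiards in several dimensions: maps and invariant hypersurfaces
-/

set_option autoImplicit false

open Set Filter Topology
open scoped RealInnerProductSpace ContDiff

namespace Pool.Agent.H703R3.MB

/-- Euclidean space `ℝⁿ`. -/
abbrev Euc (n : ℕ) : Type := EuclideanSpace ℝ (Fin n)

section General

variable {V : Type} [NormedAddCommGroup V] [InnerProductSpace ℝ V] [CompleteSpace V]

/-- `K` is a compact convex body whose boundary is a smooth, strictly convex hypersurface: `K` is
compact, strictly convex, has interior points, and near each boundary point `x` it is given by an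
inequality `F ≤ 0` with a `C^∞` function `F` whose gradient at `x` is not zero and whose second
derivative at `x` along each nonzero tangent vector `v` is positive (so all principal curvatures of
the boundary are positive). -/
structure IsTable (K : Set V) : Prop where
  isCompact : IsCompact K
  nonempty : (interior K).Nonempty
  strictConvex : StrictConvex ℝ K
  smooth : ∀ x ∈ frontier K, ∃ F : V → ℝ, ContDiff ℝ ∞ F ∧ gradient F x ≠ 0 ∧
    (∀ᶠ y in 𝓝 x, (y ∈ K ↔ F y ≤ 0)) ∧
    ∀ v : V, v ≠ 0 → ⟪gradient F x, v⟫ = 0 → 0 < deriv (deriv fun s : ℝ => F (x + s • v)) 0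

/-- `ν` is an outer unit normal of the convex set `K` at its boundary point `x`. -/
def IsOuterNormal (K : Set V) (x ν : V) : Prop :=
  ‖ν‖ = 1 ∧ ∀ y ∈ K, ⟪ν, y - x⟫ ≤ 0

/-- The outer unit normal of the convex set `K` at its boundary point `x` (unique if the boundary
is smooth). -/
noncomputable def outerNormal (K : Set V) (x : V) : V :=
  Classical.epsilon (IsOuterNormal K x)

/-- An ellipsoid is the image of a round ball under an invertible affine map. -/
def IsEllipsoid (K : Set V) : Prop :=
  ∃ A : V ≃ᵃ[ℝ] V, K = A '' Metric.closedBall 0 1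

end General

/-! ### Inner billiards -/

section Inner

variable {n : ℕ}

/-- The phase space of the billiard in `Ω`: the oriented lines that meet the interior of `Ω`. The
oriented line with unit direction `v` and foot point `p ⟂ v` is the pair `(p, v)`. -/
def lines (Ω : Set (Euc n)) : Set (Euc n × Euc n) :=
  {l | ‖l.2‖ = 1 ∧ ⟪l.1, l.2⟫ = 0 ∧ ∃ t : ℝ, l.1 + t • l.2 ∈ interior Ω}

/-- `ξ` is a tangent vector at `l = (p, v)` of the manifold of oriented lines
`{(p, v) : ‖v‖ = 1, ⟪p, v⟫ = 0}`, in which `lines Ω` is open. -/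
def lineTangent (l ξ : Euc n × Euc n) : Prop :=
  ⟪l.2, ξ.2⟫ = 0 ∧ ⟪ξ.1, l.2⟫ + ⟪l.1, ξ.2⟫ = 0

/-- The oriented line through the point `x` with direction `v`. -/
noncomputable def lineThrough (x v : Euc n) : Euc n × Euc n := (x - ⟪x, v⟫ • v, v)

/-- The point at which the oriented line `l` leaves `Ω`. -/
noncomputable def exitPoint (Ω : Set (Euc n)) (l : Euc n × Euc n) : Euc n :=
  l.1 + sSup {t : ℝ | l.1 + t • l.2 ∈ Ω} • l.2

/-- The billiard map: the incoming oriented line is reflected at the point at which it leaves `Ω`;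
the normal component of its direction changes sign. -/
noncomputable def billiardMap (Ω : Set (Euc n)) (l : Euc n × Euc n) : Euc n × Euc n :=
  lineThrough (exitPoint Ω l)
    (l.2 - (2 * ⟪l.2, outerNormal Ω (exitPoint Ω l)⟫) • outerNormal Ω (exitPoint Ω l))

/-- `S` is a (nonempty) smooth, properly embedded, codimension-one submanifold of the phase space
`lines Ω` that is invariant under the billiard map: it is relatively closed, near each of its points
it is the zero set of a `C^∞` function whose differential does not vanish on the tangent space of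
the manifold of oriented lines, and `T(S) = S`. -/
structure IsInvariantHypersurface (Ω : Set (Euc n)) (S : Set (Euc n × Euc n)) : Prop where
  nonempty : S.Nonempty
  subset : S ⊆ lines Ω
  closed : ∃ C : Set (Euc n × Euc n), IsClosed C ∧ S = lines Ω ∩ C
  smooth : ∀ l ∈ S, ∃ F : Euc n × Euc n → ℝ, ContDiff ℝ ∞ F ∧
    (∀ᶠ l' in 𝓝 l, l' ∈ lines Ω → (l' ∈ S ↔ F l' = 0)) ∧
    ∃ ξ : Euc n × Euc n, lineTangent l ξ ∧ fderiv ℝ F l ξ ≠ 0
  invariant : billiardMap Ω '' S = S

end Inner

/-! ### Outer billiards -/

section Outer

variable {m : ℕ}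

/-- The space `ℝ²ᵐ` with coordinates `q₁, …, q_m` (left summand) and `p₁, …, p_m` (right
summand). -/
abbrev Sym (m : ℕ) : Type := EuclideanSpace ℝ (Fin m ⊕ Fin m)

/-- The standard complex structure `J(q, p) = (-p, q)`; the symplectic form is
`ω(u, v) = ⟪J u, v⟫`. -/
noncomputable def J (u : Sym m) : Sym m :=
  WithLp.toLp 2 (Sum.elim (fun i => - u (Sum.inr i)) (fun i => u (Sum.inl i)))

/-- `y` is the boundary point of `K` with `x = y - t J ν(y)` for some `t > 0`, where `ν` is the outer
unit normal. -/
def IsTangencyPoint (K : Set (Sym m)) (x y : Sym m) : Prop :=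
  y ∈ frontier K ∧ ∃ t : ℝ, 0 < t ∧ x = y - t • J (outerNormal K y)

/-- The outer billiard map `T(x) = 2 y - x` of `K`, where `y` is the tangency point of `x ∉ K`. -/
noncomputable def outerBilliard (K : Set (Sym m)) (x : Sym m) : Sym m :=
  (2 : ℝ) • Classical.epsilon (IsTangencyPoint K x) - x

/-- `S` is a (nonempty) smooth, properly embedded, codimension-one submanifold of `ℝ²ᵐ \ K` that is
invariant under the outer billiard map: it is relatively closed in `ℝ²ᵐ \ K`, near each of its
points it is a regular level set of a `C^∞` function, and `T(S) = S`. -/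
structure IsOuterInvariantHypersurface (K : Set (Sym m)) (S : Set (Sym m)) : Prop where
  nonempty : S.Nonempty
  subset : S ⊆ Kᶜ
  closed : ∃ C : Set (Sym m), IsClosed C ∧ S = Kᶜ ∩ C
  smooth : ∀ x ∈ S, ∃ F : Sym m → ℝ, ContDiff ℝ ∞ F ∧ (∀ᶠ y in 𝓝 x, (y ∈ S ↔ F y = 0)) ∧
    fderiv ℝ F x ≠ 0
  invariant : outerBilliard K '' S = S

end Outer

end Pool.Agent.H703R3.MB
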