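import Pool.Agent.H703R3.MBBody

/-!
# The billiard in the body `‖x‖² + x_k⁴ ≤ 1` preserves angular momenta
-/

set_option autoImplicit false

open Set Filter Topology
open scoped RealInnerProductSpace ContDiff

namespace Pool.Agent.H703R3.MB

variable {n : ℕ}

/-- the function `‖x‖² + x_k⁴` -/
noncomputable def ff (k : Fin n) (x : Euc n) : ℝ := ‖x‖ ^ 2 + (x k) ^ 4

/-- its gradient -/
noncomputable def gg (k : Fin n) (x : Euc n) : Euc n :=
  (2 : ℝ) • x + (4 * (x k) ^ 3) • EuclideanSpace.single k (1 : ℝ)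

theorem gg_inner (k : Fin n) (x w : Euc n) :
    ⟪gg k x, w⟫ = 2 * ⟪x, w⟫ + 4 * (x k) ^ 3 * w k := by
  unfold gg
  rw [inner_add_left, real_inner_smul_left, real_inner_smul_left,
    EuclideanSpace.inner_single_left]
  simp

theorem good (k : Fin n) : Good (ff k) (gg k) where
  cd := by
    unfold ff
    have h1 : ContDiff ℝ ∞ fun x : Euc n => ‖x‖ ^ 2 := contDiff_norm_sq ℝ
    have h2 : ContDiff ℝ ∞ fun x : Euc n => (x k) ^ 4 := by fun_prop
    exact h1.add h2
  line := by
    intro x w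
    refine ⟨‖w‖ ^ 2 + 6 * (x k) ^ 2 * (w k) ^ 2, 4 * (x k) * (w k) ^ 3, (w k) ^ 4, ?_, ?_, ?_⟩
    · have : 0 ≤ 6 * (x k) ^ 2 * (w k) ^ 2 := by positivity
      linarith
    · nlinarith [sq_nonneg ((w k) * ((w k) + 2 * (x k))), sq_nonneg ((x k) * (w k)),
        sq_nonneg (w k), sq_nonneg ((w k) ^ 2)]
    · intro s
      unfold ff
      rw [gg_inner]
      have h1 : ‖x + s • w‖ ^ 2 = ‖x‖ ^ 2 + 2 * s * ⟪x, w⟫ + s ^ 2 * ‖w‖ ^ 2 := by
        rw [norm_add_sq_real, real_inner_smul_right, norm_smul, mul_pow, Real.norm_eq_abs, sq_abs]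
        ring
      have h2 : (x + s • w) k = x k + s * w k := by simp
      rw [h1, h2]
      ring
  lower := by
    intro x
    have : 0 ≤ (x k) ^ 4 := by positivity
    unfold ff
    linarith
  zero := by simp [ff]
  pos := by
    intro x hx
    rw [gg_inner, real_inner_self_eq_norm_sq]
    have h0 : 0 < ‖x‖ := by
      refine norm_pos_iff.2 ?_
      rintro rfl
      simp [ff] at hx
    have : 0 ≤ 4 * (x k) ^ 3 * x k := by
      have : 4 * (x k) ^ 3 * x k = 4 * (x k) ^ 4 := by ring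
      rw [this]
      positivity
    positivity

/-- angular momentum of an oriented line -/
noncomputable def ang (i j : Fin n) (l : Euc n × Euc n) : ℝ := l.1 i * l.2 j - l.1 j * l.2 i

/-- the times at which a line is in the body -/
theorem times_spec {k : Fin n} {l : Euc n × Euc n} (hl : l ∈ lines (Body (ff k))) :
    ∃ t₀ : ℝ, ff k (l.1 + t₀ • l.2) < 1 ∧
      IsCompact {t : ℝ | l.1 + t • l.2 ∈ Body (ff k)} := by
  obtain ⟨h1, h2, t, ht⟩ := hl
  rw [(good k).interior_body] at ht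
  refine ⟨t, ht, ?_⟩
  have hc : Continuous fun t : ℝ => l.1 + t • l.2 := by fun_prop
  refine Metric.isCompact_of_isClosed_isBounded (((good k).isClosed_body).preimage hc) ?_
  refine (Metric.isBounded_closedBall (x := (0 : ℝ)) (r := 1)).subset fun s hs => ?_
  have h3 : ‖l.1 + s • l.2‖ ≤ 1 := (good k).norm_le_of_mem hs
  have h4 : ‖l.1 + s • l.2‖ ^ 2 = ‖l.1‖ ^ 2 + s ^ 2 := by
    rw [norm_add_sq_real, real_inner_smul_right, h2, norm_smul, h1, Real.norm_eq_abs, mul_one,
      sq_abs]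
    ring
  rw [mem_closedBall_zero_iff, Real.norm_eq_abs]
  have h5 : s ^ 2 ≤ 1 := by nlinarith [norm_nonneg (l.1 + s • l.2), sq_nonneg ‖l.1‖]
  exact (sq_le_one_iff_abs_le_one s).1 h5

/-- the exit point -/
theorem exit_spec {k : Fin n} {l : Euc n × Euc n} (hl : l ∈ lines (Body (ff k))) :
    ff k (exitPoint (Body (ff k)) l) = 1 ∧ 0 < ⟪gg k (exitPoint (Body (ff k)) l), l.2⟫ ∧
      ∃ s : ℝ, exitPoint (Body (ff k)) l = l.1 + s • l.2 := by
  obtain ⟨t₀, ht₀, hK⟩ := times_spec hl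
  set A := {t : ℝ | l.1 + t • l.2 ∈ Body (ff k)} with hA
  have hne : A.Nonempty := ⟨t₀, by rw [hA]; exact ht₀.le⟩
  set s := sSup A with hs
  have hsA : s ∈ A := hK.sSup_mem hne
  have hx : exitPoint (Body (ff k)) l = l.1 + s • l.2 := rfl
  have hbd : BddAbove A := hK.bddAbove
  have h1 : ff k (l.1 + s • l.2) ≤ 1 := hsA
  have h2 : ff k (l.1 + s • l.2) = 1 := by
    refine le_antisymm h1 ?_
    by_contra hcon
    push Not at hcon
    have hc : Continuous fun t : ℝ => ff k (l.1 + (s + t) • l.2) := by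
      have := (good k).continuous
      fun_prop
    have h3 : ∀ᶠ t : ℝ in 𝓝 0, ff k (l.1 + (s + t) • l.2) < 1 :=
      (hc.tendsto 0).eventually (gt_mem_nhds (by simpa using hcon))
    obtain ⟨δ, hδ, hs'⟩ := Metric.eventually_nhds_iff.1 h3
    have h4 := hs' (y := δ / 2) (by
      rw [Real.dist_eq, sub_zero, abs_of_pos (by linarith)]; linarith)
    have h5 : s + δ / 2 ∈ A := h4.le
    have := le_csSup hbd h5
    linarith
  have h3 : t₀ ≤ s := le_csSup hbd (show t₀ ∈ A from ht₀.le)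
  have h4 : t₀ < s := by
    refine lt_of_le_of_ne h3 fun h => ?_
    rw [h] at ht₀
    linarith
  refine ⟨by rw [hx]; exact h2, ?_, s, hx⟩
  rw [hx]
  have h5 := (good k).ge (l.1 + s • l.2) (l.1 + t₀ • l.2)
  have e : l.1 + t₀ • l.2 - (l.1 + s • l.2) = (-(s - t₀)) • l.2 := by
    rw [neg_smul, sub_smul]
    abel
  rw [e, real_inner_smul_right, h2] at h5
  have h6 : 0 ≤ ‖(-(s - t₀)) • l.2‖ ^ 2 := by positivity
  have h7 : 0 < (s - t₀) * ⟪gg k (l.1 + s • l.2), l.2⟫ := by linarith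
  exact pos_of_mul_pos_of_pos_left h7 (by linarith)
where
  pos_of_mul_pos_of_pos_left {a b : ℝ} (h : 0 < a * b) (ha : 0 ≤ a) : 0 < b :=
    (pos_iff_pos_of_mul_pos h).1 (lt_of_le_of_ne ha fun h0 => by simp [← h0] at h)

/-- reflection of a direction in the tangent plane at `x` -/
noncomputable def refl (k : Fin n) (x v : Euc n) : Euc n :=
  v - (2 * ⟪v, ‖gg k x‖⁻¹ • gg k x⟫) • ‖gg k x‖⁻¹ • gg k x

theorem unit_gg {k : Fin n} {x : Euc n} (hx : ff k x = 1) : ‖‖gg k x‖⁻¹ • gg k x‖ = 1 := by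
  have h0 : 0 < ‖gg k x‖ := norm_pos_iff.2 ((good k).g_ne_zero hx)
  rw [norm_smul, norm_inv, norm_norm, inv_mul_cancel₀ h0.ne']

theorem norm_refl {k : Fin n} {x v : Euc n} (hx : ff k x = 1) : ‖refl k x v‖ = ‖v‖ := by
  have h1 := unit_gg hx
  unfold refl
  set e := ‖gg k x‖⁻¹ • gg k x
  have : ‖v - (2 * ⟪v, e⟫) • e‖ ^ 2 = ‖v‖ ^ 2 := by
    rw [norm_sub_sq_real, real_inner_smul_right, norm_smul, h1, mul_one, Real.norm_eq_abs, sq_abs]
    ring
  exact (sq_eq_sq₀ (norm_nonneg _) (norm_nonneg _)).1 this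

theorem inner_gg_refl {k : Fin n} {x v : Euc n} (hx : ff k x = 1) :
    ⟪gg k x, refl k x v⟫ = - ⟪gg k x, v⟫ := by
  have h1 := unit_gg hx
  have h0 : 0 < ‖gg k x‖ := norm_pos_iff.2 ((good k).g_ne_zero hx)
  unfold refl
  rw [inner_sub_right, real_inner_smul_right, real_inner_smul_right, real_inner_smul_right,
    real_inner_self_eq_norm_sq, real_inner_comm]
  field_simp
  ring

theorem refl_refl {k : Fin n} {x v : Euc n} (hx : ff k x = 1) : refl k x (refl k x v) = v := by
  have h1 := unit_gg hx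
  unfold refl
  set e := ‖gg k x‖⁻¹ • gg k x
  rw [inner_sub_left, real_inner_smul_left, real_inner_self_eq_norm_sq, h1]
  rw [sub_sub, ← add_smul]
  have : 2 * ⟪v, e⟫ + 2 * (⟪v, e⟫ - 2 * ⟪v, e⟫ * 1 ^ 2) = 0 := by ring
  rw [this, zero_smul, sub_zero]

theorem billiardMap_eq {k : Fin n} {l : Euc n × Euc n} (hl : l ∈ lines (Body (ff k))) :
    billiardMap (Body (ff k)) l =
      lineThrough (exitPoint (Body (ff k)) l) (refl k (exitPoint (Body (ff k)) l) l.2) := by
  unfold billiardMap refl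
  rw [(good k).outerNormal_eq (exit_spec hl).1]

/-- the line through a boundary point pointing inwards is in the phase space -/
theorem lineThrough_mem {k : Fin n} {x v : Euc n} (hx : ff k x = 1) (hv : ‖v‖ = 1)
    (h : ⟪gg k x, v⟫ < 0) : lineThrough x v ∈ lines (Body (ff k)) := by
  refine ⟨hv, ?_, ?_⟩
  · show ⟪x - ⟪x, v⟫ • v, v⟫ = 0
    rw [inner_sub_left, real_inner_smul_left, real_inner_self_eq_norm_sq, hv]
    ring
  · obtain ⟨s, hs0, hs⟩ := (good k).exists_lt h
    refine ⟨⟪x, v⟫ + s, ?_⟩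
    rw [(good k).interior_body]
    show ff k (x - ⟪x, v⟫ • v + (⟪x, v⟫ + s) • v) < 1
    have : x - ⟪x, v⟫ • v + (⟪x, v⟫ + s) • v = x + s • v := by
      rw [add_smul]
      abel
    rw [this]
    linarith

theorem lineThrough_mem' {k : Fin n} {x v : Euc n} (hx : ff k x = 1) (hv : ‖v‖ = 1)
    (h : 0 < ⟪gg k x, v⟫) : lineThrough x v ∈ lines (Body (ff k)) := by
  refine ⟨hv, ?_, ?_⟩
  · show ⟪x - ⟪x, v⟫ • v, v⟫ = 0
    rw [inner_sub_left, real_inner_smul_left, real_inner_self_eq_norm_sq, hv]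
    ring
  · obtain ⟨s, hs0, hs⟩ := (good k).exists_lt (x := x) (w := -v)
      (by rw [inner_neg_right]; linarith)
    refine ⟨⟪x, v⟫ - s, ?_⟩
    rw [(good k).interior_body]
    show ff k (x - ⟪x, v⟫ • v + (⟪x, v⟫ - s) • v) < 1
    have : x - ⟪x, v⟫ • v + (⟪x, v⟫ - s) • v = x + s • (-v) := by
      rw [sub_smul, smul_neg]
      abel
    rw [this]
    linarith

/-- exit point of the line through a boundary point pointing outwards -/
theorem exitPoint_lineThrough {k : Fin n} {x v : Euc n} (hx : ff k x = 1)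
    (h : 0 < ⟪gg k x, v⟫) : exitPoint (Body (ff k)) (lineThrough x v) = x := by
  unfold exitPoint lineThrough
  have e : ∀ t : ℝ, x - ⟪x, v⟫ • v + t • v = x + (t - ⟪x, v⟫) • v := by
    intro t
    rw [sub_smul]
    abel
  have hg : IsGreatest {t : ℝ | x - ⟪x, v⟫ • v + t • v ∈ Body (ff k)} ⟪x, v⟫ := by
    constructor
    · show ff k _ ≤ 1
      rw [e, sub_self, zero_smul, add_zero]
      exact hx.le
    · intro t ht
      have ht' : ff k (x - ⟪x, v⟫ • v + t • v) ≤ 1 := ht
      rw [e] at ht'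
      have h5 := (good k).ge x (x + (t - ⟪x, v⟫) • v)
      rw [add_sub_cancel_left, real_inner_smul_right, hx] at h5
      have h6 : 0 ≤ ‖(t - ⟪x, v⟫) • v‖ ^ 2 := by positivity
      have h7 : (t - ⟪x, v⟫) * ⟪gg k x, v⟫ ≤ 0 := by linarith
      by_contra hcon
      push Not at hcon
      have : 0 < (t - ⟪x, v⟫) * ⟪gg k x, v⟫ := mul_pos (by linarith) h
      linarith
  show x - ⟪x, v⟫ • v + sSup {t : ℝ | x - ⟪x, v⟫ • v + t • v ∈ Body (ff k)} • v = x
  rw [hg.csSup_eq]
  abel

theorem ang_lineThrough (i j : Fin n) (x v : Euc n) :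
    ang i j (lineThrough x v) = x i * v j - x j * v i := by
  unfold ang lineThrough
  simp
  ring

theorem ang_refl {i j k : Fin n} (hi : i ≠ k) (hj : j ≠ k) (x v : Euc n) :
    x i * (refl k x v) j - x j * (refl k x v) i = x i * v j - x j * v i := by
  have h1 : ∀ a, a ≠ k → (refl k x v) a =
      v a - 2 * ⟪v, ‖gg k x‖⁻¹ • gg k x⟫ * (‖gg k x‖⁻¹ * (2 * x a)) := by
    intro a ha
    unfold refl gg
    simp [ha]
  rw [h1 i hi, h1 j hj]
  ring

theorem ang_line (i j : Fin n) (l : Euc n × Euc n) (s : ℝ) :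
    (l.1 + s • l.2) i * l.2 j - (l.1 + s • l.2) j * l.2 i = ang i j l := by
  unfold ang
  simp
  ring

/-- the billiard map preserves the phase space and the angular momentum -/
theorem billiardMap_mem {i j k : Fin n} (hi : i ≠ k) (hj : j ≠ k) {l : Euc n × Euc n}
    (hl : l ∈ lines (Body (ff k))) :
    billiardMap (Body (ff k)) l ∈ lines (Body (ff k)) ∧ ang i j (billiardMap (Body (ff k)) l) = ang i j l := by
  obtain ⟨h1, h2, s, h3⟩ := exit_spec hl
  rw [billiardMap_eq hl]
  constructor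
  · refine lineThrough_mem h1 (by rw [norm_refl h1, hl.1]) ?_
    rw [inner_gg_refl h1]
    linarith
  · rw [ang_lineThrough, ang_refl hi hj, h3, ang_line]

/-- the billiard map is onto the phase space -/
theorem billiardMap_surj {k : Fin n} {l : Euc n × Euc n}
    (hl : l ∈ lines (Body (ff k))) : ∃ m ∈ lines (Body (ff k)), billiardMap (Body (ff k)) m = l := by
  -- the reversed line
  set l' : Euc n × Euc n := (l.1, -l.2) with hl'
  have hm : l' ∈ lines (Body (ff k)) := by
    obtain ⟨h1, h2, t, ht⟩ := hl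
    refine ⟨by rw [hl']; simpa using h1, by rw [hl']; simpa using h2, -t, ?_⟩
    rw [hl']
    simpa using ht
  obtain ⟨h1, h2, s, h3⟩ := exit_spec hm
  set x := exitPoint (Body (ff k)) l' with hx
  have h2' : ⟪gg k x, l.2⟫ < 0 := by
    have : 0 < ⟪gg k x, -l.2⟫ := h2
    rw [inner_neg_right] at this
    linarith
  have h4 : 0 < ⟪gg k x, refl k x l.2⟫ := by
    rw [inner_gg_refl h1]
    linarith
  have h5 : ‖refl k x l.2‖ = 1 := by rw [norm_refl h1, hl.1]
  have h6 := lineThrough_mem' h1 h5 h4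
  refine ⟨_, h6, ?_⟩
  rw [billiardMap_eq h6, exitPoint_lineThrough h1 h4]
  show lineThrough x (refl k x (refl k x l.2)) = l
  rw [refl_refl h1]
  unfold lineThrough
  have h7 : x = l.1 + (-s) • l.2 := by
    rw [h3, hl']
    simp
  have h8 : ⟪x, l.2⟫ = -s := by
    rw [h7, inner_add_left, hl.2.1, real_inner_smul_left, real_inner_self_eq_norm_sq, hl.1]
    ring
  rw [h8, h7]
  simp

/-- the invariant hypersurface -/
def Sg (i j k : Fin n) (c : ℝ) : Set (Euc n × Euc n) := {l | l ∈ lines (Body (ff k)) ∧ ang i j l = c}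

theorem contDiff_ang (i j : Fin n) : ContDiff ℝ ∞ (ang i j) := by
  unfold ang
  fun_prop

theorem fderiv_ang (i j : Fin n) (l ξ : Euc n × Euc n) :
    fderiv ℝ (ang i j) l ξ = ξ.1 i * l.2 j + l.1 i * ξ.2 j - (ξ.1 j * l.2 i + l.1 j * ξ.2 i) := by
  have hd : HasFDerivAt (ang i j) (fderiv ℝ (ang i j) l) l :=
    ((contDiff_ang i j).differentiable (by simp)).differentiableAt.hasFDerivAt
  have hl : HasDerivAt (fun s : ℝ => l + s • ξ) ξ 0 := by
    simpa using ((hasDerivAt_id (0 : ℝ)).smul_const ξ).const_add l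
  have hc : HasDerivAt (fun s : ℝ => ang i j (l + s • ξ)) (fderiv ℝ (ang i j) l ξ) 0 :=
    HasFDerivAt.comp_hasDerivAt (x := (0 : ℝ)) (f := fun s : ℝ => l + s • ξ)
      (l := ang i j) (l' := fderiv ℝ (ang i j) l) (by simpa using hd) hl
  refine hc.unique ?_
  have e : (fun s : ℝ => ang i j (l + s • ξ)) = fun s => (l.1 i * l.2 j - l.1 j * l.2 i) +
      s * (ξ.1 i * l.2 j + l.1 i * ξ.2 j - (ξ.1 j * l.2 i + l.1 j * ξ.2 i)) +
      s ^ 2 * (ξ.1 i * ξ.2 j - ξ.1 j * ξ.2 i) + s ^ 3 * 0 + s ^ 4 * 0 := by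
    ext s
    unfold ang
    simp
    ring
  rw [e]
  refine (poly_deriv _ _ _ _ _ 0).congr_deriv ?_
  ring

theorem isInvariantHypersurface {i j k : Fin n} (hij : i ≠ j) (hi : i ≠ k) (hj : j ≠ k) :
    IsInvariantHypersurface (Body (ff k)) (Sg i j k (1 / 2)) where
  nonempty := by
    refine ⟨(EuclideanSpace.single i (1 / 2), EuclideanSpace.single j 1), ⟨?_, ?_, 0, ?_⟩, ?_⟩
    · simp
    · simp [EuclideanSpace.inner_single_left, hij]
    · rw [(good k).interior_body]
      simp [ff, hi.symm]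
      norm_num
    · unfold ang
      simp [hij, hij.symm]
  subset := fun l hl => hl.1
  closed := ⟨{l | ang i j l = 1 / 2},
    isClosed_eq (contDiff_ang i j).continuous continuous_const, rfl⟩
  smooth := by
    intro l hl
    refine ⟨fun l => ang i j l - 1 / 2, (contDiff_ang i j).sub contDiff_const, ?_, ?_⟩
    · refine Eventually.of_forall fun l' hl' => ?_
      constructor
      · intro h
        have := h.2
        show ang i j l' - 1 / 2 = 0
        rw [this, sub_self]
      · intro h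
        exact ⟨hl', by have : ang i j l' - 1 / 2 = 0 := h
                       linarith⟩
    · refine ⟨(EuclideanSpace.single i (l.2 j) - EuclideanSpace.single j (l.2 i), 0),
        ⟨by simp, ?_⟩, ?_⟩
      · show ⟪EuclideanSpace.single i (l.2 j) - EuclideanSpace.single j (l.2 i), l.2⟫ +
          ⟪l.1, (0 : Euc n)⟫ = 0
        rw [inner_sub_left, EuclideanSpace.inner_single_left, EuclideanSpace.inner_single_left]
        simp
        ring
      · rw [fderiv_sub_const, fderiv_ang]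
        have h1 := hl.2
        unfold ang at h1
        simp [hij, hij.symm]
        intro h0
        have e1 : l.2 j = 0 := by nlinarith [sq_nonneg (l.2 j), sq_nonneg (l.2 i)]
        have e2 : l.2 i = 0 := by nlinarith [sq_nonneg (l.2 j), sq_nonneg (l.2 i)]
        rw [e1, e2] at h1
        norm_num at h1
  invariant := by
    apply Subset.antisymm
    · rintro _ ⟨l, hl, rfl⟩
      obtain ⟨h1, h2⟩ := billiardMap_mem hi hj hl.1
      exact ⟨h1, by rw [h2]; exact hl.2⟩
    · intro l hl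
      obtain ⟨m, hm, rfl⟩ := billiardMap_surj hl.1
      exact ⟨m, ⟨hm, by rw [← (billiardMap_mem hi hj hm).2]; exact hl.2⟩, rfl⟩

theorem not_ell {j k : Fin n} (hjk : j ≠ k) : ¬ IsEllipsoid (Body (ff k)) := by
  refine (good k).not_isEllipsoid (p := EuclideanSpace.single j (1 : ℝ))
    (q := EuclideanSpace.single k (1 : ℝ)) ?_ ?_ ?_
  · intro x
    unfold ff
    rw [norm_neg]
    simp
    ring
  · simp
  · intro a b
    unfold ff
    rw [norm_add_sq_real, norm_smul, norm_smul, real_inner_smul_left,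
      real_inner_smul_right, EuclideanSpace.inner_single_left]
    simp [hjk, hjk.symm]

/-- Q1: in every dimension `n ≥ 3` there is a table that is not an ellipsoid and has an invariant
hypersurface. -/
theorem q1 (n : ℕ) (hn : 3 ≤ n) : ∃ Ω : Set (Euc n), IsTable Ω ∧ ¬ IsEllipsoid Ω ∧
    ∃ S : Set (Euc n × Euc n), IsInvariantHypersurface Ω S := by
  have hne : (⟨0, by omega⟩ : Fin n) ≠ ⟨2, hn⟩ := by simp
  refine ⟨Body (ff ⟨2, hn⟩), (good _).isTable, not_ell hne,
    Sg ⟨0, by omega⟩ ⟨1, by omega⟩ ⟨2, hn⟩ (1 / 2), isInvariantHypersurface ?_ ?_ ?_⟩ <;> simp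

end Pool.Agent.H703R3.MB
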