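import Pool.Agent.H703R3.MBBody

/-!
# Outer billiards about the body `‖x‖² + |z_k|⁴ ≤ 1` preserve `|z_i|²`, `i ≠ k`
-/

set_option autoImplicit false

open Set Filter Topology
open scoped RealInnerProductSpace ContDiff

namespace Pool.Agent.H703R3.MB

variable {m : ℕ}

/-- `|z_i|²` -/
noncomputable def Nz (i : Fin m) (x : Sym m) : ℝ := x (Sum.inl i) ^ 2 + x (Sum.inr i) ^ 2

/-- the `k`-th block of a vector -/
noncomputable def blk (k : Fin m) (x : Sym m) : Sym m :=
  EuclideanSpace.single (Sum.inl k) (x (Sum.inl k)) +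
    EuclideanSpace.single (Sum.inr k) (x (Sum.inr k))

/-- the function `‖x‖² + |z_k|⁴` -/
noncomputable def fo (k : Fin m) (x : Sym m) : ℝ := ‖x‖ ^ 2 + (Nz k x) ^ 2

/-- its gradient -/
noncomputable def go (k : Fin m) (x : Sym m) : Sym m := (2 : ℝ) • x + (4 * Nz k x) • blk k x

theorem blk_inner (k : Fin m) (x w : Sym m) :
    ⟪blk k x, w⟫ = x (Sum.inl k) * w (Sum.inl k) + x (Sum.inr k) * w (Sum.inr k) := by
  unfold blk
  rw [inner_add_left, EuclideanSpace.inner_single_left, EuclideanSpace.inner_single_left]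
  simp

theorem go_inner (k : Fin m) (x w : Sym m) :
    ⟪go k x, w⟫ = 2 * ⟪x, w⟫ + 4 * Nz k x * (x (Sum.inl k) * w (Sum.inl k) +
      x (Sum.inr k) * w (Sum.inr k)) := by
  unfold go
  rw [inner_add_left, real_inner_smul_left, real_inner_smul_left, blk_inner]

theorem Nz_nonneg (k : Fin m) (x : Sym m) : 0 ≤ Nz k x := by
  unfold Nz
  positivity

theorem norm_sq_sym (x : Sym m) : ‖x‖ ^ 2 = ∑ i, Nz i x := by
  rw [EuclideanSpace.norm_sq_eq, Fintype.sum_sum_type, ← Finset.sum_add_distrib]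
  simp [Nz]

theorem Nz_le (i : Fin m) (x : Sym m) : Nz i x ≤ ‖x‖ ^ 2 := by
  rw [norm_sq_sym]
  exact Finset.single_le_sum (f := fun i => Nz i x) (fun j _ => Nz_nonneg j x)
    (Finset.mem_univ i)

theorem Nz_line (k : Fin m) (x w : Sym m) (s : ℝ) :
    Nz k (x + s • w) = Nz k x + 2 * s * (x (Sum.inl k) * w (Sum.inl k) +
      x (Sum.inr k) * w (Sum.inr k)) + s ^ 2 * Nz k w := by
  unfold Nz
  simp
  ring

theorem contDiff_Nz (k : Fin m) : ContDiff ℝ ∞ (Nz k) := by
  unfold Nz
  fun_prop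

theorem goodo (k : Fin m) : Good (fo k) (go k) where
  cd := by
    unfold fo
    have h1 : ContDiff ℝ ∞ fun x : Sym m => ‖x‖ ^ 2 := contDiff_norm_sq ℝ
    exact h1.add ((contDiff_Nz k).pow 2)
  line := by
    intro x w
    set B := x (Sum.inl k) * w (Sum.inl k) + x (Sum.inr k) * w (Sum.inr k) with hB
    refine ⟨‖w‖ ^ 2 + 4 * B ^ 2 + 2 * Nz k x * Nz k w, 4 * B * Nz k w, (Nz k w) ^ 2, ?_, ?_, ?_⟩
    · have := mul_nonneg (Nz_nonneg k x) (Nz_nonneg k w)
      nlinarith [sq_nonneg B]
    · have := mul_nonneg (Nz_nonneg k x) (Nz_nonneg k w)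
      nlinarith [sq_nonneg (2 * B + Nz k w)]
    · intro s
      unfold fo
      rw [go_inner, ← hB, Nz_line, ← hB]
      have h1 : ‖x + s • w‖ ^ 2 = ‖x‖ ^ 2 + 2 * s * ⟪x, w⟫ + s ^ 2 * ‖w‖ ^ 2 := by
        rw [norm_add_sq_real, real_inner_smul_right, norm_smul, mul_pow, Real.norm_eq_abs, sq_abs]
        ring
      rw [h1]
      ring
  lower := by
    intro x
    unfold fo
    nlinarith [sq_nonneg (Nz k x)]
  zero := by simp [fo, Nz]
  pos := by
    intro x hx
    rw [go_inner, real_inner_self_eq_norm_sq]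
    have h0 : 0 < ‖x‖ := by
      refine norm_pos_iff.2 ?_
      rintro rfl
      simp [fo, Nz] at hx
    have h1 : x (Sum.inl k) * x (Sum.inl k) + x (Sum.inr k) * x (Sum.inr k) = Nz k x := by
      unfold Nz
      ring
    rw [h1]
    have : 0 ≤ 4 * Nz k x * Nz k x := by
      have := Nz_nonneg k x
      positivity
    positivity

theorem not_ello {j k : Fin m} (hjk : j ≠ k) : ¬ IsEllipsoid (Body (fo k)) := by
  refine (goodo k).not_isEllipsoid (p := EuclideanSpace.single (Sum.inl j) (1 : ℝ))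
    (q := EuclideanSpace.single (Sum.inl k) (1 : ℝ)) ?_ ?_ ?_
  · intro x
    unfold fo Nz
    rw [norm_neg]
    simp
  · simp
  · intro a b
    unfold fo Nz
    rw [norm_add_sq_real, norm_smul, norm_smul, real_inner_smul_left,
      real_inner_smul_right, EuclideanSpace.inner_single_left]
    simp [hjk, hjk.symm]
    ring

@[simp] theorem J_inl (u : Sym m) (i : Fin m) : J u (Sum.inl i) = - u (Sum.inr i) := rfl

@[simp] theorem J_inr (u : Sym m) (i : Fin m) : J u (Sum.inr i) = u (Sum.inl i) := rfl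

theorem J_smul (c : ℝ) (u : Sym m) : J (c • u) = c • J u := by
  ext i
  rcases i with i | i <;> simp

theorem J_inner (u v : Sym m) : ⟪J u, v⟫ = - ⟪u, J v⟫ := by
  simp only [PiLp.inner_apply, Fintype.sum_sum_type, J_inl, J_inr]
  rw [← Finset.sum_add_distrib, ← Finset.sum_add_distrib, ← Finset.sum_neg_distrib]
  refine Finset.sum_congr rfl fun i _ => ?_
  simp

theorem J_inner_self (u : Sym m) : ⟪u, J u⟫ = 0 := by
  have h := J_inner u u
  rw [real_inner_comm] at h
  linarith

/-- factor of the gradient on the block `i` -/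
noncomputable def cf (k i : Fin m) (s : ℝ) : ℝ := if i = k then 1 + 2 * s else 1

theorem go_inl (k i : Fin m) (y : Sym m) :
    go k y (Sum.inl i) = 2 * cf k i (Nz k y) * y (Sum.inl i) := by
  unfold go blk cf
  by_cases h : i = k
  · subst h
    simp
    ring
  · simp [h]

theorem go_inr (k i : Fin m) (y : Sym m) :
    go k y (Sum.inr i) = 2 * cf k i (Nz k y) * y (Sum.inr i) := by
  unfold go blk cf
  by_cases h : i = k
  · subst h
    simp
    ring
  · simp [h]

/-- moving along the characteristic direction -/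
theorem Nz_move (k i : Fin m) (y : Sym m) (a : ℝ) :
    Nz i (y - (a / 2) • J (go k y)) = (1 + (a * cf k i (Nz k y)) ^ 2) * Nz i y := by
  unfold Nz
  simp only [PiLp.sub_apply, PiLp.smul_apply, J_inl, J_inr, go_inl, go_inr, smul_eq_mul, Nz]
  ring

/-- the scalar equations -/
theorem scalar {R X : ℝ} (_hR : 0 ≤ R) (hX : 0 ≤ X) (h : 1 < R + X + X ^ 2) :
    ∃ s θ : ℝ, 0 ≤ s ∧ 0 < θ ∧ X = s * (1 + (θ * (1 + 2 * s)) ^ 2) ∧
      R / (1 + θ ^ 2) + s + s ^ 2 = 1 := by
  rcases hX.eq_or_lt with h0 | h0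
  · rw [← h0] at h
    refine ⟨0, Real.sqrt (R - 1), le_rfl, Real.sqrt_pos.2 (by linarith), by rw [← h0]; ring, ?_⟩
    rw [Real.sq_sqrt (by linarith)]
    have : R ≠ 0 := by linarith
    rw [show 1 + (R - 1) = R by ring, div_self this]
    ring
  · have hden : ∀ s ∈ Icc 0 X, 0 < s * (1 + 2 * s) ^ 2 + (X - s) := by
      intro s hs
      rcases hs.1.eq_or_lt with h1 | h1
      · rw [← h1]
        simpa using h0
      · have : 0 < s * (1 + 2 * s) ^ 2 := by positivity
        linarith [hs.2]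
    set G : ℝ → ℝ := fun s => R * (s * (1 + 2 * s) ^ 2) / (s * (1 + 2 * s) ^ 2 + (X - s)) + s +
      s ^ 2 with hG
    have hGc : ContinuousOn G (Icc 0 X) := by
      rw [hG]
      refine ContinuousOn.add (ContinuousOn.add (ContinuousOn.div (by fun_prop) (by fun_prop)
        fun s hs => (hden s hs).ne') (by fun_prop)) (by fun_prop)
    have hG0 : G 0 = 0 := by simp [hG]
    have hG1 : G X = R + X + X ^ 2 := by
      simp only [hG, sub_self, add_zero]
      have : X * (1 + 2 * X) ^ 2 ≠ 0 := by positivity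
      rw [mul_div_assoc, div_self this, mul_one]
    obtain ⟨s, hs, hGs⟩ := intermediate_value_Icc h0.le hGc
      (show (1 : ℝ) ∈ Icc (G 0) (G X) by rw [hG0, hG1]; exact ⟨zero_le_one, h.le⟩)
    have hs0 : 0 < s := by
      rcases hs.1.eq_or_lt with h1 | h1
      · rw [← h1, hG0] at hGs
        norm_num at hGs
      · exact h1
    have hsX : s < X := by
      rcases hs.2.eq_or_lt with h1 | h1
      · rw [h1, hG1] at hGs
        linarith
      · exact h1
    have hpos : 0 < (X - s) / (s * (1 + 2 * s) ^ 2) := by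
      have : 0 < X - s := by linarith
      positivity
    refine ⟨s, Real.sqrt ((X - s) / (s * (1 + 2 * s) ^ 2)), hs0.le, Real.sqrt_pos.2 hpos, ?_, ?_⟩
    · rw [mul_pow, Real.sq_sqrt hpos.le]
      field_simp
      ring
    · have hGs' := hGs
      simp only [hG] at hGs'
      rw [Real.sq_sqrt hpos.le]
      have h1 := hden s hs
      have h2 : 0 < s * (1 + 2 * s) ^ 2 := by positivity
      have h3 : 1 + (X - s) / (s * (1 + 2 * s) ^ 2) =
          (s * (1 + 2 * s) ^ 2 + (X - s)) / (s * (1 + 2 * s) ^ 2) := by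
        field_simp
      rw [h3, div_div_eq_mul_div]
      exact hGs'

/-- every exterior point is on a characteristic ray, in both directions -/
theorem exists_pt (k : Fin m) (x : Sym m) (hx : 1 < fo k x) (σ : ℝ) (hσ : σ ^ 2 = 1) :
    ∃ (y : Sym m) (θ : ℝ), fo k y = 1 ∧ 0 < θ ∧ x = y - (σ * θ / 2) • J (go k y) := by
  obtain ⟨s, θ, hs, hθ, h1, h2⟩ := scalar (R := ‖x‖ ^ 2 - Nz k x) (X := Nz k x)
    (by linarith [Nz_le k x]) (Nz_nonneg k x) (by unfold fo at hx; linarith)
  set a : Fin m → ℝ := fun i => σ * θ * cf k i s with ha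
  set y : Sym m := WithLp.toLp 2 (Sum.elim
    (fun i => (x (Sum.inl i) - a i * x (Sum.inr i)) / (1 + a i ^ 2))
    (fun i => (x (Sum.inr i) + a i * x (Sum.inl i)) / (1 + a i ^ 2))) with hy
  have hyl : ∀ i, y (Sum.inl i) = (x (Sum.inl i) - a i * x (Sum.inr i)) / (1 + a i ^ 2) :=
    fun i => rfl
  have hyr : ∀ i, y (Sum.inr i) = (x (Sum.inr i) + a i * x (Sum.inl i)) / (1 + a i ^ 2) :=
    fun i => rfl
  have hpos : ∀ i, 0 < 1 + a i ^ 2 := fun i => by positivity
  have hN : ∀ i, Nz i y = Nz i x / (1 + a i ^ 2) := by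
    intro i
    have := hpos i
    unfold Nz
    rw [hyl, hyr]
    field_simp
    ring
  have hak : a k ^ 2 = (θ * (1 + 2 * s)) ^ 2 := by
    rw [ha]
    simp only [cf, if_true]
    rw [mul_pow, mul_pow, hσ]
    ring
  have hai : ∀ i, i ≠ k → a i ^ 2 = θ ^ 2 := by
    intro i hi
    rw [ha]
    simp only [cf, if_neg hi]
    rw [mul_pow, mul_pow, hσ]
    ring
  have hNk : Nz k y = s := by
    rw [hN, hak, h1]
    have : 0 < 1 + (θ * (1 + 2 * s)) ^ 2 := by positivity
    field_simp
  have hsum : ‖y‖ ^ 2 = (‖x‖ ^ 2 - Nz k x) / (1 + θ ^ 2) + s := by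
    rw [norm_sq_sym, norm_sq_sym, ← Finset.add_sum_erase _ _ (Finset.mem_univ k), hNk,
      ← Finset.add_sum_erase _ (fun i => Nz i x) (Finset.mem_univ k), add_sub_cancel_left,
      Finset.sum_div, add_comm]
    congr 1
    refine Finset.sum_congr rfl fun i hi => ?_
    rw [hN, hai i (Finset.ne_of_mem_erase hi)]
  refine ⟨y, θ, ?_, hθ, ?_⟩
  · unfold fo
    rw [hsum, hNk]
    exact h2
  · ext i
    rcases i with i | i
    · simp only [PiLp.sub_apply, PiLp.smul_apply, J_inl, go_inr, smul_eq_mul, hNk]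
      have e : y (Sum.inl i) - σ * θ / 2 * -(2 * cf k i s * y (Sum.inr i)) =
          y (Sum.inl i) + a i * y (Sum.inr i) := by rw [ha]; ring
      rw [e, hyl, hyr]
      have := hpos i
      field_simp
      ring
    · simp only [PiLp.sub_apply, PiLp.smul_apply, J_inr, go_inl, smul_eq_mul, hNk]
      have e : y (Sum.inr i) - σ * θ / 2 * (2 * cf k i s * y (Sum.inl i)) =
          y (Sum.inr i) - a i * y (Sum.inl i) := by rw [ha]; ring
      rw [e, hyl, hyr]
      have := hpos i
      field_simp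
      ring

theorem isTangencyPoint_iff (k : Fin m) (x y : Sym m) :
    IsTangencyPoint (Body (fo k)) x y ↔
      fo k y = 1 ∧ ∃ θ : ℝ, 0 < θ ∧ x = y - (θ / 2) • J (go k y) := by
  unfold IsTangencyPoint
  rw [(goodo k).frontier_body]
  constructor
  · rintro ⟨h1, t, ht, rfl⟩
    have h1' : fo k y = 1 := h1
    have h0 : 0 < ‖go k y‖ := norm_pos_iff.2 ((goodo k).g_ne_zero h1')
    refine ⟨h1', 2 * (t * ‖go k y‖⁻¹), by positivity, ?_⟩
    rw [(goodo k).outerNormal_eq h1', J_smul, smul_smul]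
    congr 2
    ring
  · rintro ⟨h1, θ, hθ, rfl⟩
    have h0 : 0 < ‖go k y‖ := norm_pos_iff.2 ((goodo k).g_ne_zero h1)
    refine ⟨h1, θ / 2 * ‖go k y‖, by positivity, ?_⟩
    rw [(goodo k).outerNormal_eq h1, J_smul, smul_smul]
    congr 2
    field_simp

theorem tangency_unique (k : Fin m) {x y y' : Sym m} (h : IsTangencyPoint (Body (fo k)) x y)
    (h' : IsTangencyPoint (Body (fo k)) x y') : y = y' := by
  obtain ⟨h1, θ, hθ, h2⟩ := (isTangencyPoint_iff k x y).1 h
  obtain ⟨h1', θ', hθ', h2'⟩ := (isTangencyPoint_iff k x y').1 h'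
  by_contra hne
  have hd : 0 < ‖y' - y‖ ^ 2 := by
    have : 0 < ‖y' - y‖ := norm_pos_iff.2 (sub_ne_zero.2 (Ne.symm hne))
    positivity
  have hd' : ‖y - y'‖ ^ 2 = ‖y' - y‖ ^ 2 := by rw [norm_sub_rev]
  have k1 := (goodo k).ge y y'
  have k2 := (goodo k).ge y' y
  rw [h1, h1'] at k1 k2
  have e : y' - y = (θ' / 2) • J (go k y') - (θ / 2) • J (go k y) := by
    have h5 : y' = x + (θ' / 2) • J (go k y') := by rw [h2']; abel
    have h6 : y = x + (θ / 2) • J (go k y) := by rw [h2]; abel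
    calc y' - y = (x + (θ' / 2) • J (go k y')) - (x + (θ / 2) • J (go k y)) := by
          rw [← h5, ← h6]
      _ = _ := by abel
  have e' : y - y' = (θ / 2) • J (go k y) - (θ' / 2) • J (go k y') := by
    rw [← neg_sub, e]
    abel
  have q1 : ⟪go k y, y' - y⟫ = θ' / 2 * ⟪go k y, J (go k y')⟫ := by
    rw [e, inner_sub_right, real_inner_smul_right, real_inner_smul_right, J_inner_self]
    ring
  have q2 : ⟪go k y', y - y'⟫ = - (θ / 2 * ⟪go k y, J (go k y')⟫) := by
    rw [e', inner_sub_right, real_inner_smul_right, real_inner_smul_right, J_inner_self]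
    have := J_inner (go k y) (go k y')
    rw [real_inner_comm] at this
    rw [this]
    ring
  rw [q1] at k1
  rw [q2, hd'] at k2
  have r1 : θ' / 2 * ⟪go k y, J (go k y')⟫ < 0 := by linarith
  have r2 : 0 < θ / 2 * ⟪go k y, J (go k y')⟫ := by linarith
  have r3 : ⟪go k y, J (go k y')⟫ < 0 := by
    by_contra hcon
    push Not at hcon
    have : 0 ≤ θ' / 2 * ⟪go k y, J (go k y')⟫ := by positivity
    linarith
  have r4 : θ / 2 * ⟪go k y, J (go k y')⟫ < 0 := mul_neg_of_pos_of_neg (by linarith) r3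
  linarith

theorem outerBilliard_eq (k : Fin m) {x y : Sym m} (h : IsTangencyPoint (Body (fo k)) x y) :
    outerBilliard (Body (fo k)) x = (2 : ℝ) • y - x := by
  unfold outerBilliard
  have h1 : IsTangencyPoint (Body (fo k)) x
      (Classical.epsilon (IsTangencyPoint (Body (fo k)) x)) := Classical.epsilon_spec ⟨y, h⟩
  rw [tangency_unique k h1 h]

/-- the invariant hypersurface -/
def So (i k : Fin m) : Set (Sym m) := (Body (fo k))ᶜ ∩ {x | Nz i x = 4}

theorem mem_compl_of {i k : Fin m} {x : Sym m} (h : Nz i x = 4) : x ∈ (Body (fo k))ᶜ := by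
  show ¬ fo k x ≤ 1
  have h1 := Nz_le i x
  have h2 := (goodo k).lower x
  linarith

theorem isOuterInvariant (i k : Fin m) :
    IsOuterInvariantHypersurface (Body (fo k)) (So i k) where
  nonempty := by
    have : Nz i (EuclideanSpace.single (Sum.inl i) (2 : ℝ)) = 4 := by
      unfold Nz
      simp
      norm_num
    exact ⟨_, mem_compl_of this, this⟩
  subset := fun x hx => hx.1
  closed := ⟨_, isClosed_eq (contDiff_Nz i).continuous continuous_const, rfl⟩
  smooth := by
    intro x hx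
    refine ⟨fun y => Nz i y - 4, (contDiff_Nz i).sub contDiff_const, ?_, ?_⟩
    · refine Eventually.of_forall fun y => ?_
      constructor
      · intro h
        have h2 : Nz i y = 4 := h.2
        show Nz i y - 4 = 0
        rw [h2, sub_self]
      · intro h
        have h2 : Nz i y = 4 := by
          have : Nz i y - 4 = 0 := h
          linarith
        exact ⟨mem_compl_of h2, h2⟩
    · intro h0
      have hd : HasFDerivAt (fun y => Nz i y - 4) (fderiv ℝ (fun y => Nz i y - 4) x) x :=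
        (((contDiff_Nz i).sub contDiff_const).differentiable (by simp)).differentiableAt.hasFDerivAt
      have hl : HasDerivAt (fun s : ℝ => x + s • x) x 0 := by
        simpa using ((hasDerivAt_id (0 : ℝ)).smul_const x).const_add x
      have hc : HasDerivAt (fun s : ℝ => Nz i (x + s • x) - 4)
          (fderiv ℝ (fun y => Nz i y - 4) x x) 0 :=
        HasFDerivAt.comp_hasDerivAt (x := (0 : ℝ)) (f := fun s : ℝ => x + s • x)
          (l := fun y => Nz i y - 4) (l' := fderiv ℝ (fun y => Nz i y - 4) x)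
          (by simpa using hd) hl
      rw [h0] at hc
      have hx2 : Nz i x = 4 := hx.2
      have e : (fun s : ℝ => Nz i (x + s • x) - 4) = fun s => 0 + s * 8 + s ^ 2 * 4 +
          s ^ 3 * 0 + s ^ 4 * 0 := by
        ext s
        rw [Nz_line]
        have : x (Sum.inl i) * x (Sum.inl i) + x (Sum.inr i) * x (Sum.inr i) = Nz i x := by
          unfold Nz
          ring
        rw [this, hx2]
        ring
      rw [e] at hc
      have h8 := hc.unique (poly_deriv 0 8 4 0 0 0)
      norm_num at h8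
  invariant := by
    apply Subset.antisymm
    · rintro _ ⟨x, hx, rfl⟩
      have hx1 : 1 < fo k x := by
        have : ¬ fo k x ≤ 1 := hx.1
        linarith
      obtain ⟨y, θ, h1, h2, h3⟩ := exists_pt k x hx1 1 (by norm_num)
      rw [one_mul] at h3
      have ht := (isTangencyPoint_iff k x y).2 ⟨h1, θ, h2, h3⟩
      rw [outerBilliard_eq k ht]
      have e : (2 : ℝ) • y - x = y - ((-θ) / 2) • J (go k y) := by
        rw [h3, two_smul, neg_div, neg_smul]
        abel
      have h4 : Nz i ((2 : ℝ) • y - x) = 4 := by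
        rw [e, Nz_move]
        have h5 := Nz_move k i y θ
        rw [← h3, show Nz i x = 4 from hx.2] at h5
        rw [h5]
        ring
      exact ⟨mem_compl_of h4, h4⟩
    · intro x hx
      have hx1 : 1 < fo k x := by
        have : ¬ fo k x ≤ 1 := hx.1
        linarith
      obtain ⟨y, θ, h1, h2, h3⟩ := exists_pt k x hx1 (-1) (by norm_num)
      set x' := y - (θ / 2) • J (go k y) with hx'
      have ht := (isTangencyPoint_iff k x' y).2 ⟨h1, θ, h2, rfl⟩
      have h4 : Nz i x' = 4 := by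
        rw [hx', Nz_move]
        have h5 := Nz_move k i y (-1 * θ)
        rw [← h3, show Nz i x = 4 from hx.2] at h5
        rw [h5]
        ring
      refine ⟨x', ⟨mem_compl_of h4, h4⟩, ?_⟩
      rw [outerBilliard_eq k ht, hx', h3, two_smul, neg_one_mul, neg_div, neg_smul]
      abel

theorem existsUnique_tangency (k : Fin m) (x : Sym m) (hx : x ∈ (Body (fo k))ᶜ) :
    ∃! y, IsTangencyPoint (Body (fo k)) x y := by
  have hx1 : 1 < fo k x := by
    have : ¬ fo k x ≤ 1 := hx
    linarith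
  obtain ⟨y, θ, h1, h2, h3⟩ := exists_pt k x hx1 1 (by norm_num)
  rw [one_mul] at h3
  have ht := (isTangencyPoint_iff k x y).2 ⟨h1, θ, h2, h3⟩
  exact ⟨y, ht, fun y' h' => tangency_unique k h' ht⟩

/-- Q2 -/
theorem q2 (m : ℕ) (hm : 2 ≤ m) : ∃ K : Set (Sym m), IsTable K ∧ ¬ IsEllipsoid K ∧
    (∀ x ∈ Kᶜ, ∃! y, IsTangencyPoint K x y) ∧
    ∃ S : Set (Sym m), IsOuterInvariantHypersurface K S := by
  have hne : (⟨0, by omega⟩ : Fin m) ≠ ⟨1, hm⟩ := by simp
  exact ⟨Body (fo ⟨1, hm⟩), (goodo _).isTable, not_ello hne, existsUnique_tangency _,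
    So ⟨0, by omega⟩ ⟨1, hm⟩, isOuterInvariant _ _⟩

end Pool.Agent.H703R3.MB
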