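import Pool.Agent.H703R3.OSDefs

/-!
# The billiard in a round annulus
-/

set_option autoImplicit false

open Set Filter Topology MeasureTheory
open scoped ContDiff Real

namespace Pool.Agent.H703R3.OS

noncomputable section

/-- `exp(i x)`. -/
def E (x : ℝ) : ℂ := Complex.exp (x * Complex.I)

lemma E_add (x y : ℝ) : E (x + y) = E x * E y := by
  simp only [E]; rw [← Complex.exp_add]; congr 1; push_cast; ring

lemma E_zero : E 0 = 1 := by simp [E]

lemma E_neg_mul (x : ℝ) : E (-x) * E x = 1 := by rw [← E_add]; simp [E_zero]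

lemma E_mul_neg (x : ℝ) : E x * E (-x) = 1 := by rw [← E_add]; simp [E_zero]

lemma norm_E (x : ℝ) : ‖E x‖ = 1 := Complex.norm_exp_ofReal_mul_I x

lemma E_ne (x : ℝ) : E x ≠ 0 := Complex.exp_ne_zero _

lemma E_re (x : ℝ) : (E x).re = Real.cos x := Complex.exp_ofReal_mul_I_re x

lemma E_im (x : ℝ) : (E x).im = Real.sin x := Complex.exp_ofReal_mul_I_im x

lemma E_eq (x : ℝ) : E x = Real.cos x + Real.sin x * Complex.I := by
  simp only [E, Complex.exp_mul_I, Complex.ofReal_cos, Complex.ofReal_sin]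

lemma E_add_neg (x : ℝ) : E x + E (-x) = 2 * Real.cos x := by
  rw [E_eq, E_eq]; simp; ring

lemma conj_E (x : ℝ) : (starRingEnd ℂ) (E x) = E (-x) := by
  apply Complex.ext <;> simp [E_re, E_im]

lemma E_eq_E_iff (x y : ℝ) : E x = E y ↔ ∃ n : ℤ, x = y + n * (2 * π) := by
  simp only [E]
  rw [Complex.exp_eq_exp_iff_exists_int]
  constructor
  · rintro ⟨n, hn⟩
    refine ⟨n, ?_⟩
    have h1 : (x : ℂ) * Complex.I = ((y + n * (2 * π) : ℝ) : ℂ) * Complex.I := by
      rw [hn]; push_cast; ring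
    have h2 := mul_right_cancel₀ Complex.I_ne_zero h1
    exact_mod_cast h2
  · rintro ⟨n, hn⟩
    refine ⟨n, ?_⟩
    rw [hn]; push_cast; ring

lemma exists_E (z : ℂ) (hz : ‖z‖ = 1) : ∃ x : ℝ, z = E x := by
  refine ⟨z.arg, ?_⟩
  have h := Complex.norm_mul_exp_arg_mul_I z
  rw [hz] at h
  simpa [E] using h.symm

/-- The annulus `1/2 ≤ |z| ≤ 1`. -/
def ann : Set ℂ := {z | 1 / 2 ≤ ‖z‖ ∧ ‖z‖ ≤ 1}

/-- The two boundary circles. -/
def annγ : Fin 2 → ℝ → ℂ := ![fun r => E r, fun r => (1 / 2 : ℂ) * E (-(2 * r))]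

/-- Their lengths. -/
def annL : Fin 2 → ℝ := ![2 * π, π]

lemma γ0 (r : ℝ) : annγ 0 r = E r := rfl

lemma γ1 (r : ℝ) : annγ 1 r = (1 / 2 : ℂ) * E (-(2 * r)) := rfl

lemma interior_ann : interior ann = {z | 1 / 2 < ‖z‖ ∧ ‖z‖ < 1} := by
  have h1 : ann = (Metric.ball (0 : ℂ) (1 / 2))ᶜ ∩ Metric.closedBall (0 : ℂ) 1 := by
    ext z; simp [ann]
  rw [h1, interior_inter, interior_compl, closure_ball _ (by norm_num),
    interior_closedBall _ (by norm_num)]
  ext z; simp

lemma isClosed_ann : IsClosed ann := by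
  have : ann = {z : ℂ | 1 / 2 ≤ ‖z‖} ∩ {z | ‖z‖ ≤ 1} := by ext z; simp [ann]
  rw [this]
  exact (isClosed_le continuous_const continuous_norm).inter
    (isClosed_le continuous_norm continuous_const)

lemma isCompact_ann : IsCompact ann := by
  refine Metric.isCompact_of_isClosed_isBounded isClosed_ann ?_
  refine (Metric.isBounded_closedBall (x := (0 : ℂ)) (r := 1)).subset ?_
  intro z hz
  simpa using hz.2

lemma isConnected_interior_ann : IsConnected (interior ann) := by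
  rw [interior_ann]
  have h : {z : ℂ | 1 / 2 < ‖z‖ ∧ ‖z‖ < 1} =
      (fun p : ℝ × ℝ => (p.1 : ℂ) * E p.2) '' (Ioo (1 / 2) 1 ×ˢ univ) := by
    ext z
    constructor
    · rintro ⟨h1, h2⟩
      refine ⟨(‖z‖, z.arg), ⟨⟨h1, h2⟩, mem_univ _⟩, ?_⟩
      exact Complex.norm_mul_exp_arg_mul_I z
    · rintro ⟨⟨r, t⟩, ⟨⟨h1, h2⟩, -⟩, rfl⟩
      simp only [Set.mem_ofPred_eq, norm_mul, norm_E, mul_one, Complex.norm_real, Real.norm_eq_abs]
      rw [abs_of_pos (by linarith)]
      exact ⟨h1, h2⟩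
  rw [h]
  refine IsConnected.image ?_ _ ?_
  · exact (isConnected_Ioo (by norm_num)).prod isConnected_univ
  · apply Continuous.continuousOn
    unfold E
    fun_prop

lemma closure_interior_ann : closure (interior ann) = ann := by
  apply Subset.antisymm
  · exact closure_minimal interior_subset isClosed_ann
  · intro z hz
    rw [interior_ann]
    have hz0 : 0 < ‖z‖ := by have := hz.1; linarith
    have h1 : ‖z‖ ∈ closure (Ioo (1 / 2 : ℝ) 1) := by
      rw [closure_Ioo (by norm_num)]; exact hz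
    have h2 : (fun t : ℝ => (t : ℂ) * (z / ‖z‖)) ‖z‖ ∈
        closure {z : ℂ | 1 / 2 < ‖z‖ ∧ ‖z‖ < 1} := by
      refine map_mem_closure (f := fun t : ℝ => (t : ℂ) * (z / ‖z‖)) (by fun_prop) h1 ?_
      intro t ht
      have ht0 : 0 < t := by have := ht.1; linarith
      simp only [Set.mem_ofPred_eq, norm_mul, norm_div, Complex.norm_real, Real.norm_eq_abs, abs_norm,
        div_self hz0.ne', mul_one, abs_of_pos ht0]
      exact ht
    have h3 : (fun t : ℝ => (t : ℂ) * (z / ‖z‖)) ‖z‖ = z := by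
      have : (‖z‖ : ℂ) ≠ 0 := by exact_mod_cast hz0.ne'
      simp only
      field_simp
    rwa [h3] at h2

lemma hasDerivAt_E (r : ℝ) : HasDerivAt E (Complex.I * E r) r := by
  have h1 : HasDerivAt (fun x : ℝ => (x : ℂ) * Complex.I) (Complex.I) r := by
    simpa using (Complex.ofRealCLM.hasDerivAt (x := r)).mul_const Complex.I
  have h2 := h1.cexp
  simp only [E]
  rw [mul_comm]
  exact h2

lemma deriv_γ0 (r : ℝ) : deriv (annγ 0) r = Complex.I * E r := (hasDerivAt_E r).deriv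

lemma deriv_γ1 (r : ℝ) : deriv (annγ 1) r = -(Complex.I * E (-(2 * r))) := by
  have h1 : HasDerivAt (fun x : ℝ => -(2 * x)) (-2) r := by
    have h0 : HasDerivAt (fun x : ℝ => 2 * x) 2 r := by
      simpa using (hasDerivAt_id r).const_mul 2
    exact h0.neg
  have h2 := (HasDerivAt.scomp r (hasDerivAt_E (-(2 * r))) h1).const_mul (1 / 2 : ℂ)
  have h3 : HasDerivAt (annγ 1) ((1 / 2 : ℂ) * ((-2 : ℝ) • (Complex.I * E (-(2 * r))))) r := h2
  rw [h3.deriv, Complex.real_smul]
  push_cast; ring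

lemma normal_γ0 (r : ℝ) : Complex.I * deriv (annγ 0) r = - E r := by
  rw [deriv_γ0, ← mul_assoc, Complex.I_mul_I]; ring

lemma normal_γ1 (r : ℝ) : Complex.I * deriv (annγ 1) r = E (-(2 * r)) := by
  rw [deriv_γ1, mul_neg, ← mul_assoc, Complex.I_mul_I]; ring

lemma contDiff_E : ContDiff ℝ ∞ E := by
  unfold E
  exact (Complex.ofRealCLM.contDiff.mul contDiff_const).cexp

lemma norm_γ0 (r : ℝ) : ‖annγ 0 r‖ = 1 := norm_E r

lemma norm_γ1 (r : ℝ) : ‖annγ 1 r‖ = 1 / 2 := by
  rw [γ1, norm_mul, norm_E]; norm_num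

lemma frontier_ann : frontier ann = ⋃ i, range (annγ i) := by
  have h : frontier ann = {z | ‖z‖ = 1 ∨ ‖z‖ = 1 / 2} := by
    rw [frontier, isClosed_ann.closure_eq, interior_ann]
    ext z
    simp only [ann, Set.mem_sdiff, Set.mem_ofPred_eq, not_and, not_lt]
    constructor
    · rintro ⟨⟨h1, h2⟩, h3⟩
      rcases h1.lt_or_eq with h | h
      · left; exact le_antisymm h2 (h3 h)
      · right; exact h.symm
    · rintro (h | h)
      · rw [h]; norm_num
      · rw [h]; norm_num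
  rw [h]
  ext z
  simp only [Set.mem_ofPred_eq, mem_iUnion, mem_range, Fin.exists_fin_two]
  constructor
  · rintro (h | h)
    · left
      obtain ⟨x, hx⟩ := exists_E z h
      exact ⟨x, hx.symm⟩
    · right
      obtain ⟨x, hx⟩ := exists_E (2 * z) (by rw [norm_mul, h]; norm_num)
      refine ⟨-x / 2, ?_⟩
      rw [γ1]
      have : -(2 * (-x / 2)) = x := by ring
      rw [this, ← hx]; ring
  · rintro (⟨x, rfl⟩ | ⟨x, rfl⟩)
    · left; exact norm_γ0 x
    · right; exact norm_γ1 x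

lemma isSmoothTable_ann : IsSmoothTable ann annγ annL where
  isCompact := isCompact_ann
  isConnected := isConnected_interior_ann
  closure_interior := closure_interior_ann
  pos i := by
    fin_cases i
    · exact Real.two_pi_pos
    · exact Real.pi_pos
  smooth i := by
    fin_cases i
    · exact contDiff_E
    · exact contDiff_const.mul (contDiff_E.comp (contDiff_const.mul contDiff_id).neg)
  unit i r := by
    fin_cases i
    · change ‖deriv (annγ 0) r‖ = 1
      rw [deriv_γ0, norm_mul, norm_E]; simp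
    · change ‖deriv (annγ 1) r‖ = 1
      rw [deriv_γ1, norm_neg, norm_mul, norm_E]; simp
  periodic i r := by
    fin_cases i
    · change E (r + 2 * π) = E r
      rw [E_eq_E_iff]
      exact ⟨1, by push_cast; ring⟩
    · change (1 / 2 : ℂ) * E (-(2 * (r + π))) = (1 / 2 : ℂ) * E (-(2 * r))
      congr 1
      rw [E_eq_E_iff]
      exact ⟨-1, by push_cast; ring⟩
  simple i j r s h := by
    fin_cases i <;> fin_cases j
    · refine ⟨rfl, ?_⟩
      change E r = E s at h
      obtain ⟨n, hn⟩ := (E_eq_E_iff s r).1 h.symm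
      exact ⟨n, hn⟩
    · exfalso
      have h' : annγ 0 r = annγ 1 s := h
      have := norm_γ0 r
      rw [h', norm_γ1] at this
      norm_num at this
    · exfalso
      have h' : annγ 1 r = annγ 0 s := h
      have := norm_γ1 r
      rw [h', norm_γ0] at this
      norm_num at this
    · refine ⟨rfl, ?_⟩
      change (1 / 2 : ℂ) * E (-(2 * r)) = (1 / 2 : ℂ) * E (-(2 * s)) at h
      have h1 : E (-(2 * r)) = E (-(2 * s)) := mul_left_cancel₀ (by norm_num) h
      obtain ⟨n, hn⟩ := (E_eq_E_iff _ _).1 h1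
      refine ⟨n, ?_⟩
      change s = r + n * π
      linarith
  boundary := frontier_ann
  left i r := by
    rw [interior_ann]
    fin_cases i
    · change ∀ᶠ t : ℝ in 𝓝[>] 0, annγ 0 r + t * (Complex.I * deriv (annγ 0) r) ∈
        {z : ℂ | 1 / 2 < ‖z‖ ∧ ‖z‖ < 1}
      filter_upwards [Ioo_mem_nhdsGT (show (0 : ℝ) < 1 / 2 by norm_num)] with t ht
      rw [normal_γ0, γ0]
      have : E r + (t : ℂ) * -E r = ((1 - t : ℝ) : ℂ) * E r := by push_cast; ring
      rw [this]
      simp only [norm_mul, norm_E, mul_one, Complex.norm_real, Real.norm_eq_abs]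
      rw [abs_of_pos (by linarith [ht.2])]
      exact ⟨by linarith [ht.2], by linarith [ht.1]⟩
    · change ∀ᶠ t : ℝ in 𝓝[>] 0, annγ 1 r + t * (Complex.I * deriv (annγ 1) r) ∈
        {z : ℂ | 1 / 2 < ‖z‖ ∧ ‖z‖ < 1}
      filter_upwards [Ioo_mem_nhdsGT (show (0 : ℝ) < 1 / 2 by norm_num)] with t ht
      rw [normal_γ1, γ1]
      have : (1 / 2 : ℂ) * E (-(2 * r)) + (t : ℂ) * E (-(2 * r)) =
        ((1 / 2 + t : ℝ) : ℂ) * E (-(2 * r)) := by push_cast; ring
      rw [this]
      simp only [norm_mul, norm_E, mul_one, Complex.norm_real, Real.norm_eq_abs]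
      rw [abs_of_pos (by linarith [ht.1])]
      exact ⟨by linarith [ht.1], by linarith [ht.2]⟩

/-! ### The billiard map -/

lemma inwardNormal_outer (q : ℂ) (hq : ‖q‖ = 1) : inwardNormal annγ q = -q := by
  obtain ⟨x, rfl⟩ := exists_E q hq
  have h : ∃ n : ℂ, ∃ (i : Fin 2) (r : ℝ), E x = annγ i r ∧ n = Complex.I * deriv (annγ i) r :=
    ⟨_, 0, x, rfl, rfl⟩
  obtain ⟨i, r, h1, h2⟩ := Classical.epsilon_spec h
  have h3 : inwardNormal annγ (E x) = Complex.I * deriv (annγ i) r := h2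
  rw [h3]
  fin_cases i
  · change E x = annγ 0 r at h1
    change Complex.I * deriv (annγ 0) r = -E x
    rw [normal_γ0, h1, γ0]
  · exfalso
    change E x = annγ 1 r at h1
    have := norm_E x
    rw [h1, norm_γ1] at this
    norm_num at this

lemma inwardNormal_inner (q : ℂ) (hq : ‖q‖ = 1 / 2) : inwardNormal annγ q = 2 * q := by
  obtain ⟨x, hx⟩ := exists_E (2 * q) (by rw [norm_mul, hq]; norm_num)
  have hq2 : q = annγ 1 (-x / 2) := by
    rw [γ1]
    have : -(2 * (-x / 2)) = x := by ring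
    rw [this, ← hx]; ring
  have h : ∃ n : ℂ, ∃ (i : Fin 2) (r : ℝ), q = annγ i r ∧ n = Complex.I * deriv (annγ i) r :=
    ⟨_, 1, -x / 2, hq2, rfl⟩
  obtain ⟨i, r, h1, h2⟩ := Classical.epsilon_spec h
  have h3 : inwardNormal annγ q = Complex.I * deriv (annγ i) r := h2
  rw [h3]
  fin_cases i
  · exfalso
    change q = annγ 0 r at h1
    have := norm_γ0 r
    rw [← h1, hq] at this
    norm_num at this
  · change q = annγ 1 r at h1
    change Complex.I * deriv (annγ 1) r = 2 * q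
    rw [normal_γ1, h1, γ1]; ring

lemma hitTime_eq {Q : Set ℂ} {x : ℂ × ℂ} {τ : ℝ} (hτ : 0 < τ)
    (h1 : ∀ t : ℝ, 0 < t → t < τ → x.1 + t * x.2 ∈ interior Q)
    (h2 : x.1 + τ * x.2 ∉ interior Q) : hitTime Q x = τ := by
  apply le_antisymm
  · exact csInf_le ⟨0, fun t ht => ht.1.le⟩ ⟨hτ, h2⟩
  · refine le_csInf ⟨τ, hτ, h2⟩ ?_
    rintro t ⟨ht0, ht⟩
    by_contra hlt
    exact ht (h1 t ht0 (not_le.1 hlt))

lemma mem_interior_iff (z : ℂ) : z ∈ interior ann ↔ 1 / 4 < Complex.normSq z ∧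
    Complex.normSq z < 1 := by
  rw [interior_ann, Complex.normSq_eq_norm_sq]
  simp only [Set.mem_ofPred_eq]
  have h0 := norm_nonneg z
  constructor
  · rintro ⟨h1, h2⟩
    constructor <;> nlinarith
  · rintro ⟨h1, h2⟩
    constructor
    · by_contra h
      have h' := not_lt.1 h
      nlinarith
    · by_contra h
      have h' := not_lt.1 h
      nlinarith

/-- The outer phase point at `E a` with angle `φ`. -/
def X0 (q : ℂ) (φ : ℝ) : ℂ × ℂ := (q, -(q * E φ))

/-- The inner phase point at `q / 2` with angle `ψ`. -/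
def X1 (q : ℂ) (ψ : ℝ) : ℂ × ℂ := ((1 / 2 : ℂ) * q, q * E ψ)

lemma pt_zero (a : ℝ × ℝ) : pt annγ 0 a = X0 (E a.1) a.2 := by
  simp only [pt, X0, normal_γ0, γ0, E]
  rw [neg_mul]

lemma pt_one (a : ℝ × ℝ) : pt annγ 1 a = X1 (E (-(2 * a.1))) a.2 := by
  simp only [pt, X1, normal_γ1, γ1, E]

lemma normSq_of_norm_one {q : ℂ} (hq : ‖q‖ = 1) : Complex.normSq q = 1 := by
  rw [Complex.normSq_eq_norm_sq, hq]; norm_num

lemma sq_cos (x : ℝ) : Real.cos x ^ 2 = 1 - Real.sin x ^ 2 := by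
  have := Real.sin_sq_add_cos_sq x; linarith

lemma T_X0 {q : ℂ} {φ A : ℝ} (hq : ‖q‖ = 1) (hφ : 0 < Real.cos φ) (hA : 0 < Real.cos A)
    (h : Real.sin A = 2 * Real.sin φ) : T ann annγ (X0 q φ) = X1 (q * E (φ - A)) (-A) := by
  have hk : Real.cos φ ^ 2 = 3 / 4 + Real.cos A ^ 2 / 4 := by
    have hs1 := sq_cos φ
    have hs2 := sq_cos A
    rw [h] at hs2
    nlinarith
  have hτ : 0 < Real.cos φ - Real.cos A / 2 := by
    have : (Real.cos A / 2) ^ 2 < Real.cos φ ^ 2 := by nlinarith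
    have := abs_lt_of_sq_lt_sq this hφ.le
    rw [abs_of_pos (by linarith)] at this
    linarith
  have hline : ∀ t : ℝ, (X0 q φ).1 + t * (X0 q φ).2 = q * ((1 : ℂ) - t * E φ) := by
    intro t; simp only [X0]; ring
  have hns : ∀ t : ℝ, Complex.normSq (q * ((1 : ℂ) - t * E φ)) =
      1 - 2 * t * Real.cos φ + t ^ 2 := by
    intro t
    rw [Complex.normSq_mul, normSq_of_norm_one hq, Complex.normSq_apply]
    simp [E_re, E_im]
    nlinarith [Real.sin_sq_add_cos_sq φ]
  have hhit : hitTime ann (X0 q φ) = Real.cos φ - Real.cos A / 2 := by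
    apply hitTime_eq hτ
    · intro t h0 h1
      rw [hline, mem_interior_iff, hns]
      constructor
      · have : 0 < (t - (Real.cos φ - Real.cos A / 2)) * (t - (Real.cos φ + Real.cos A / 2)) :=
          mul_pos_of_neg_of_neg (by linarith) (by linarith)
        nlinarith
      · nlinarith
    · rw [hline, mem_interior_iff, hns]
      intro hc
      nlinarith [hc.1]
  have hkey : (1 : ℂ) - ((Real.cos φ - Real.cos A / 2 : ℝ) : ℂ) * E φ =
      (1 / 2 : ℂ) * E (φ - A) := by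
    have h1 : (1 : ℂ) = E φ * E (-φ) := (E_mul_neg φ).symm
    have h2 : E (-φ) - ((Real.cos φ - Real.cos A / 2 : ℝ) : ℂ) = (1 / 2 : ℂ) * E (-A) := by
      have hh : (1 / 2 : ℂ) = ((1 / 2 : ℝ) : ℂ) := by norm_num
      rw [hh]
      apply Complex.ext
      · rw [Complex.re_ofReal_mul, Complex.sub_re, Complex.ofReal_re, E_re, E_re, Real.cos_neg,
          Real.cos_neg]
        ring
      · rw [Complex.im_ofReal_mul, Complex.sub_im, Complex.ofReal_im, E_im, E_im, Real.sin_neg,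
          Real.sin_neg]
        linarith
    calc (1 : ℂ) - ((Real.cos φ - Real.cos A / 2 : ℝ) : ℂ) * E φ
        = E φ * E (-φ) - ((Real.cos φ - Real.cos A / 2 : ℝ) : ℂ) * E φ := by rw [← h1]
      _ = E φ * (E (-φ) - ((Real.cos φ - Real.cos A / 2 : ℝ) : ℂ)) := by ring
      _ = (1 / 2 : ℂ) * (E φ * E (-A)) := by rw [h2]; ring
      _ = (1 / 2 : ℂ) * E (φ - A) := by rw [← E_add]; rfl
  have hpt : hitPoint ann (X0 q φ) = (1 / 2 : ℂ) * (q * E (φ - A)) := by
    rw [hitPoint, hhit, hline, hkey]; ring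
  have hnorm : ‖(1 / 2 : ℂ) * (q * E (φ - A))‖ = 1 / 2 := by
    rw [norm_mul, norm_mul, hq, norm_E]; norm_num
  have hnor : inwardNormal annγ (hitPoint ann (X0 q φ)) = q * E (φ - A) := by
    rw [hpt, inwardNormal_inner _ hnorm]; ring
  have hqc : (starRingEnd ℂ) q * q = 1 := by
    rw [mul_comm, Complex.mul_conj, normSq_of_norm_one hq]; simp
  have hv : (X0 q φ).2 = -(q * E (φ - A) * E A) := by
    simp only [X0]
    rw [mul_assoc, ← E_add]
    congr 3; ring
  have hin : (starRingEnd ℂ (q * E (φ - A)) * (X0 q φ).2).re = - Real.cos A := by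
    rw [hv, map_mul, conj_E]
    have : (starRingEnd ℂ) q * E (-(φ - A)) * -(q * E (φ - A) * E A) =
        -(((starRingEnd ℂ) q * q) * (E (-(φ - A)) * E (φ - A)) * E A) := by ring
    rw [this, hqc, E_neg_mul]
    simp [E_re]
  apply Prod.ext
  · simp only [T, X1]
    rw [hpt]
  · simp only [T]
    rw [hnor, hin, hv]
    simp only [X1]
    have := E_add_neg A
    have h3 : (E (-A) : ℂ) = 2 * Real.cos A - E A := by rw [← this]; ring
    rw [h3]
    push_cast
    ring

lemma T_X1 {q : ℂ} {ψ B : ℝ} (hq : ‖q‖ = 1) (hψ : 0 < Real.cos ψ) (hB : 0 < Real.cos B)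
    (h : Real.sin ψ = 2 * Real.sin B) : T ann annγ (X1 q ψ) = X0 (q * E (ψ - B)) (-B) := by
  have hk : Real.cos B ^ 2 = 3 / 4 + Real.cos ψ ^ 2 / 4 := by
    have hs1 := sq_cos ψ
    have hs2 := sq_cos B
    rw [h] at hs1
    nlinarith
  have hτ : 0 < Real.cos B - Real.cos ψ / 2 := by
    have : (Real.cos ψ / 2) ^ 2 < Real.cos B ^ 2 := by nlinarith
    have := abs_lt_of_sq_lt_sq this hB.le
    rw [abs_of_pos (by linarith)] at this
    linarith
  have hline : ∀ t : ℝ, (X1 q ψ).1 + t * (X1 q ψ).2 = q * ((1 / 2 : ℂ) + t * E ψ) := by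
    intro t; simp only [X1]; ring
  have hns : ∀ t : ℝ, Complex.normSq (q * ((1 / 2 : ℂ) + t * E ψ)) =
      1 / 4 + t * Real.cos ψ + t ^ 2 := by
    intro t
    rw [Complex.normSq_mul, normSq_of_norm_one hq, Complex.normSq_apply]
    simp [E_re, E_im]
    nlinarith [Real.sin_sq_add_cos_sq ψ]
  have hhit : hitTime ann (X1 q ψ) = Real.cos B - Real.cos ψ / 2 := by
    apply hitTime_eq hτ
    · intro t h0 h1
      rw [hline, mem_interior_iff, hns]
      constructor
      · nlinarith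
      · have : (t - (Real.cos B - Real.cos ψ / 2)) * (t + (Real.cos B + Real.cos ψ / 2)) < 0 :=
          mul_neg_of_neg_of_pos (by linarith) (by linarith)
        nlinarith
    · rw [hline, mem_interior_iff, hns]
      intro hc
      nlinarith [hc.2]
  have hkey : (1 / 2 : ℂ) + ((Real.cos B - Real.cos ψ / 2 : ℝ) : ℂ) * E ψ = E (ψ - B) := by
    have h1 : (1 : ℂ) = E ψ * E (-ψ) := (E_mul_neg ψ).symm
    have h2 : (1 / 2 : ℂ) * E (-ψ) + ((Real.cos B - Real.cos ψ / 2 : ℝ) : ℂ) = E (-B) := by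
      have hh : (1 / 2 : ℂ) = ((1 / 2 : ℝ) : ℂ) := by norm_num
      rw [hh]
      apply Complex.ext
      · rw [Complex.add_re, Complex.re_ofReal_mul, Complex.ofReal_re, E_re, E_re, Real.cos_neg,
          Real.cos_neg]
        ring
      · rw [Complex.add_im, Complex.im_ofReal_mul, Complex.ofReal_im, E_im, E_im, Real.sin_neg,
          Real.sin_neg]
        linarith
    calc (1 / 2 : ℂ) + ((Real.cos B - Real.cos ψ / 2 : ℝ) : ℂ) * E ψ
        = (1 / 2 : ℂ) * (E ψ * E (-ψ)) + ((Real.cos B - Real.cos ψ / 2 : ℝ) : ℂ) * E ψ := by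
          rw [← h1]; ring
      _ = E ψ * ((1 / 2 : ℂ) * E (-ψ) + ((Real.cos B - Real.cos ψ / 2 : ℝ) : ℂ)) := by ring
      _ = E ψ * E (-B) := by rw [h2]
      _ = E (ψ - B) := by rw [← E_add]; rfl
  have hpt : hitPoint ann (X1 q ψ) = q * E (ψ - B) := by
    rw [hitPoint, hhit, hline, hkey]
  have hnorm : ‖q * E (ψ - B)‖ = 1 := by
    rw [norm_mul, hq, norm_E]; norm_num
  have hnor : inwardNormal annγ (hitPoint ann (X1 q ψ)) = -(q * E (ψ - B)) := by
    rw [hpt, inwardNormal_outer _ hnorm]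
  have hqc : (starRingEnd ℂ) q * q = 1 := by
    rw [mul_comm, Complex.mul_conj, normSq_of_norm_one hq]; simp
  have hv : (X1 q ψ).2 = q * E (ψ - B) * E B := by
    simp only [X1]
    rw [mul_assoc, ← E_add]
    congr 2; ring
  have hin : (starRingEnd ℂ (-(q * E (ψ - B))) * (X1 q ψ).2).re = - Real.cos B := by
    rw [hv, map_neg, map_mul, conj_E]
    have : -((starRingEnd ℂ) q * E (-(ψ - B))) * (q * E (ψ - B) * E B) =
        -(((starRingEnd ℂ) q * q) * (E (-(ψ - B)) * E (ψ - B)) * E B) := by ring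
    rw [this, hqc, E_neg_mul]
    simp [E_re]
  apply Prod.ext
  · simp only [T, X0]
    rw [hpt]
  · simp only [T]
    rw [hnor, hin, hv]
    simp only [X0]
    have := E_add_neg B
    have h3 : (E (-B) : ℂ) = 2 * Real.cos B - E B := by rw [← this]; ring
    rw [h3]
    push_cast
    ring

end

end Pool.Agent.H703R3.OS
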