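import Mathlib

/-!
# Billiard tables without corners, the billiard map, invariant measures, Oseledets integrability
-/

set_option autoImplicit false

open Set Filter Topology MeasureTheory
open scoped ContDiff ENNReal

namespace Pool.Agent.H703R3.OS

/-- `Q` is a billiard table without corners (in particular without cusps): `Q` is the compact closure
of a connected open subset of the plane `ℂ`, and its boundary is the union of finitely many pairwise
disjoint simple closed `C^∞` curves `γ i`, parametrised by arclength with length `L i` and such that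
`Q` lies to their left; so `I * deriv (γ i) r` is the inward unit normal at `γ i r`. -/
structure IsSmoothTable (Q : Set ℂ) {k : ℕ} (γ : Fin k → ℝ → ℂ) (L : Fin k → ℝ) : Prop where
  isCompact : IsCompact Q
  isConnected : IsConnected (interior Q)
  closure_interior : closure (interior Q) = Q
  pos : ∀ i, 0 < L i
  smooth : ∀ i, ContDiff ℝ ∞ (γ i)
  unit : ∀ i r, ‖deriv (γ i) r‖ = 1
  periodic : ∀ i r, γ i (r + L i) = γ i r
  simple : ∀ i j r s, γ i r = γ j s → i = j ∧ ∃ n : ℤ, s = r + n * L i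
  boundary : frontier Q = ⋃ i, range (γ i)
  left : ∀ i r, ∀ᶠ t : ℝ in 𝓝[>] 0, γ i r + t * (Complex.I * deriv (γ i) r) ∈ interior Q

variable {k : ℕ}

/-- The phase point with coordinates `(r, φ)` on the `i`-th boundary component: base point `γ i r`,
unit velocity making the angle `φ` with the inward normal. -/
noncomputable def pt (γ : Fin k → ℝ → ℂ) (i : Fin k) (a : ℝ × ℝ) : ℂ × ℂ :=
  (γ i a.1, Complex.I * deriv (γ i) a.1 * Complex.exp (a.2 * Complex.I))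

/-- The phase space: `r` arbitrary, `φ ∈ [-π/2, π/2]`. -/
def Phase (γ : Fin k → ℝ → ℂ) : Set (ℂ × ℂ) :=
  {x | ∃ (i : Fin k) (a : ℝ × ℝ), |a.2| ≤ Real.pi / 2 ∧ x = pt γ i a}

/-- The phase points that are not tangent to the boundary, `φ ∈ (-π/2, π/2)`. -/
def Transversal (γ : Fin k → ℝ → ℂ) : Set (ℂ × ℂ) :=
  {x | ∃ (i : Fin k) (a : ℝ × ℝ), |a.2| < Real.pi / 2 ∧ x = pt γ i a}

/-- The time of the next collision. -/
noncomputable def hitTime (Q : Set ℂ) (x : ℂ × ℂ) : ℝ :=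
  sInf {t : ℝ | 0 < t ∧ x.1 + t * x.2 ∉ interior Q}

/-- The point of the next collision. -/
noncomputable def hitPoint (Q : Set ℂ) (x : ℂ × ℂ) : ℂ := x.1 + hitTime Q x * x.2

/-- The inward unit normal at a boundary point. -/
noncomputable def inwardNormal (γ : Fin k → ℝ → ℂ) (q : ℂ) : ℂ :=
  Classical.epsilon fun n => ∃ (i : Fin k) (r : ℝ), q = γ i r ∧ n = Complex.I * deriv (γ i) r

/-- The billiard map: fly to the next collision point and reflect the velocity `v` elastically,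
`v ↦ v - 2 ⟨v, n⟩ n`. -/
noncomputable def T (Q : Set ℂ) (γ : Fin k → ℝ → ℂ) (x : ℂ × ℂ) : ℂ × ℂ :=
  (hitPoint Q x, x.2 - 2 * ((starRingEnd ℂ (inwardNormal γ (hitPoint Q x)) * x.2).re : ℂ) *
    inwardNormal γ (hitPoint Q x))

/-- The points whose entire orbit `(o n), n ∈ ℤ`, avoids the singular set: since there are no
corners, this means that no collision of the orbit is tangential. -/
def Regular (Q : Set ℂ) (γ : Fin k → ℝ → ℂ) : Set (ℂ × ℂ) :=
  {x | ∃ o : ℤ → ℂ × ℂ, o 0 = x ∧ ∀ n, o n ∈ Transversal γ ∧ o (n + 1) = T Q γ (o n)}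

/-- `μ` is an invariant probability measure of the billiard map: it is carried by the phase space,
gives full mass to the points whose entire orbit avoids the singular set, and `T_* μ = μ`. -/
structure IsInvariantProb (Q : Set ℂ) (γ : Fin k → ℝ → ℂ) (μ : Measure (ℂ × ℂ)) : Prop where
  prob : IsProbabilityMeasure μ
  phase : μ (Phase γ)ᶜ = 0
  regular : μ (Regular Q γ)ᶜ = 0
  aemeasurable : AEMeasurable (T Q γ) μ
  invariant : μ.map (T Q γ) = μ

/-- `μ` gives zero mass to the set of periodic points. -/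
def NonPeriodic (Q : Set ℂ) (γ : Fin k → ℝ → ℂ) (μ : Measure (ℂ × ℂ)) : Prop :=
  μ {x | ∃ n : ℕ, 1 ≤ n ∧ (T Q γ)^[n] x = x} = 0

/-- `A` is the derivative `D_x T` in the coordinates `(r, φ)`. -/
def HasCoordDeriv (Q : Set ℂ) (γ : Fin k → ℝ → ℂ) (x : ℂ × ℂ) (A : ℝ × ℝ →L[ℝ] ℝ × ℝ) : Prop :=
  ∃ (i j : Fin k) (a : ℝ × ℝ) (F : ℝ × ℝ → ℝ × ℝ), x = pt γ i a ∧ |a.2| < Real.pi / 2 ∧
    |(F a).2| < Real.pi / 2 ∧ (∀ᶠ b in 𝓝 a, T Q γ (pt γ i b) = pt γ j (F b)) ∧ HasFDerivAt F A a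

/-- `A` is the derivative `D_x T⁻¹` in the coordinates `(r, φ)`. -/
def HasCoordDerivInv (Q : Set ℂ) (γ : Fin k → ℝ → ℂ) (x : ℂ × ℂ) (A : ℝ × ℝ →L[ℝ] ℝ × ℝ) : Prop :=
  ∃ (y : ℂ × ℂ) (B : ℝ × ℝ →L[ℝ] ℝ × ℝ), T Q γ y = x ∧ HasCoordDeriv Q γ y B ∧
    B.comp A = ContinuousLinearMap.id ℝ (ℝ × ℝ) ∧ A.comp B = ContinuousLinearMap.id ℝ (ℝ × ℝ)

/-- `log⁺ ‖D_x T‖` (with the value `0` where `T` is not differentiable). -/
noncomputable def logDT (Q : Set ℂ) (γ : Fin k → ℝ → ℂ) (x : ℂ × ℂ) : ℝ≥0∞ :=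
  ⨆ (A : ℝ × ℝ →L[ℝ] ℝ × ℝ) (_ : HasCoordDeriv Q γ x A), ENNReal.ofReal (Real.posLog ‖A‖)

/-- `log⁺ ‖D_x T⁻¹‖` (with the value `0` where `T⁻¹` is not differentiable). -/
noncomputable def logDTinv (Q : Set ℂ) (γ : Fin k → ℝ → ℂ) (x : ℂ × ℂ) : ℝ≥0∞ :=
  ⨆ (A : ℝ × ℝ →L[ℝ] ℝ × ℝ) (_ : HasCoordDerivInv Q γ x A), ENNReal.ofReal (Real.posLog ‖A‖)

/-- The Oseledets integrability condition: `∫ log⁺ ‖D_x T‖ dμ < ∞` and `∫ log⁺ ‖D_x T⁻¹‖ dμ < ∞`. -/
def OseledetsIntegrable (Q : Set ℂ) (γ : Fin k → ℝ → ℂ) (μ : Measure (ℂ × ℂ)) : Prop :=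
  ∫⁻ x, logDT Q γ x ∂μ < ⊤ ∧ ∫⁻ x, logDTinv Q γ x ∂μ < ⊤

end Pool.Agent.H703R3.OS
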