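import Pool.Agent.H703R3.OSAnnulus

/-!
# Quasi-periodic tori of the annulus billiard and their measures
-/

set_option autoImplicit false

open Set Filter Topology MeasureTheory
open scoped ContDiff Real

namespace Pool.Agent.H703R3.OS

noncomputable section

/-- The data of an invariant torus with irrational rotation. -/
structure Torus where
  φ : ℝ
  β : ℝ
  hφ : |φ| < π / 2
  hβ : |β| < π / 2
  hs : Real.sin β = 2 * Real.sin φ
  irr : Irrational ((β - φ) / π)

lemma Torus.cosφ (t : Torus) : 0 < Real.cos t.φ :=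
  Real.cos_pos_of_mem_Ioo ⟨by linarith [(abs_lt.1 t.hφ).1], (abs_lt.1 t.hφ).2⟩

lemma Torus.cosβ (t : Torus) : 0 < Real.cos t.β :=
  Real.cos_pos_of_mem_Ioo ⟨by linarith [(abs_lt.1 t.hβ).1], (abs_lt.1 t.hβ).2⟩

/-- The two circles of which the torus consists. -/
def P (t : Torus) (b : Bool) (q : ℂ) : ℂ × ℂ := if b then X0 q t.φ else X1 q (-t.β)

lemma P_true (t : Torus) (q : ℂ) : P t true q = X0 q t.φ := rfl

lemma P_false (t : Torus) (q : ℂ) : P t false q = X1 q (-t.β) := rfl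

lemma continuous_P (t : Torus) (b : Bool) : Continuous (P t b) := by
  cases b
  · change Continuous (fun q => X1 q (-t.β))
    unfold X1; fun_prop
  · change Continuous (fun q => X0 q t.φ)
    unfold X0; fun_prop

lemma T_P (t : Torus) (b : Bool) {q : ℂ} (hq : ‖q‖ = 1) :
    T ann annγ (P t b q) = P t (!b) (q * E (t.φ - t.β)) := by
  cases b
  · change T ann annγ (X1 q (-t.β)) = X0 (q * E (t.φ - t.β)) t.φ
    rw [T_X1 (B := -t.φ) hq (by rw [Real.cos_neg]; exact t.cosβ)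
      (by rw [Real.cos_neg]; exact t.cosφ) (by rw [Real.sin_neg, Real.sin_neg, t.hs]; ring)]
    rw [neg_neg]
    congr 3
    ring
  · change T ann annγ (X0 q t.φ) = X1 (q * E (t.φ - t.β)) (-t.β)
    exact T_X0 hq t.cosφ t.cosβ t.hs

lemma norm_mul_E {q : ℂ} (hq : ‖q‖ = 1) (x : ℝ) : ‖q * E x‖ = 1 := by
  rw [norm_mul, hq, norm_E]; norm_num

lemma T_iter (t : Torus) (b : Bool) {q : ℂ} (hq : ‖q‖ = 1) (n : ℕ) :
    (T ann annγ)^[n] (P t b q) = P t (if Even n then b else !b) (q * E (n * (t.φ - t.β))) := by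
  induction n with
  | zero => simp [E_zero]
  | succ n ih =>
    rw [Function.iterate_succ_apply', ih, T_P t _ (norm_mul_E hq _)]
    have h1 : (!(if Even n then b else !b)) = (if Even (n + 1) then b else !b) := by
      by_cases h : Even n
      · simp [h, Nat.even_add_one]
      · simp [h, Nat.even_add_one]
    have h2 : q * E (n * (t.φ - t.β)) * E (t.φ - t.β) = q * E ((n + 1 : ℕ) * (t.φ - t.β)) := by
      rw [mul_assoc, ← E_add]
      congr 2; push_cast; ring
    rw [h1, h2]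

lemma norm_P_fst (t : Torus) (b : Bool) {q : ℂ} (hq : ‖q‖ = 1) :
    ‖(P t b q).1‖ = if b then 1 else 1 / 2 := by
  cases b
  · change ‖(1 / 2 : ℂ) * q‖ = _
    rw [norm_mul, hq]; norm_num
  · change ‖q‖ = _
    rw [hq]; rfl

lemma not_periodic (t : Torus) (b : Bool) {q : ℂ} (hq : ‖q‖ = 1) (n : ℕ) (hn : 1 ≤ n) :
    (T ann annγ)^[n] (P t b q) ≠ P t b q := by
  intro h
  rw [T_iter t b hq n] at h
  have h1 := norm_P_fst t (if Even n then b else !b) (norm_mul_E hq (n * (t.φ - t.β)))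
  rw [h, norm_P_fst t b hq] at h1
  have hev : Even n := by
    by_contra hodd
    rw [if_neg hodd] at h1
    cases b <;> norm_num at h1
  rw [if_pos hev] at h
  have h2 : q * E (n * (t.φ - t.β)) = q := by
    cases b
    · have := congrArg Prod.fst h
      change (1 / 2 : ℂ) * (q * E (n * (t.φ - t.β))) = (1 / 2 : ℂ) * q at this
      exact mul_left_cancel₀ (by norm_num) this
    · exact congrArg Prod.fst h
  have hq0 : q ≠ 0 := by
    intro h0; rw [h0] at hq; simp at hq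
  have h3 : E (n * (t.φ - t.β)) = E 0 := by
    rw [E_zero]
    exact mul_left_cancel₀ hq0 (by rw [h2, mul_one])
  obtain ⟨m, hm⟩ := (E_eq_E_iff _ _).1 h3
  have hn0 : (n : ℝ) ≠ 0 := by exact_mod_cast (by omega : n ≠ 0)
  refine t.irr ⟨-(2 * m) / n, ?_⟩
  push_cast
  have hπ := Real.pi_ne_zero
  field_simp
  linarith

lemma P_mem_transversal (t : Torus) (b : Bool) {q : ℂ} (hq : ‖q‖ = 1) :
    P t b q ∈ Transversal annγ := by
  obtain ⟨x, rfl⟩ := exists_E q hq
  cases b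
  · refine ⟨1, (-x / 2, -t.β), ?_, ?_⟩
    · simpa using t.hβ
    · rw [pt_one]
      change X1 (E x) (-t.β) = X1 (E (-(2 * (-x / 2)))) (-t.β)
      congr 2; ring
  · refine ⟨0, (x, t.φ), t.hφ, ?_⟩
    rw [pt_zero]; rfl

lemma transversal_subset_phase {k : ℕ} (γ : Fin k → ℝ → ℂ) : Transversal γ ⊆ Phase γ := by
  rintro x ⟨i, a, h, hx⟩
  exact ⟨i, a, h.le, hx⟩

lemma P_mem_regular (t : Torus) (b : Bool) {q : ℂ} (hq : ‖q‖ = 1) :
    P t b q ∈ Regular ann annγ := by
  refine ⟨fun m => P t (if Even m then b else !b) (q * E (m * (t.φ - t.β))), ?_, ?_⟩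
  · simp [E_zero]
  · intro m
    refine ⟨P_mem_transversal t _ (norm_mul_E hq _), ?_⟩
    simp only
    rw [T_P t _ (norm_mul_E hq _)]
    have h1 : (!(if Even m then b else !b)) = (if Even (m + 1) then b else !b) := by
      by_cases h : Even m
      · simp [h]
      · simp [h]
    have h2 : q * E (m * (t.φ - t.β)) * E (t.φ - t.β) = q * E ((m + 1 : ℤ) * (t.φ - t.β)) := by
      rw [mul_assoc, ← E_add]
      congr 2; push_cast; ring
    rw [h1, h2]

/-! ### The derivative -/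

lemma hasCoordDeriv (t : Torus) (a : ℝ) :
    ∃ A : ℝ × ℝ →L[ℝ] ℝ × ℝ, HasCoordDeriv ann annγ (X0 (E a) t.φ) A ∧
      2 * Real.cos t.φ / Real.cos t.β ≤ ‖A‖ := by
  set D : ℝ := 2 * Real.cos t.φ / Real.cos t.β with hD
  have hβ1 : Real.sin t.β < 1 := by
    have := Real.sin_sq_add_cos_sq t.β
    have h := t.cosβ
    nlinarith
  have hβ2 : -1 < Real.sin t.β := by
    have := Real.sin_sq_add_cos_sq t.β
    have h := t.cosβ
    nlinarith
  have harc : Real.arcsin (2 * Real.sin t.φ) = t.β := by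
    rw [← t.hs, Real.arcsin_sin (by linarith [(abs_lt.1 t.hβ).1]) (abs_lt.1 t.hβ).2.le]
  have hsq : Real.sqrt (1 - (2 * Real.sin t.φ) ^ 2) = Real.cos t.β := by
    rw [← t.hs]
    exact (Real.cos_eq_sqrt_one_sub_sin_sq (by linarith [(abs_lt.1 t.hβ).1])
      (abs_lt.1 t.hβ).2.le).symm
  have hd1 : HasDerivAt (fun y : ℝ => Real.arcsin (2 * Real.sin y)) D t.φ := by
    have h1 : HasDerivAt Real.arcsin (1 / Real.sqrt (1 - (2 * Real.sin t.φ) ^ 2))
        (2 * Real.sin t.φ) :=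
      Real.hasDerivAt_arcsin (by rw [← t.hs]; exact hβ2.ne') (by rw [← t.hs]; exact hβ1.ne)
    have h2 : HasDerivAt (fun y : ℝ => 2 * Real.sin y) (2 * Real.cos t.φ) t.φ :=
      (Real.hasDerivAt_sin t.φ).const_mul 2
    have h3 := HasDerivAt.comp t.φ h1 h2
    rw [hsq] at h3
    have h4 : 1 / Real.cos t.β * (2 * Real.cos t.φ) = D := by rw [hD]; ring
    rw [h4] at h3
    exact h3
  have hd2 : HasFDerivAt (fun b : ℝ × ℝ => Real.arcsin (2 * Real.sin b.2))
      (D • ContinuousLinearMap.snd ℝ ℝ ℝ) (a, t.φ) := by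
    have h1 : HasFDerivAt (fun b : ℝ × ℝ => b.2) (ContinuousLinearMap.snd ℝ ℝ ℝ) (a, t.φ) :=
      hasFDerivAt_snd
    have h2 := HasDerivAt.comp_hasFDerivAt (a, t.φ) (h₂ := fun y : ℝ => Real.arcsin (2 * Real.sin y))
      hd1 h1
    exact h2
  have hd3 : HasFDerivAt (fun b : ℝ × ℝ => b.1) (ContinuousLinearMap.fst ℝ ℝ ℝ) (a, t.φ) :=
    hasFDerivAt_fst
  have hd4 : HasFDerivAt (fun b : ℝ × ℝ => b.2) (ContinuousLinearMap.snd ℝ ℝ ℝ) (a, t.φ) :=
    hasFDerivAt_snd
  have hd5 := (((hd3.add hd4).sub hd2).const_mul (-(1 / 2 : ℝ)))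
  have hd6 := hd5.prodMk hd2.neg
  refine ⟨_, ⟨0, 1, (a, t.φ), _, (pt_zero (a, t.φ)).symm, t.hφ, ?_, ?_, hd6⟩, ?_⟩
  · change |-(Real.arcsin (2 * Real.sin t.φ))| < π / 2
    rw [harc, abs_neg]
    exact t.hβ
  · have hc1 : ∀ᶠ b : ℝ × ℝ in 𝓝 (a, t.φ), 0 < Real.cos b.2 :=
      (continuousAt_const.eventually_lt (Real.continuous_cos.comp continuous_snd).continuousAt
        t.cosφ)
    have hc2 : ∀ᶠ b : ℝ × ℝ in 𝓝 (a, t.φ), 2 * Real.sin b.2 < 1 := by
      refine ((continuous_const.mul (Real.continuous_sin.comp continuous_snd)).continuousAt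
        |>.eventually_lt continuousAt_const ?_)
      change 2 * Real.sin t.φ < 1
      rw [← t.hs]; exact hβ1
    have hc3 : ∀ᶠ b : ℝ × ℝ in 𝓝 (a, t.φ), -1 < 2 * Real.sin b.2 := by
      refine (continuousAt_const.eventually_lt (continuous_const.mul
        (Real.continuous_sin.comp continuous_snd)).continuousAt ?_)
      change -1 < 2 * Real.sin t.φ
      rw [← t.hs]; exact hβ2
    filter_upwards [hc1, hc2, hc3] with b h1 h2 h3
    rw [pt_zero, pt_one]
    rw [T_X0 (A := Real.arcsin (2 * Real.sin b.2)) (norm_E _) h1 ?_ (Real.sin_arcsin h3.le h2.le)]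
    · change X1 (E b.1 * E (b.2 - Real.arcsin (2 * Real.sin b.2)))
        (-Real.arcsin (2 * Real.sin b.2)) =
        X1 (E (-(2 * (-(1 / 2) * (b.1 + b.2 - Real.arcsin (2 * Real.sin b.2))))))
        (-Real.arcsin (2 * Real.sin b.2))
      rw [← E_add]
      congr 2
      ring
    · rw [Real.cos_arcsin]
      apply Real.sqrt_pos.2
      nlinarith
  · have hDpos : 0 < D := div_pos (mul_pos two_pos t.cosφ) t.cosβ
    set A : ℝ × ℝ →L[ℝ] ℝ × ℝ := ContinuousLinearMap.prod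
      (-(1 / 2 : ℝ) • (ContinuousLinearMap.fst ℝ ℝ ℝ + ContinuousLinearMap.snd ℝ ℝ ℝ -
        D • ContinuousLinearMap.snd ℝ ℝ ℝ)) (-(D • ContinuousLinearMap.snd ℝ ℝ ℝ)) with hA
    have h1 : ‖A ((0 : ℝ), (1 : ℝ))‖ ≤ ‖A‖ * ‖((0 : ℝ), (1 : ℝ))‖ := A.le_opNorm _
    have h2 : ‖((0 : ℝ), (1 : ℝ))‖ = 1 := by simp
    rw [h2, mul_one] at h1
    refine le_trans ?_ h1
    have h3 : (A ((0 : ℝ), (1 : ℝ))).2 = -D := by
      rw [hA]; simp
    calc D = ‖(A ((0 : ℝ), (1 : ℝ))).2‖ := by rw [h3, norm_neg, Real.norm_of_nonneg hDpos.le]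
      _ ≤ ‖A ((0 : ℝ), (1 : ℝ))‖ := norm_snd_le _

lemma logDT_ge (t : Torus) {q : ℂ} (hq : ‖q‖ = 1) {M : ℝ}
    (hM : Real.exp M ≤ 2 * Real.cos t.φ / Real.cos t.β) :
    ENNReal.ofReal M ≤ logDT ann annγ (P t true q) := by
  obtain ⟨a, rfl⟩ := exists_E q hq
  obtain ⟨A, hA, hn⟩ := hasCoordDeriv t a
  have h1 : M ≤ Real.posLog ‖A‖ := by
    refine le_trans ?_ (le_max_right _ _)
    rw [Real.le_log_iff_exp_le]
    · exact hM.trans hn
    · exact (Real.exp_pos M).trans_le (hM.trans hn)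
  refine (ENNReal.ofReal_le_ofReal h1).trans ?_
  unfold logDT
  exact le_iSup₂ (f := fun (A : ℝ × ℝ →L[ℝ] ℝ × ℝ) (_ : HasCoordDeriv ann annγ
    (P t true (E a)) A) => ENNReal.ofReal (Real.posLog ‖A‖)) A hA

/-! ### Existence of tori close to grazing -/

lemma exists_torus (M : ℝ) : ∃ t : Torus, M ≤ 2 * Real.cos t.φ / Real.cos t.β := by
  set δ : ℝ := 1 / (4 * (|M| + 1)) with hδ
  have hM1 : 0 < |M| + 1 := by positivity
  have hδ0 : 0 < δ := by rw [hδ]; positivity
  have hδ1 : δ ≤ 1 / 4 := by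
    rw [hδ]
    apply one_div_le_one_div_of_le (by norm_num)
    nlinarith [abs_nonneg M]
  obtain ⟨x, hx, hx1, hx2⟩ := exists_irrational_btwn (show 1 / 3 - δ < 1 / 3 by linarith)
  have hπ := Real.pi_pos
  have hπ3 := Real.pi_gt_three
  have hπ4 := Real.pi_lt_four
  have hϑ0 : 0 < π * x := mul_pos hπ (by linarith)
  have hϑ1 : π * x < π / 3 := by
    have := mul_lt_mul_of_pos_left hx2 hπ
    linarith
  have hs : 0 < Real.sin (π * x) := Real.sin_pos_of_pos_of_lt_pi hϑ0 (by linarith)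
  have hc : 1 / 2 < Real.cos (π * x) := by
    rw [← Real.cos_pi_div_three]
    exact Real.cos_lt_cos_of_nonneg_of_le_pi_div_two hϑ0.le (by linarith) hϑ1
  have hsc := Real.sin_sq_add_cos_sq (π * x)
  have hc1 : Real.cos (π * x) < 1 := by nlinarith
  have hcM : Real.cos (π * x) - 1 / 2 ≤ 4 * δ := by
    have h1 := Real.abs_cos_sub_cos_le (π * x) (π / 3)
    rw [Real.cos_pi_div_three] at h1
    have h2 := le_trans (le_abs_self _) h1
    rw [abs_of_neg (by linarith)] at h2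
    have h3 : π * (1 / 3 - x) ≤ 4 * δ := by
      apply mul_le_mul hπ4.le (by linarith) (by linarith) (by norm_num)
    linarith
  set s := Real.sin (π * x) with hs'
  set c := Real.cos (π * x) with hc'
  set l := Real.sqrt (5 / 4 - c) with hl'
  have hl : 0 < l := Real.sqrt_pos.2 (by linarith)
  have hl2 : l ^ 2 = 5 / 4 - c := Real.sq_sqrt (by linarith)
  set cb := (c - 1 / 2) / l with hcb'
  have hcb0 : 0 < cb := div_pos (by linarith) hl
  have hcb1 : 1 - cb ^ 2 = (s / l) ^ 2 := by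
    rw [hcb']
    field_simp
    nlinarith
  have hsl : 0 < s / l := div_pos hs hl
  have hcb2 : cb < 1 := by nlinarith [sq_nonneg (s / l), mul_pos hsl hsl]
  have hcos : Real.cos (Real.arccos cb) = cb := Real.cos_arccos (by linarith) hcb2.le
  have hsin : Real.sin (Real.arccos cb) = s / l := by
    rw [Real.sin_arccos, hcb1, Real.sqrt_sq hsl.le]
  have hb0 : 0 < Real.arccos cb := Real.arccos_pos.2 hcb2
  have hb1 : Real.arccos cb < π / 2 := Real.arccos_lt_pi_div_two.2 hcb0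
  have hsinφ : Real.sin (Real.arccos cb - π * x) = s / l / 2 := by
    rw [Real.sin_sub, hcos, hsin, ← hs', ← hc', hcb']
    field_simp
    ring
  have hcosφ : Real.cos (Real.arccos cb - π * x) = (1 - c / 2) / l := by
    rw [Real.cos_sub, hcos, hsin, ← hs', ← hc', hcb']
    field_simp
    nlinarith
  refine ⟨⟨Real.arccos cb - π * x, Real.arccos cb, ?_, ?_, ?_, ?_⟩, ?_⟩
  · rw [abs_lt]; constructor <;> linarith
  · rw [abs_lt]; constructor <;> linarith
  · rw [hsin, hsinφ]; ring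
  · have : (Real.arccos cb - (Real.arccos cb - π * x)) / π = x := by
      field_simp
      ring
    rw [this]; exact hx
  · change M ≤ 2 * Real.cos (Real.arccos cb - π * x) / Real.cos (Real.arccos cb)
    rw [hcosφ, hcos, hcb']
    have h1 : 2 * ((1 - c / 2) / l) / ((c - 1 / 2) / l) = (2 - c) / (c - 1 / 2) := by
      have : c - 1 / 2 ≠ 0 := by linarith
      field_simp
    rw [h1, le_div_iff₀ (by linarith)]
    have h2 : M * (c - 1 / 2) ≤ |M| * (4 * δ) :=
      mul_le_mul (le_abs_self M) hcM (by linarith) (abs_nonneg M)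
    have h3 : |M| * (4 * δ) ≤ 1 := by
      rw [hδ]
      field_simp
      linarith
    linarith

end

end Pool.Agent.H703R3.OS
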