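import Pool.Agent.H703R3.OSMeasure

/-!
# The measure with infinite integral
-/

set_option autoImplicit false

open Set Filter Topology MeasureTheory
open scoped ContDiff Real ENNReal

namespace Pool.Agent.H703R3.OS

noncomputable section

/-- Normalised Haar measure on the circle `ℝ/ℤ`. -/
def ν : Measure UnitAddCircle := AddCircle.haarAddCircle

instance : IsProbabilityMeasure ν := by unfold ν; infer_instance

/-- `x ↦ e^{2 π i x}`. -/
def qq (x : UnitAddCircle) : ℂ := (AddCircle.toCircle x : ℂ)

lemma norm_qq (x : UnitAddCircle) : ‖qq x‖ = 1 := Circle.norm_coe _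

lemma continuous_qq : Continuous qq :=
  continuous_induced_dom.comp AddCircle.continuous_toCircle

lemma qq_add (x : UnitAddCircle) (a : ℝ) :
    qq (x + ((a / (2 * π) : ℝ) : UnitAddCircle)) = qq x * E a := by
  unfold qq
  rw [AddCircle.toCircle_add, Circle.coe_mul, AddCircle.toCircle_apply_mk, Circle.coe_exp]
  congr 2
  congr 1
  norm_cast
  have := Real.pi_ne_zero
  field_simp

lemma map_add_ν (y : UnitAddCircle) : ν.map (fun x => x + y) = ν := by
  unfold ν
  exact MeasureTheory.map_add_right_eq_self AddCircle.haarAddCircle y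

/-- The circle map onto one of the two circles of the torus. -/
def G (t : Torus) (b : Bool) (x : UnitAddCircle) : ℂ × ℂ := P t b (qq x)

lemma continuous_G (t : Torus) (b : Bool) : Continuous (G t b) :=
  (continuous_P t b).comp continuous_qq

lemma T_G (t : Torus) (b : Bool) (x : UnitAddCircle) :
    T ann annγ (G t b x) =
      G t (!b) (x + (((t.φ - t.β) / (2 * π) : ℝ) : UnitAddCircle)) := by
  unfold G
  rw [T_P t b (norm_qq x), qq_add]

/-- The uniform measure on one of the two circles of the torus. -/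
def mt (t : Torus) (b : Bool) : Measure (ℂ × ℂ) := ν.map (G t b)

instance (t : Torus) (b : Bool) : IsProbabilityMeasure (mt t b) :=
  Measure.isProbabilityMeasure_map (continuous_G t b).measurable.aemeasurable

lemma measurableSet_range (t : Torus) (b : Bool) : MeasurableSet (range (G t b)) :=
  (isCompact_range (continuous_G t b)).measurableSet

lemma mt_range (t : Torus) (b : Bool) : mt t b (range (G t b)) = 1 := by
  unfold mt
  rw [Measure.map_apply (continuous_G t b).measurable (measurableSet_range t b)]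
  rw [preimage_range]
  exact measure_univ

lemma mt_compl_range (t : Torus) (b : Bool) : mt t b (range (G t b))ᶜ = 0 := by
  unfold mt
  rw [Measure.map_apply (continuous_G t b).measurable (measurableSet_range t b).compl]
  rw [preimage_compl, preimage_range, compl_univ, measure_empty]

lemma aemeasurable_mt (t : Torus) (b : Bool) : AEMeasurable (T ann annγ) (mt t b) := by
  obtain ⟨f, hf, hfT⟩ : ∃ f : ℂ × ℂ → ℂ × ℂ, Measurable f ∧
      ∀ q : ℂ, ‖q‖ = 1 → T ann annγ (P t b q) = f (P t b q) := by
    cases b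
    · refine ⟨fun p => P t true (2 * p.1 * E (t.φ - t.β)), ?_, ?_⟩
      · have := continuous_P t true
        exact (this.comp (by fun_prop)).measurable
      · intro q hq
        rw [T_P t false hq]
        change P t true (q * E (t.φ - t.β)) = P t true (2 * ((1 / 2 : ℂ) * q) * E (t.φ - t.β))
        congr 2; ring
    · refine ⟨fun p => P t false (p.1 * E (t.φ - t.β)), ?_, ?_⟩
      · have := continuous_P t false
        exact (this.comp (by fun_prop)).measurable
      · intro q hq
        rw [T_P t true hq]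
        rfl
  refine ⟨f, hf, ?_⟩
  have h0 : {p | ¬ T ann annγ p = f p} ⊆ (range (G t b))ᶜ := by
    rintro p hp ⟨x, rfl⟩
    exact hp (hfT _ (norm_qq x))
  exact measure_mono_null h0 (mt_compl_range t b)

lemma map_T_mt (t : Torus) (b : Bool) : (mt t b).map (T ann annγ) = mt t (!b) := by
  have h1 : (mt t b).map (T ann annγ) = ν.map (T ann annγ ∘ G t b) := by
    unfold mt
    exact AEMeasurable.map_map_of_aemeasurable (aemeasurable_mt t b)
      (continuous_G t b).measurable.aemeasurable
  rw [h1]
  have h2 : T ann annγ ∘ G t b =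
      G t (!b) ∘ (fun x => x + (((t.φ - t.β) / (2 * π) : ℝ) : UnitAddCircle)) := by
    funext x
    exact T_G t b x
  rw [h2, ← Measure.map_map (continuous_G t (!b)).measurable (measurable_add_const _), map_add_ν]
  rfl

/-- The weights. -/
def wt (n : ℕ) : ℝ≥0∞ := 2⁻¹ * 2⁻¹ ^ (n + 1)

/-- The superposition. -/
def muS (t : ℕ → Torus) : Measure (ℂ × ℂ) :=
  Measure.sum fun n => wt n • (mt (t n) true + mt (t n) false)

lemma muS_apply (t : ℕ → Torus) (s : Set (ℂ × ℂ)) :
    muS t s = ∑' n, wt n * (mt (t n) true s + mt (t n) false s) := by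
  unfold muS
  rw [Measure.sum_apply_of_countable]
  rfl

lemma muS_univ (t : ℕ → Torus) : muS t univ = 1 := by
  rw [muS_apply]
  simp only [measure_univ, wt]
  have h : ∀ n : ℕ, (2⁻¹ * 2⁻¹ ^ (n + 1) * (1 + 1) : ℝ≥0∞) = 2⁻¹ ^ (n + 1) := by
    intro n
    rw [one_add_one_eq_two, mul_comm, ← mul_assoc, ENNReal.mul_inv_cancel (by norm_num) (by norm_num),
      one_mul]
  simp only [h]
  rw [ENNReal.tsum_geometric_add_one, ENNReal.one_sub_inv_two, inv_inv]
  exact ENNReal.inv_mul_cancel (by norm_num) (by norm_num)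

/-- The union of the tori. -/
def RR (t : ℕ → Torus) : Set (ℂ × ℂ) := {x | ∃ (n : ℕ) (b : Bool) (y : UnitAddCircle), x = G (t n) b y}

lemma muS_compl (t : ℕ → Torus) : muS t (RR t)ᶜ = 0 := by
  rw [muS_apply]
  have h : ∀ n b, mt (t n) b (RR t)ᶜ = 0 := by
    intro n b
    refine measure_mono_null ?_ (mt_compl_range (t n) b)
    intro x hx
    rintro ⟨y, rfl⟩
    exact hx ⟨n, b, y, rfl⟩
  simp [h]

lemma aemeasurable_muS (t : ℕ → Torus) : AEMeasurable (T ann annγ) (muS t) := by
  unfold muS
  refine AEMeasurable.sum_measure fun n => ?_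
  exact (((aemeasurable_mt (t n) true).add_measure (aemeasurable_mt (t n) false))).smul_measure _

lemma map_muS (t : ℕ → Torus) : (muS t).map (T ann annγ) = muS t := by
  ext s hs
  rw [Measure.map_apply_of_aemeasurable (aemeasurable_muS t) hs, muS_apply, muS_apply]
  congr 1
  funext n
  have h : ∀ b, mt (t n) b (T ann annγ ⁻¹' s) = mt (t n) (!b) s := by
    intro b
    rw [← Measure.map_apply_of_aemeasurable (aemeasurable_mt (t n) b) hs, map_T_mt]
  rw [h, h, add_comm]
  rfl

lemma isInvariantProb_muS (t : ℕ → Torus) : IsInvariantProb ann annγ (muS t) where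
  prob := ⟨muS_univ t⟩
  phase := by
    refine measure_mono_null (compl_subset_compl.2 ?_) (muS_compl t)
    rintro x ⟨n, b, y, rfl⟩
    exact transversal_subset_phase _ (P_mem_transversal (t n) b (norm_qq y))
  regular := by
    refine measure_mono_null (compl_subset_compl.2 ?_) (muS_compl t)
    rintro x ⟨n, b, y, rfl⟩
    exact P_mem_regular (t n) b (norm_qq y)
  aemeasurable := aemeasurable_muS t
  invariant := map_muS t

lemma nonPeriodic_muS (t : ℕ → Torus) : NonPeriodic ann annγ (muS t) := by
  refine measure_mono_null ?_ (muS_compl t)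
  rintro x ⟨n, hn, hx⟩ ⟨m, b, y, rfl⟩
  exact not_periodic (t m) b (norm_qq y) n hn hx

lemma lintegral_logDT (t : ℕ → Torus)
    (ht : ∀ n, Real.exp (4 ^ n) ≤ 2 * Real.cos (t n).φ / Real.cos (t n).β) :
    ∫⁻ x, logDT ann annγ x ∂(muS t) = ⊤ := by
  have h1 : ∀ n, ENNReal.ofReal (4 ^ n) * wt n ≤ ∫⁻ x, logDT ann annγ x ∂(muS t) := by
    intro n
    have h2 : (range (G (t n) true)).indicator (fun _ => ENNReal.ofReal (4 ^ n)) ≤
        logDT ann annγ := by
      intro x
      by_cases hx : x ∈ range (G (t n) true)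
      · rw [indicator_of_mem hx]
        obtain ⟨y, rfl⟩ := hx
        exact logDT_ge (t n) (norm_qq y) (ht n)
      · rw [indicator_of_notMem hx]; exact bot_le
    refine le_trans ?_ (lintegral_mono h2)
    rw [lintegral_indicator_const (measurableSet_range _ _)]
    gcongr
    rw [muS_apply]
    refine le_trans ?_ (ENNReal.le_tsum n)
    rw [mt_range]
    calc wt n = wt n * 1 := (mul_one _).symm
      _ ≤ _ := by gcongr; exact le_self_add
  by_contra hne
  set I := ∫⁻ x, logDT ann annγ x ∂(muS t) with hI
  have h3 : ∀ n : ℕ, (2 : ℝ) ^ n / 4 ≤ I.toReal := by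
    intro n
    have h4 : ENNReal.ofReal (4 ^ n) * wt n = ENNReal.ofReal ((2 : ℝ) ^ n / 4) := by
      unfold wt
      have : (2⁻¹ : ℝ≥0∞) = ENNReal.ofReal (1 / 2) := by
        rw [one_div, ENNReal.ofReal_inv_of_pos (by norm_num)]
        norm_num
      rw [this, ← ENNReal.ofReal_pow (by norm_num), ← ENNReal.ofReal_mul (by norm_num),
        ← ENNReal.ofReal_mul (by positivity)]
      congr 1
      have : (4 : ℝ) ^ n = 2 ^ n * 2 ^ n := by rw [← mul_pow]; norm_num
      rw [this, pow_succ]
      have h5 : (2 : ℝ) ^ n * (1 / 2) ^ n = 1 := by rw [← mul_pow]; norm_num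
      linear_combination (2 : ℝ) ^ n / 4 * h5
    have h5 := h1 n
    rw [h4] at h5
    exact (ENNReal.ofReal_le_iff_le_toReal hne).1 h5
  obtain ⟨n, hn⟩ := pow_unbounded_of_one_lt (4 * I.toReal) (show (1 : ℝ) < 2 by norm_num)
  have := h3 n
  linarith

end

end Pool.Agent.H703R3.OS
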