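import Pool.Agent.H800R2.Front

/-!
# A half elliptic room with two dark pockets
-/

set_option autoImplicit false

open Set Filter Topology
open scoped RealInnerProductSpace ContDiff

namespace Pool.Agent.H703R3.Penrose

open Pool.Agent.H800R2

/-- bump function at `1` -/
noncomputable def b1 : ContDiffBump (1 : ℝ) := ⟨1 / 20, 1 / 10, by norm_num, by norm_num⟩

/-- bump function at `-1` -/
noncomputable def b2 : ContDiffBump (-1 : ℝ) := ⟨1 / 20, 1 / 10, by norm_num, by norm_num⟩

/-- bump function at `0` -/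
noncomputable def b0 : ContDiffBump (0 : ℝ) := ⟨6 / 5, 7 / 5, by norm_num, by norm_num⟩

/-- it vanishes near `±1` and is one away from `±1` -/
noncomputable def w (x : ℝ) : ℝ := 1 - b1 x - b2 x

/-- it is `√(1 - x² / 2)` for `|x| ≤ 6/5` -/
noncomputable def c (x : ℝ) : ℝ := Real.sqrt (1 - b0 x * (x ^ 2 / 2))

/-- depth of the room -/
noncomputable def h (x : ℝ) : ℝ := w x * c x

theorem w_nonneg (x : ℝ) : 0 ≤ w x := by
  unfold w
  by_cases hx : x ≤ 0
  · have : b1 x = 0 := b1.zero_of_le_dist (by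
      rw [Real.dist_eq, abs_sub_comm, abs_of_nonneg (by linarith)]
      show (1 : ℝ) / 10 ≤ 1 - x
      linarith)
    rw [this]
    linarith [b2.le_one (x := x)]
  · have : b2 x = 0 := b2.zero_of_le_dist (by
      rw [Real.dist_eq, abs_of_nonneg (by linarith)]
      show (1 : ℝ) / 10 ≤ x - -1
      linarith)
    rw [this]
    linarith [b1.le_one (x := x)]

theorem w_le_one (x : ℝ) : w x ≤ 1 := by
  unfold w
  linarith [b1.nonneg (x := x), b2.nonneg (x := x)]

theorem w_eq_one {x : ℝ} (h1 : 1 / 10 ≤ |x - 1|) (h2 : 1 / 10 ≤ |x + 1|) : w x = 1 := by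
  unfold w
  rw [b1.zero_of_le_dist (by rw [Real.dist_eq]; exact h1),
    b2.zero_of_le_dist (by rw [Real.dist_eq, sub_neg_eq_add]; exact h2)]
  ring

theorem w_eq_zero {x : ℝ} (h1 : |x - 1| ≤ 1 / 20) : w x = 0 := by
  unfold w
  have h0 : 0 ≤ x := by
    have := (abs_le.1 h1).1
    linarith
  rw [b1.one_of_mem_closedBall (by rw [Metric.mem_closedBall, Real.dist_eq]; exact h1),
    b2.zero_of_le_dist (by
      rw [Real.dist_eq, abs_of_nonneg (by linarith)]
      show (1 : ℝ) / 10 ≤ x - -1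
      linarith)]
  ring

theorem w_eq_zero' {x : ℝ} (h1 : |x + 1| ≤ 1 / 20) : w x = 0 := by
  unfold w
  have h0 : x ≤ 0 := by
    have := (abs_le.1 h1).2
    linarith
  rw [b2.one_of_mem_closedBall (by
      rw [Metric.mem_closedBall, Real.dist_eq, sub_neg_eq_add]; exact h1),
    b1.zero_of_le_dist (by
      rw [Real.dist_eq, abs_sub_comm, abs_of_nonneg (by linarith)]
      show (1 : ℝ) / 10 ≤ 1 - x
      linarith)]
  ring

theorem rad_pos (x : ℝ) : 0 < 1 - b0 x * (x ^ 2 / 2) := by
  by_cases hx : |x| < 7 / 5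
  · have h1 : x ^ 2 < 49 / 25 := by
      have := abs_nonneg x
      rw [← sq_abs]
      nlinarith
    have h2 := b0.le_one (x := x)
    have h3 := b0.nonneg (x := x)
    nlinarith [sq_nonneg x]
  · push Not at hx
    rw [b0.zero_of_le_dist (by rw [Real.dist_eq, sub_zero]; exact hx)]
    norm_num

theorem c_pos (x : ℝ) : 0 < c x := Real.sqrt_pos.2 (rad_pos x)

theorem c_eq {x : ℝ} (hx : |x| ≤ 6 / 5) : c x = Real.sqrt (1 - x ^ 2 / 2) := by
  unfold c
  rw [b0.one_of_mem_closedBall (by rw [Metric.mem_closedBall, Real.dist_eq, sub_zero]; exact hx),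
    one_mul]

theorem le_c (x : ℝ) : Real.sqrt (1 - x ^ 2 / 2) ≤ c x := by
  unfold c
  apply Real.sqrt_le_sqrt
  have h2 := b0.le_one (x := x)
  nlinarith [sq_nonneg x]

theorem h_nonneg (x : ℝ) : 0 ≤ h x := mul_nonneg (w_nonneg x) (c_pos x).le

theorem contDiff_h : ContDiff ℝ ∞ h := by
  unfold h
  refine ContDiff.mul ?_ ?_
  · unfold w
    exact (contDiff_const.sub b1.contDiff).sub b2.contDiff
  · unfold c
    refine ContDiff.sqrt ?_ fun x => (rad_pos x).ne'
    refine contDiff_const.sub (b0.contDiff.mul ?_)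
    fun_prop

/-- the ellipse -/
noncomputable def F1 (z : Euc 2) : ℝ := z 0 ^ 2 / 2 + z 1 ^ 2 - 1

/-- the floor -/
noncomputable def F2 (z : Euc 2) : ℝ := - z 1 - h (z 0)

/-- the room -/
def Room : Set (Euc 2) := {z | F1 z < 0 ∧ F2 z < 0}

theorem contDiff_F1 : ContDiff ℝ ∞ F1 := by
  unfold F1
  fun_prop

theorem contDiff_F2 : ContDiff ℝ ∞ F2 := by
  unfold F2
  refine ContDiff.sub (by fun_prop) ?_
  exact contDiff_h.comp (by fun_prop)

theorem isOpen_room : IsOpen Room := by
  have h1 : IsOpen {z | F1 z < 0} := isOpen_lt contDiff_F1.continuous continuous_const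
  have h2 : IsOpen {z | F2 z < 0} := isOpen_lt contDiff_F2.continuous continuous_const
  exact h1.inter h2

/-- in the central strip the floor is above the ellipse -/
theorem F1_neg_of {z : Euc 2} (hx : |z 0| < 6 / 5) (hy : z 1 < 0) (h2 : F2 z < 0) : F1 z < 0 := by
  unfold F2 at h2
  unfold F1
  have h3 : - z 1 < c (z 0) := by
    have : h (z 0) ≤ c (z 0) := by
      unfold h
      nlinarith [w_le_one (z 0), c_pos (z 0)]
    linarith
  rw [c_eq hx.le] at h3
  have h4 : z 0 ^ 2 < 36 / 25 := by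
    have := abs_nonneg (z 0)
    rw [← sq_abs]
    nlinarith
  have h5 : (- z 1) ^ 2 < Real.sqrt (1 - z 0 ^ 2 / 2) ^ 2 := by
    have : 0 < - z 1 := by linarith
    nlinarith
  rw [Real.sq_sqrt (by linarith)] at h5
  linarith [neg_sq (z 1)]

/-- away from the walls the floor is below the ellipse -/
theorem F2_neg_of {z : Euc 2} (hx : 11 / 10 ≤ |z 0|) (h1 : F1 z < 0) : F2 z < 0 := by
  unfold F1 at h1
  unfold F2
  have hw : w (z 0) = 1 := by
    apply w_eq_one
    · rcases le_abs.1 hx with h | h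
      · exact le_abs.2 (Or.inl (by linarith))
      · exact le_abs.2 (Or.inr (by linarith))
    · rcases le_abs.1 hx with h | h
      · exact le_abs.2 (Or.inl (by linarith))
      · exact le_abs.2 (Or.inr (by linarith))
  have h2 : |z 1| < Real.sqrt (1 - z 0 ^ 2 / 2) := by
    apply Real.lt_sqrt_of_sq_lt
    rw [sq_abs]
    linarith
  have h3 := le_c (z 0)
  have h4 := neg_le_abs (z 1)
  unfold h
  rw [hw]
  linarith

theorem fderiv_ne_of_line {F : Euc 2 → ℝ} (hF : ContDiff ℝ ∞ F) {z u : Euc 2} {d : ℝ}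
    (hd : HasDerivAt (fun s : ℝ => F (z + s • u)) d 0) (hd0 : d ≠ 0) : gradient F z ≠ 0 := by
  intro h0
  have h1 : HasFDerivAt F (fderiv ℝ F z) z :=
    (hF.differentiable (by simp)).differentiableAt.hasFDerivAt
  have hl : HasDerivAt (fun s : ℝ => z + s • u) u 0 := by
    simpa using ((hasDerivAt_id (0 : ℝ)).smul_const u).const_add z
  have hc : HasDerivAt (fun s : ℝ => F (z + s • u)) (fderiv ℝ F z u) 0 :=
    HasFDerivAt.comp_hasDerivAt (x := (0 : ℝ)) (f := fun s : ℝ => z + s • u)
      (l := F) (l' := fderiv ℝ F z) (by simpa using h1) hl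
  have h2 : fderiv ℝ F z = 0 := by
    have : InnerProductSpace.toDual ℝ (Euc 2) (gradient F z) = fderiv ℝ F z := by
      unfold gradient
      rw [LinearIsometryEquiv.apply_symm_apply]
    rw [← this, h0, map_zero]
  rw [h2] at hc
  exact hd0 (hd.unique hc)

/-- the vector `(x, 2 y)` -/
noncomputable def nn (z : Euc 2) : Euc 2 := !₂[z 0, 2 * z 1]

theorem gradient_F1 (z : Euc 2) : gradient F1 z = nn z := by
  have h1 : HasFDerivAt (fun z : Euc 2 => z 0) (EuclideanSpace.proj 0 : Euc 2 →L[ℝ] ℝ) z :=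
    (EuclideanSpace.proj 0 : Euc 2 →L[ℝ] ℝ).hasFDerivAt
  have h2 : HasFDerivAt (fun z : Euc 2 => z 1) (EuclideanSpace.proj 1 : Euc 2 →L[ℝ] ℝ) z :=
    (EuclideanSpace.proj 1 : Euc 2 →L[ℝ] ℝ).hasFDerivAt
  have h3 : HasFDerivAt F1 ((z 0) • (EuclideanSpace.proj 0 : Euc 2 →L[ℝ] ℝ) +
      (2 * z 1) • (EuclideanSpace.proj 1 : Euc 2 →L[ℝ] ℝ)) z := by
    have h4 := (((h1.mul h1).const_mul (1 / 2 : ℝ)).add (h2.mul h2)).sub_const 1
    have e : F1 = fun z : Euc 2 => 1 / 2 * (z 0 * z 0) + z 1 * z 1 - 1 := by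
      ext z
      unfold F1
      ring
    rw [e]
    refine h4.congr_fderiv ?_
    ext u
    simp
    ring
  have h5 : HasGradientAt F1 (nn z) z := by
    rw [hasGradientAt_iff_hasFDerivAt]
    refine h3.congr_fderiv ?_
    ext u
    rw [InnerProductSpace.toDual_apply_apply, PiLp.inner_apply]
    simp [nn]
    ring
  exact h5.gradient

theorem isDefFun_F1 {z : Euc 2} (hz : nn z ≠ 0) (h : ∀ᶠ y in 𝓝 z, (F1 y < 0 → F2 y < 0)) :
    IsDefFun Room z F1 := by
  refine ⟨contDiff_F1, by rw [gradient_F1]; exact hz, ?_⟩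
  filter_upwards [h] with y hy
  exact ⟨fun h => h.1, fun h => ⟨h, hy h⟩⟩

theorem isDefFun_F2 {z : Euc 2} (h : ∀ᶠ y in 𝓝 z, (F2 y < 0 → F1 y < 0)) :
    IsDefFun Room z F2 := by
  refine ⟨contDiff_F2, ?_, ?_⟩
  · refine fderiv_ne_of_line contDiff_F2 (u := !₂[0, 1]) (d := -1) ?_ (by norm_num)
    have e : (fun s : ℝ => F2 (z + s • !₂[0, 1])) = fun s => F2 z - s := by
      ext s
      unfold F2
      simp
      ring
    rw [e]
    simpa using (hasDerivAt_id (0 : ℝ)).const_sub (F2 z)
  · filter_upwards [h] with y hy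
    exact ⟨fun h => h.2, fun h => ⟨hy h, h⟩⟩

theorem continuous_coord (i : Fin 2) : Continuous fun z : Euc 2 => z i := by fun_prop

theorem nn_ne_zero_of_left {z : Euc 2} (h : z 0 ≠ 0) : nn z ≠ 0 := by
  intro h0
  apply h
  have : nn z 0 = 0 := by rw [h0]; rfl
  simpa [nn] using this

theorem nn_ne_zero_of_right {z : Euc 2} (h : z 1 ≠ 0) : nn z ≠ 0 := by
  intro h0
  apply h
  have : nn z 1 = 0 := by rw [h0]; rfl
  simpa [nn] using this

/-- near a point with positive height, the room is given by `F1 < 0` -/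
theorem isDefFun_of_pos {z : Euc 2} (hz : 0 < z 1) : IsDefFun Room z F1 := by
  refine isDefFun_F1 (nn_ne_zero_of_right hz.ne') ?_
  filter_upwards [(continuous_coord 1).continuousAt.eventually (lt_mem_nhds hz)] with y hy _
  unfold F2
  linarith [h_nonneg (y 0)]

theorem exists_defFun (z : Euc 2) : ∃ F, IsDefFun Room z F := by
  by_cases h1 : 23 / 20 ≤ |z 0|
  · refine ⟨F1, isDefFun_F1 (nn_ne_zero_of_left ?_) ?_⟩
    · intro h0
      rw [h0, abs_zero] at h1
      norm_num at h1
    · have hc : Continuous fun y : Euc 2 => |y 0| := by fun_prop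
      filter_upwards [hc.continuousAt.eventually
        (lt_mem_nhds (show 11 / 10 < |z 0| by linarith))] with y hy hF
      exact F2_neg_of hy.le hF
  · push Not at h1
    by_cases h2 : 0 < z 1
    · exact ⟨F1, isDefFun_of_pos h2⟩
    · push Not at h2
      refine ⟨F2, isDefFun_F2 ?_⟩
      have hc : Continuous fun y : Euc 2 => |y 0| := by fun_prop
      filter_upwards [hc.continuousAt.eventually (gt_mem_nhds (show |z 0| < 6 / 5 by linarith)),
        (continuous_coord 1).continuousAt.eventually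
          (gt_mem_nhds (show z 1 < 1 / 2 by linarith))] with y hy1 hy2 hF
      by_cases h3 : y 1 < 0
      · exact F1_neg_of hy1 h3 hF
      · push Not at h3
        have h4 : y 0 ^ 2 < 36 / 25 := by
          have := abs_nonneg (y 0)
          rw [← sq_abs]
          nlinarith
        unfold F1
        nlinarith

theorem isBounded_room : Bornology.IsBounded Room := by
  refine (Metric.isBounded_closedBall (x := (0 : Euc 2)) (r := 2)).subset fun z hz => ?_
  rw [mem_closedBall_zero_iff]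
  have h1 : F1 z < 0 := hz.1
  unfold F1 at h1
  have h2 : ‖z‖ ^ 2 = z 0 ^ 2 + z 1 ^ 2 := by
    rw [EuclideanSpace.norm_sq_eq]
    simp [Fin.sum_univ_two]
  nlinarith [sq_nonneg (z 1), norm_nonneg z]

/-- the upper half of the room -/
def Up : Set (Euc 2) := {z | F1 z < 0 ∧ 0 < z 1}

theorem up_sub : Up ⊆ Room := by
  intro z hz
  refine ⟨hz.1, ?_⟩
  have : 0 < z 1 := hz.2
  unfold F2
  linarith [h_nonneg (z 0)]

theorem convex_up : Convex ℝ Up := by
  intro z hz y hy a b ha hb hab
  have h1 : F1 z < 0 := hz.1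
  have h2 : F1 y < 0 := hy.1
  have h3 : 0 < z 1 := hz.2
  have h4 : 0 < y 1 := hy.2
  unfold F1 at h1 h2
  constructor
  · show F1 (a • z + b • y) < 0
    unfold F1
    simp only [PiLp.add_apply, PiLp.smul_apply, smul_eq_mul]
    have hb' : b = 1 - a := by linarith
    subst hb'
    have e : (a * z 0 + (1 - a) * y 0) ^ 2 / 2 + (a * z 1 + (1 - a) * y 1) ^ 2 - 1 =
      a * (z 0 ^ 2 / 2 + z 1 ^ 2 - 1) + (1 - a) * (y 0 ^ 2 / 2 + y 1 ^ 2 - 1) -
      a * (1 - a) * ((z 0 - y 0) ^ 2 / 2 + (z 1 - y 1) ^ 2) := by ring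
    rw [e]
    have h5 : 0 ≤ a * (1 - a) * ((z 0 - y 0) ^ 2 / 2 + (z 1 - y 1) ^ 2) := by positivity
    rcases ha.eq_or_lt with h | h
    · rw [← h]
      simp
      linarith
    · have h6 : a * (z 0 ^ 2 / 2 + z 1 ^ 2 - 1) < 0 := mul_neg_of_pos_of_neg h (by linarith)
      have h7 : (1 - a) * (y 0 ^ 2 / 2 + y 1 ^ 2 - 1) ≤ 0 :=
        mul_nonpos_of_nonneg_of_nonpos hb (by linarith)
      linarith
  · show 0 < (a • z + b • y) 1
    simp only [PiLp.add_apply, PiLp.smul_apply, smul_eq_mul]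
    rcases ha.eq_or_lt with h | h
    · rw [← h]
      rw [← h] at hab
      have : b = 1 := by linarith
      rw [this]
      linarith
    · have h6 : 0 < a * z 1 := mul_pos h h3
      have h7 : 0 ≤ b * y 1 := mul_nonneg hb h4.le
      linarith

theorem isConnected_room : IsConnected Room := by
  have hz : (!₂[0, 1 / 2] : Euc 2) ∈ Up := by
    constructor
    · show F1 _ < 0
      unfold F1
      simp
      norm_num
    · show (0 : ℝ) < (!₂[0, 1 / 2] : Euc 2) 1
      simp
  refine ⟨⟨_, up_sub hz⟩, ?_⟩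
  refine isPreconnected_of_forall (!₂[0, 1 / 2] : Euc 2) fun y hy => ?_
  by_cases h1 : 0 < y 1
  · exact ⟨Up, up_sub, hz, ⟨hy.1, h1⟩, convex_up.isPreconnected⟩
  · push Not at h1
    have hF1 : F1 y < 0 := hy.1
    have hF2 : F2 y < 0 := hy.2
    unfold F1 at hF1
    unfold F2 at hF2
    set u := Real.sqrt (1 - y 0 ^ 2 / 2) / 2 with hu
    have hr : 0 < 1 - y 0 ^ 2 / 2 := by nlinarith [sq_nonneg (y 1)]
    have hu0 : 0 < u := by
      have := Real.sqrt_pos.2 hr
      rw [hu]
      linarith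
    have hu2 : u ^ 2 = (1 - y 0 ^ 2 / 2) / 4 := by
      rw [hu, div_pow, Real.sq_sqrt hr.le]
      norm_num
    set y' : Euc 2 := !₂[y 0, u] with hy'
    have hy'0 : y' 0 = y 0 := by rw [hy']; simp
    have hy'1 : y' 1 = u := by rw [hy']; simp
    have hy'U : y' ∈ Up := by
      constructor
      · show F1 y' < 0
        unfold F1
        rw [hy'0, hy'1, hu2]
        linarith
      · show 0 < y' 1
        rw [hy'1]
        exact hu0
    refine ⟨segment ℝ y y' ∪ Up, ?_, Or.inr hz, Or.inl (left_mem_segment ℝ _ _), ?_⟩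
    · refine union_subset ?_ up_sub
      rintro z ⟨a, b, ha, hb, hab, rfl⟩
      have e0 : (a • y + b • y') 0 = y 0 := by
        simp only [PiLp.add_apply, PiLp.smul_apply, smul_eq_mul, hy'0]
        rw [← add_mul, hab, one_mul]
      have e1 : (a • y + b • y') 1 = a * y 1 + b * u := by
        simp only [PiLp.add_apply, PiLp.smul_apply, smul_eq_mul, hy'1]
      constructor
      · show F1 _ < 0
        unfold F1
        rw [e0, e1]
        have hb' : b = 1 - a := by linarith
        subst hb'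
        have e : (a * y 1 + (1 - a) * u) ^ 2 = a * (y 1) ^ 2 + (1 - a) * u ^ 2 -
          a * (1 - a) * (y 1 - u) ^ 2 := by ring
        rw [e, hu2]
        have h5 : 0 ≤ a * (1 - a) * (y 1 - u) ^ 2 := by positivity
        nlinarith
      · show F2 _ < 0
        unfold F2
        rw [e0, e1]
        have h6 : 0 ≤ b * u := by positivity
        have h7 : y 1 ≤ a * y 1 := by nlinarith
        linarith
    · exact IsPreconnected.union y' (right_mem_segment ℝ _ _) hy'U
        (convex_segment y y').isPreconnected convex_up.isPreconnected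

theorem isSmoothDomain_room : IsSmoothDomain Room where
  isOpen := isOpen_room
  isConnected := isConnected_room
  isBounded := isBounded_room
  smooth := fun x _ => exists_defFun x

end Pool.Agent.H703R3.Penrose
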