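import Pool.Agent.H703R3.PenroseA

/-!
# Photons from the central part of the room never enter the pockets
-/

set_option autoImplicit false

open Set Filter Topology
open scoped RealInnerProductSpace ContDiff

namespace Pool.Agent.H703R3.Penrose

open Pool.Agent.H800R2

/-- the product of the angular momenta about the two foci -/
noncomputable def A (z v : Euc 2) : ℝ :=
  ((z 0 - 1) * v 1 - z 1 * v 0) * ((z 0 + 1) * v 1 - z 1 * v 0)

theorem A_line (z v : Euc 2) (s : ℝ) : A (z + s • v) v = A z v := by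
  unfold A
  simp only [PiLp.add_apply, PiLp.smul_apply, smul_eq_mul]
  ring

theorem A_axis {z v : Euc 2} (hz : z 1 = 0) : A z v = (z 0 ^ 2 - 1) * v 1 ^ 2 := by
  unfold A
  rw [hz]
  ring

/-- the state is central: in the lower part between the walls, or in the upper part on a line that
separates the foci -/
def Inv (z v : Euc 2) : Prop := (z 1 ≤ 0 ∧ |z 0| ≤ 1) ∨ (0 < z 1 ∧ A z v ≤ 0)

theorem wall {z : Euc 2} (hz : z ∈ Room) (h1 : z 1 ≤ 0) : 1 / 20 < |z 0 - 1| ∧ 1 / 20 < |z 0 + 1| := by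
  have h2 : F2 z < 0 := hz.2
  unfold F2 at h2
  have h3 : 0 < h (z 0) := by linarith
  constructor
  · by_contra hcon
    push Not at hcon
    unfold h at h3
    rw [w_eq_zero hcon, zero_mul] at h3
    exact lt_irrefl _ h3
  · by_contra hcon
    push Not at hcon
    unfold h at h3
    rw [w_eq_zero' hcon, zero_mul] at h3
    exact lt_irrefl _ h3

/-- a straight path in the lower part does not cross a wall -/
theorem no_cross {p v : Euc 2} {s : ℝ} (hs : 0 ≤ s) (hin : ∀ s' ∈ Ioo 0 s, p + s' • v ∈ Room)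
    (h1 : p 1 ≤ 0) (h2 : |p 0| ≤ 1) (h3 : (p + s • v) 1 ≤ 0) : |(p + s • v) 0| ≤ 1 := by
  rcases hs.eq_or_lt with h0 | h0
  · rw [← h0]
    simpa using h2
  by_contra hcon
  push Not at hcon
  have e0 : ∀ t : ℝ, (p + t • v) 0 = p 0 + t * v 0 := fun t => by simp
  have e1 : ∀ t : ℝ, (p + t • v) 1 = p 1 + t * v 1 := fun t => by simp
  rw [e0] at hcon
  rw [e1] at h3
  have h4 := abs_le.1 h2
  have hy : ∀ t, 0 ≤ t → t ≤ s → p 1 + t * v 1 ≤ 0 := by
    intro t ht0 hts
    by_cases hv : 0 ≤ v 1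
    · have : t * v 1 ≤ s * v 1 := mul_le_mul_of_nonneg_right hts hv
      linarith
    · push Not at hv
      have : t * v 1 ≤ 0 := mul_nonpos_of_nonneg_of_nonpos ht0 hv.le
      linarith
  rcases lt_abs.1 hcon with h5 | h5
  · -- crossing to the right
    set δ := min (1 / 20) ((p 0 + s * v 0 - 1) / 2) with hδ
    have hδ0 : 0 < δ := lt_min (by norm_num) (by linarith)
    have hδ1 : δ ≤ 1 / 20 := min_le_left _ _
    have hδ2 : δ ≤ (p 0 + s * v 0 - 1) / 2 := min_le_right _ _
    have hv : 0 < v 0 := by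
      by_contra hc
      push Not at hc
      have : s * v 0 ≤ 0 := mul_nonpos_of_nonneg_of_nonpos h0.le hc
      linarith
    set t := (1 + δ - p 0) / v 0 with ht
    have htv : t * v 0 = 1 + δ - p 0 := div_mul_cancel₀ _ hv.ne'
    have ht0 : 0 < t := div_pos (by linarith) hv
    have hts : t < s := by
      by_contra hc
      push Not at hc
      have : s * v 0 ≤ t * v 0 := mul_le_mul_of_nonneg_right hc hv.le
      linarith
    have hw := (wall (hin t ⟨ht0, hts⟩) (by rw [e1]; exact hy t ht0.le hts.le)).1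
    rw [e0, htv] at hw
    have : |p 0 + (1 + δ - p 0) - 1| = δ := by
      rw [show p 0 + (1 + δ - p 0) - 1 = δ by ring, abs_of_pos hδ0]
    rw [this] at hw
    linarith
  · -- crossing to the left
    set δ := min (1 / 20) ((- (p 0 + s * v 0) - 1) / 2) with hδ
    have hδ0 : 0 < δ := lt_min (by norm_num) (by linarith)
    have hδ1 : δ ≤ 1 / 20 := min_le_left _ _
    have hδ2 : δ ≤ (- (p 0 + s * v 0) - 1) / 2 := min_le_right _ _
    have hv : v 0 < 0 := by
      by_contra hc
      push Not at hc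
      have : 0 ≤ s * v 0 := mul_nonneg h0.le hc
      linarith
    set t := (-1 - δ - p 0) / v 0 with ht
    have htv : t * v 0 = -1 - δ - p 0 := div_mul_cancel₀ _ hv.ne
    have ht0 : 0 < t := div_pos_of_neg_of_neg (by linarith) hv
    have hts : t < s := by
      by_contra hc
      push Not at hc
      have : t * v 0 ≤ s * v 0 := mul_le_mul_of_nonpos_right hc hv.le
      linarith
    have hw := (wall (hin t ⟨ht0, hts⟩) (by rw [e1]; exact hy t ht0.le hts.le)).2
    rw [e0, htv] at hw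
    have : |p 0 + (-1 - δ - p 0) + 1| = δ := by
      rw [show p 0 + (-1 - δ - p 0) + 1 = -δ by ring, abs_neg, abs_of_pos hδ0]
    rw [this] at hw
    linarith

theorem axis_abs {z v : Euc 2} (hz : z 1 = 0) (hv : v 1 ≠ 0) : A z v ≤ 0 ↔ |z 0| ≤ 1 := by
  rw [A_axis hz]
  have h1 : 0 < v 1 ^ 2 := by positivity
  rw [← sq_le_one_iff_abs_le_one]
  constructor
  · intro h
    by_contra hc
    push Not at hc
    have : 0 < (z 0 ^ 2 - 1) * v 1 ^ 2 := mul_pos (by linarith) h1
    linarith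
  · intro h
    exact mul_nonpos_of_nonpos_of_nonneg (by linarith) h1.le

/-- the state stays central along a straight path -/
theorem Inv.move {p v : Euc 2} {s : ℝ} (hs : 0 ≤ s) (hin : ∀ s' ∈ Ioo 0 s, p + s' • v ∈ Room)
    (h : Inv p v) : Inv (p + s • v) v := by
  have e1 : ∀ t : ℝ, (p + t • v) 1 = p 1 + t * v 1 := fun t => by simp
  rcases h with ⟨h1, h2⟩ | ⟨h1, h2⟩
  · by_cases h3 : (p + s • v) 1 ≤ 0
    · exact Or.inl ⟨h3, no_cross hs hin h1 h2 h3⟩
    · push Not at h3
      refine Or.inr ⟨h3, ?_⟩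
      rw [e1] at h3
      have hv : 0 < v 1 := by
        by_contra hc
        push Not at hc
        have : s * v 1 ≤ 0 := mul_nonpos_of_nonneg_of_nonpos hs hc
        linarith
      set t := - p 1 / v 1 with ht
      have htv : t * v 1 = - p 1 := div_mul_cancel₀ _ hv.ne'
      have ht0 : 0 ≤ t := div_nonneg (by linarith) hv.le
      have hts : t ≤ s := by
        by_contra hc
        push Not at hc
        have : s * v 1 ≤ t * v 1 := mul_le_mul_of_nonneg_right hc.le hv.le
        linarith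
      have hc1 : (p + t • v) 1 = 0 := by rw [e1, htv]; ring
      have h4 : |(p + t • v) 0| ≤ 1 :=
        no_cross ht0 (fun s' hs' => hin s' ⟨hs'.1, hs'.2.trans_le hts⟩) h1 h2 hc1.le
      have h5 := (axis_abs hc1 hv.ne').2 h4
      rw [A_line] at h5 ⊢
      exact h5
  · by_cases h3 : (p + s • v) 1 ≤ 0
    · refine Or.inl ⟨h3, ?_⟩
      rw [e1] at h3
      have hv : v 1 < 0 := by
        by_contra hc
        push Not at hc
        have : 0 ≤ s * v 1 := mul_nonneg hs hc
        linarith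
      set t := - p 1 / v 1 with ht
      have htv : t * v 1 = - p 1 := div_mul_cancel₀ _ hv.ne
      have ht0 : 0 ≤ t := div_nonneg_of_nonpos (by linarith) hv.le
      have hts : t ≤ s := by
        by_contra hc
        push Not at hc
        have : t * v 1 < s * v 1 := mul_lt_mul_of_neg_right hc hv
        linarith
      have hc1 : (p + t • v) 1 = 0 := by rw [e1, htv]; ring
      have h4 : |(p + t • v) 0| ≤ 1 := by
        rw [← axis_abs hc1 hv.ne, A_line]
        exact h2
      have e2 : p + s • v = (p + t • v) + (s - t) • v := by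
        rw [sub_smul]
        abel
      rw [e2]
      refine no_cross (by linarith) (fun s' hs' => ?_) hc1.le h4 ?_
      · have : p + t • v + s' • v = p + (t + s') • v := by
          rw [add_smul]
          abel
        rw [this]
        exact hin _ ⟨by linarith [hs'.1], by linarith [hs'.2]⟩
      · rw [← e2, e1]
        exact h3
    · push Not at h3
      exact Or.inr ⟨h3, by rw [A_line]; exact h2⟩

/-- reflection in the ellipse preserves the product of the angular momenta about the foci -/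
theorem A_reflect {z v : Euc 2} (hz : F1 z = 0) (hn : nn z ≠ 0) :
    A z (v - (2 * ⟪v, ‖nn z‖⁻¹ • nn z⟫) • ‖nn z‖⁻¹ • nn z) = A z v := by
  have h0 : 0 < ‖nn z‖ := norm_pos_iff.2 hn
  have hN : ‖nn z‖ ^ 2 = z 0 ^ 2 + 4 * z 1 ^ 2 := by
    rw [EuclideanSpace.norm_sq_eq]
    simp [Fin.sum_univ_two, nn]
    ring
  set α := ⟪v, nn z⟫ with hα
  have hαe : α = v 0 * z 0 + 2 * v 1 * z 1 := by
    rw [hα, PiLp.inner_apply]
    simp [Fin.sum_univ_two, nn]
    ring
  have e : v - (2 * ⟪v, ‖nn z‖⁻¹ • nn z⟫) • ‖nn z‖⁻¹ • nn z =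
      v - (2 * α / ‖nn z‖ ^ 2) • nn z := by
    rw [real_inner_smul_right, smul_smul, ← hα]
    congr 2
    field_simp
  rw [e, hN]
  unfold F1 at hz
  have hN2 : z 0 ^ 2 + 4 * z 1 ^ 2 = 4 - z 0 ^ 2 := by nlinarith
  have hNpos : 0 < 4 - z 0 ^ 2 := by
    rw [← hN2, ← hN]
    positivity
  rw [hN2]
  set β := 2 * α / (4 - z 0 ^ 2) with hβ
  have hβ2 : β * (4 - z 0 ^ 2) = 2 * (v 0 * z 0 + 2 * v 1 * z 1) := by
    rw [hβ, div_mul_cancel₀ _ hNpos.ne', hαe]
  have c0 : (v - β • nn z) 0 = v 0 - β * z 0 := by simp [nn]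
  have c1 : (v - β • nn z) 1 = v 1 - β * (2 * z 1) := by simp [nn]
  unfold A
  rw [c0, c1]
  have hz' : z 0 ^ 2 = 2 - 2 * z 1 ^ 2 := by linarith
  -- the difference
  have key : ((z 0 - 1) * (v 1 - β * (2 * z 1)) - z 1 * (v 0 - β * z 0)) *
      ((z 0 + 1) * (v 1 - β * (2 * z 1)) - z 1 * (v 0 - β * z 0)) -
      ((z 0 - 1) * v 1 - z 1 * v 0) * ((z 0 + 1) * v 1 - z 1 * v 0) =
      β * z 1 * (- 2 * z 0 * (z 0 * v 1 - z 1 * v 0) + β * z 0 ^ 2 * z 1 + 4 * v 1 -
        4 * β * z 1) := by ring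
  have key2 : - 2 * z 0 * (z 0 * v 1 - z 1 * v 0) + β * z 0 ^ 2 * z 1 + 4 * v 1 -
        4 * β * z 1 = 0 := by
    have : β * z 0 ^ 2 * z 1 - 4 * β * z 1 = - (β * (4 - z 0 ^ 2)) * z 1 := by ring
    have e3 : - 2 * z 0 * (z 0 * v 1 - z 1 * v 0) + β * z 0 ^ 2 * z 1 + 4 * v 1 - 4 * β * z 1 =
      - 2 * z 0 ^ 2 * v 1 + 2 * z 0 * z 1 * v 0 + 4 * v 1 +
        (β * z 0 ^ 2 * z 1 - 4 * β * z 1) := by ring
    rw [e3, this, hβ2, hz']
    ring
  rw [key2, mul_zero] at key
  linarith

/-- the central part of the room -/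
def Src : Set (Euc 2) := {z | z ∈ Room ∧ z 1 < 0 ∧ |z 0| < 1}

/-- the pockets -/
def Dark : Set (Euc 2) := {z | z ∈ Room ∧ z 1 < 0 ∧ 1 < |z 0|}

theorem frontier_F1 {z : Euc 2} (hz : z ∈ frontier Room) (h1 : 0 < z 1) : F1 z = 0 :=
  (isDefFun_of_pos h1).eq_zero isOpen_room hz

theorem not_dark {p v q : Euc 2} {t : ℝ} (hph : Photon Room p v t q) : Inv p v → q ∉ Dark := by
  induction hph with
  | fly p v t ht hin =>
    intro hinv hq
    have := hinv.move ht fun s' hs' => hin s' ⟨hs'.1, hs'.2.le⟩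
    rcases this with h | h
    · exact absurd hq.2.2 (not_lt.2 h.2)
    · exact absurd hq.2.1 (not_lt.2 h.1.le)
  | bounce p v ν q τ t hτ hin hb hν hv hph ih =>
    intro hinv
    have h1 := hinv.move hτ.le hin
    refine ih ?_
    rcases h1 with h | h
    · exact Or.inl h
    · refine Or.inr ⟨h.1, ?_⟩
      have hd := isDefFun_of_pos h.1
      obtain ⟨F, hF, hνF⟩ := hν
      have hu := hF.normal_unique hd isOpen_room hb
      rw [hνF, hu, gradient_F1, A_reflect (frontier_F1 hb h.1) (nn_ne_zero_of_right h.1.ne')]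
      exact h.2

theorem isOpen_src : IsOpen Src := by
  have h1 : IsOpen {z : Euc 2 | z 1 < 0} := isOpen_lt (by fun_prop) continuous_const
  have h2 : IsOpen {z : Euc 2 | |z 0| < 1} := isOpen_lt (by fun_prop) continuous_const
  exact isOpen_room.inter (h1.inter h2)

theorem isOpen_dark : IsOpen Dark := by
  have h1 : IsOpen {z : Euc 2 | z 1 < 0} := isOpen_lt (by fun_prop) continuous_const
  have h2 : IsOpen {z : Euc 2 | 1 < |z 0|} := isOpen_lt continuous_const (by fun_prop)
  exact isOpen_room.inter (h1.inter h2)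

theorem src_nonempty : Src.Nonempty := by
  refine ⟨!₂[0, -1 / 2], ⟨?_, ?_⟩, ?_, ?_⟩
  · unfold F1
    simp
    norm_num
  · unfold F2 h
    have h1 : w 0 = 1 := w_eq_one (by norm_num) (by norm_num)
    have h2 : c 0 = 1 := by
      rw [c_eq (by norm_num)]
      norm_num
    simp only [Matrix.cons_val_zero, Matrix.cons_val_one, Matrix.cons_val_fin_one]
    rw [h1, h2]
    norm_num
  · simp
    norm_num
  · simp

theorem dark_nonempty : Dark.Nonempty := by
  have h3 : F1 (!₂[5 / 4, -1 / 10] : Euc 2) < 0 := by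
    unfold F1
    simp
    norm_num
  refine ⟨!₂[5 / 4, -1 / 10], ⟨h3, F2_neg_of ?_ h3⟩, ?_, ?_⟩
  · simp only [Matrix.cons_val_zero]
    rw [abs_of_pos (by norm_num)]
    norm_num
  · simp
    norm_num
  · simp only [Matrix.cons_val_zero]
    rw [abs_of_pos (by norm_num)]
    norm_num

/-- the fronts from the central part never meet the pockets -/
theorem front_dark {P : Euc 2} (hP : P ∈ Src) (t : ℝ) : Disjoint (front Room P t) Dark := by
  rw [Set.disjoint_left]
  rintro q ⟨v, _, hq⟩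
  exact not_dark hq (Or.inl ⟨hP.2.1.le, hP.2.2.le⟩)

theorem not_dense {P : Euc 2} (hP : P ∈ Src) : ¬ FrontsBecomeDense Room P := by
  intro hd
  obtain ⟨x, hx⟩ := dark_nonempty
  obtain ⟨ε, hε, hb⟩ := Metric.isOpen_iff.1 isOpen_dark x hx
  obtain ⟨T, hT⟩ := hd ε hε
  obtain ⟨q, hq, hdist⟩ := hT T le_rfl x hx.1
  exact Set.disjoint_left.1 (front_dark hP T) hq (hb (by rw [Metric.mem_ball, dist_comm]; exact hdist))

theorem main : ∃ Ω : Set (Euc 2), IsSmoothDomain Ω ∧ ∃ A D : Set (Euc 2),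
    IsOpen A ∧ A ⊆ Ω ∧ 0 < MeasureTheory.volume A ∧ IsOpen D ∧ D ⊆ Ω ∧ D.Nonempty ∧
    ∀ P ∈ A, (∀ t : ℝ, Disjoint (front Ω P t) D) ∧ ¬ FrontsBecomeDense Ω P :=
  ⟨Room, isSmoothDomain_room, Src, Dark, isOpen_src, fun _ h => h.1,
    isOpen_src.measure_pos _ src_nonempty, isOpen_dark, fun _ h => h.1, dark_nonempty,
    fun _ hP => ⟨front_dark hP, not_dense hP⟩⟩

end Pool.Agent.H703R3.Penrose
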