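import Mathlib

/-!
# Covering of shadows and containment

If every shadow of `K` is covered by a translate of the corresponding shadow of `L`, then every
`n` points of `K` are covered by a translate of `L`, and `((n - 1) / n) K` is covered by a translate
of `L`.
-/

set_option autoImplicit false
open Set
open scoped RealInnerProductSpace

namespace H703R3.SC

/-- orthogonal projection onto the hyperplane orthogonal to the unit vector `u` -/
noncomputable def proj {n : ℕ} (u x : EuclideanSpace ℝ (Fin n)) : EuclideanSpace ℝ (Fin n) :=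
  x - ⟪u, x⟫ • u

/-- shadow of `K` in direction `u` -/
def shadow {n : ℕ} (u : EuclideanSpace ℝ (Fin n)) (K : Set (EuclideanSpace ℝ (Fin n))) :
    Set (EuclideanSpace ℝ (Fin n)) := proj u '' K

/-- `L` covers the shadows of `K` -/
def CoversShadows {n : ℕ} (L K : Set (EuclideanSpace ℝ (Fin n))) : Prop :=
  ∀ u : EuclideanSpace ℝ (Fin n), ‖u‖ = 1 →
    ∃ v : EuclideanSpace ℝ (Fin n), ⟪u, v⟫ = 0 ∧ ∀ x ∈ shadow u K, x + v ∈ shadow u L

variable {n : ℕ}

theorem npoint (hn : 1 ≤ n) {K L : Set (EuclideanSpace ℝ (Fin n))} (hL : IsCompact L)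
    (cL : Convex ℝ L) (h : CoversShadows L K) (q : Fin n → EuclideanSpace ℝ (Fin n))
    (hq : ∀ i, q i ∈ K) : ∃ t, ∀ i, q i + t ∈ L := by
  by_contra hno
  push Not at hno
  set A : Set (Fin n → EuclideanSpace ℝ (Fin n)) :=
    Set.pi univ (fun i => (fun y => q i + y) ⁻¹' L) with hA
  have kA : IsCompact A := isCompact_univ_pi fun i => (Homeomorph.addLeft (q i)).isCompact_preimage.2 hL
  have cA : Convex ℝ A := convex_pi fun i _ => by
    intro a ha b hb s t hs ht hst
    have := cL ha hb hs ht hst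
    show q i + (s • a + t • b) ∈ L
    convert this using 1
    have e : q i = (s + t) • q i := by rw [hst, one_smul]
    conv_lhs => rw [e]
    simp only [smul_add, add_smul]
    abel
  set D : Submodule ℝ (Fin n → EuclideanSpace ℝ (Fin n)) :=
    LinearMap.range (LinearMap.pi (fun _ : Fin n =>
      (LinearMap.id : EuclideanSpace ℝ (Fin n) →ₗ[ℝ] EuclideanSpace ℝ (Fin n)))) with hD
  have hconst : ∀ x : EuclideanSpace ℝ (Fin n), (fun _ : Fin n => x) ∈ D := fun x => ⟨x, rfl⟩
  have disj : Disjoint A (D : Set (Fin n → EuclideanSpace ℝ (Fin n))) := by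
    rw [Set.disjoint_left]
    rintro a ha ⟨t, rfl⟩
    obtain ⟨i, hi⟩ := hno t
    exact hi (ha i (mem_univ i))
  obtain ⟨f, b, c, hfA, hbc, hfD⟩ := geometric_hahn_banach_compact_closed cA kA D.convex
    D.closed_of_finiteDimensional disj
  have fD : ∀ d ∈ D, f d = 0 := by
    intro d hd
    by_contra hne
    have := hfD (((c - 1) / f d) • d) (D.smul_mem _ hd)
    rw [map_smul, smul_eq_mul, div_mul_cancel₀ _ hne] at this
    linarith
  have c0 : c < 0 := by
    have := hfD 0 D.zero_mem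
    simpa using this
  let Ψ : EuclideanSpace ℝ (Fin n) →ₗ[ℝ] (Fin n → ℝ) :=
    LinearMap.pi fun i => (f : (Fin n → EuclideanSpace ℝ (Fin n)) →ₗ[ℝ] ℝ) ∘ₗ
      (LinearMap.single ℝ (fun _ : Fin n => EuclideanSpace ℝ (Fin n)) i)
  have hΨ : ∀ x i, Ψ x i = f (Pi.single i x) := fun x i => rfl
  have hf : ∀ a : Fin n → EuclideanSpace ℝ (Fin n), f a = ∑ i, Ψ (a i) i := by
    intro a
    simp only [hΨ]
    rw [← map_sum, Finset.univ_sum_single]
  have hsum : ∀ x, ∑ i, Ψ x i = 0 := by
    intro x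
    have h1 := hf (fun _ => x)
    rw [fD _ (hconst x)] at h1
    exact h1.symm
  have hns : ¬ Function.Surjective Ψ := by
    intro hs
    obtain ⟨x, hx⟩ := hs (fun _ => 1)
    have h1 := hsum x
    rw [hx] at h1
    simp at h1
    omega
  have hni : ¬ Function.Injective Ψ := by
    intro hi
    apply hns
    refine (LinearMap.injective_iff_surjective_of_finrank_eq_finrank ?_).1 hi
    rw [finrank_euclideanSpace_fin, Module.finrank_fin_fun]
  rw [injective_iff_map_eq_zero] at hni
  push Not at hni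
  obtain ⟨w, hw, hw0⟩ := hni
  have hu : ‖(‖w‖⁻¹ • w)‖ = 1 := by
    rw [norm_smul, norm_inv, norm_norm, inv_mul_cancel₀ (norm_ne_zero_iff.2 hw0)]
  obtain ⟨v, -, hv⟩ := h _ hu
  set u := ‖w‖⁻¹ • w with hudef
  have hΨu : Ψ u = 0 := by rw [hudef, map_smul, hw, smul_zero]
  have hl : ∀ i, ∃ l ∈ L, ∃ c : ℝ, l - q i = v + c • u := by
    intro i
    obtain ⟨l, hl, e⟩ := hv (proj u (q i)) ⟨q i, hq i, rfl⟩
    refine ⟨l, hl, ⟪u, l⟫ - ⟪u, q i⟫, ?_⟩
    unfold proj at e
    have : l - q i - (v + (⟪u, l⟫ - ⟪u, q i⟫) • u) =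
        (l - ⟪u, l⟫ • u) - (q i - ⟪u, q i⟫ • u + v) := by
      rw [sub_smul]
      abel
    rw [← sub_eq_zero, this, e, sub_self]
  choose l hlL cc hcc using hl
  have h1 := hfA (fun i => l i - q i) (fun i _ => by
    show q i + (l i - q i) ∈ L
    rw [add_sub_cancel]
    exact hlL i)
  have h2 : f (fun i => l i - q i) = 0 := by
    rw [hf]
    simp only [hcc, map_add, map_smul, hΨu, smul_zero, add_zero]
    exact hsum v
  linarith

theorem avg (hn : 1 ≤ n) {L : Set (EuclideanSpace ℝ (Fin n))} (cL : Convex ℝ L)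
    (p t : Fin (n + 1) → EuclideanSpace ℝ (Fin n)) (h : ∀ j i, i ≠ j → p i + t j ∈ L) :
    ∃ τ, ∀ i, (((n : ℝ) - 1) / n) • p i + τ ∈ L := by
  have n0 : (0 : ℝ) < n := by exact_mod_cast hn
  refine ⟨(1 / ((n : ℝ) + 1)) • ∑ j, t j + (1 / ((n : ℝ) * (n + 1))) • ∑ j, p j, fun i => ?_⟩
  have h1 : ∑ j ∈ Finset.univ.erase i, (1 / (n : ℝ)) •
      (((n : ℝ) / (n + 1)) • (p i + t j) + (1 / ((n : ℝ) + 1)) • (p j + t i)) ∈ L := by
    refine cL.sum_mem (fun j _ => by positivity) ?_ ?_
    · rw [Finset.sum_const, Finset.card_erase_of_mem (Finset.mem_univ i), Finset.card_univ,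
        Fintype.card_fin, nsmul_eq_mul]
      simp only [Nat.add_sub_cancel]
      field_simp
    · intro j hj
      have hji : j ≠ i := (Finset.mem_erase.1 hj).1
      refine cL (h j i hji.symm) (h i j hji) (by positivity) (by positivity) ?_
      field_simp
  convert h1 using 1
  rw [Finset.sum_erase_eq_sub (Finset.mem_univ i), ← Finset.smul_sum, Finset.sum_add_distrib,
    ← Finset.smul_sum, ← Finset.smul_sum, Finset.sum_add_distrib, Finset.sum_add_distrib,
    Finset.sum_const, Finset.sum_const, Finset.card_univ, Fintype.card_fin]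
  generalize ∑ j, t j = T
  generalize ∑ j, p j = X
  rw [← Nat.cast_smul_eq_nsmul ℝ, ← Nat.cast_smul_eq_nsmul ℝ]
  push_cast
  match_scalars <;> field_simp <;> ring

theorem contain (hn : 1 ≤ n) {K L : Set (EuclideanSpace ℝ (Fin n))} (hL : IsCompact L)
    (cL : Convex ℝ L) (h : CoversShadows L K) :
    ∃ τ, ∀ x ∈ K, (((n : ℝ) - 1) / n) • x + τ ∈ L := by
  have key := Convex.helly_theorem_compact' (𝕜 := ℝ) (E := EuclideanSpace ℝ (Fin n))
    (F := fun x : K => (fun τ => (((n : ℝ) - 1) / n) • (x : EuclideanSpace ℝ (Fin n)) + τ) ⁻¹' L)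
    ?_ ?_ ?_
  · obtain ⟨τ, hτ⟩ := key
    refine ⟨τ, fun x hx => ?_⟩
    exact mem_iInter.1 hτ ⟨x, hx⟩
  · intro x a ha b hb s t hs ht hst
    have := cL ha hb hs ht hst
    show (((n : ℝ) - 1) / n) • (x : EuclideanSpace ℝ (Fin n)) + (s • a + t • b) ∈ L
    convert this using 1
    generalize (((n : ℝ) - 1) / n) • (x : EuclideanSpace ℝ (Fin n)) = z
    have e : z = (s + t) • z := by rw [hst, one_smul]
    conv_lhs => rw [e]
    simp only [smul_add, add_smul]
    abel
  · intro x
    exact (Homeomorph.addLeft ((((n : ℝ) - 1) / n) •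
      (x : EuclideanSpace ℝ (Fin n)))).isCompact_preimage.2 hL
  · intro I hI
    rw [finrank_euclideanSpace_fin] at hI
    rcases I.eq_empty_or_nonempty with rfl | hne
    · simp
    have : Nonempty I := hne.to_subtype
    have hcard : Fintype.card I ≤ Fintype.card (Fin (n + 1)) := by
      rw [Fintype.card_coe, Fintype.card_fin]
      exact hI
    obtain ⟨e⟩ := Function.Embedding.nonempty_of_card_le hcard
    have hsurj := Function.invFun_surjective e.injective
    set g : Fin (n + 1) → I := Function.invFun e with hg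
    have hnp : ∀ j : Fin (n + 1), ∃ t, ∀ i : Fin n,
        ((g (j.succAbove i) : K) : EuclideanSpace ℝ (Fin n)) + t ∈ L := fun j =>
      npoint hn hL cL h (fun i => ((g (j.succAbove i) : K) : EuclideanSpace ℝ (Fin n)))
        (fun i => (g (j.succAbove i) : K).2)
    choose t ht using hnp
    obtain ⟨τ, hτ⟩ := avg hn cL (fun i => ((g i : K) : EuclideanSpace ℝ (Fin n))) t (by
      intro j i hij
      obtain ⟨k, rfl⟩ := Fin.exists_succAbove_eq hij
      exact ht j k)
    refine ⟨τ, ?_⟩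
    rw [mem_iInter₂]
    intro x hx
    obtain ⟨i, hi⟩ := hsurj ⟨x, hx⟩
    have := hτ i
    rw [hi] at this
    exact this

end H703R3.SC
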