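import Mathlib
import Pool.Agent.Helper392.Mey.PL

/-!
# Linear Brunn-Minkowski inequality for bodies with projections of equal volume
-/

set_option autoImplicit false
open MeasureTheory Set
open scoped ENNReal

namespace H703R3.SC

/-! one dimensional Brunn-Minkowski (as in `Pool.Agent.H902R3.ZA.LBM`) -/

theorem compact_case {K1 K2 C : Set ℝ} (h1 : IsCompact K1) (h2 : IsCompact K2) (n1 : K1.Nonempty)
    (n2 : K2.Nonempty) (h : ∀ x ∈ K1, ∀ y ∈ K2, x + y ∈ C) :
    volume K1 + volume K2 ≤ volume C := by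
  have ha := h1.sSup_mem n1
  have hb := h2.sInf_mem n2
  set a := sSup K1 with had
  set b := sInf K2 with hbd
  have ua : ∀ x ∈ K1, x ≤ a := fun x hx => le_csSup h1.bddAbove hx
  have lb : ∀ x ∈ K2, b ≤ x := fun x hx => csInf_le h2.bddBelow hx
  have e1 : volume ((fun x => x + (-b)) ⁻¹' K1) = volume K1 := measure_preimage_add_right _ _ _
  have e2 : volume ((fun x => (-a) + x) ⁻¹' K2) = volume K2 := measure_preimage_add _ _ _
  have m2 : MeasurableSet ((fun x => (-a) + x) ⁻¹' K2) :=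
    (measurable_const_add (-a)) h2.measurableSet
  have e3 : volume (((fun x => (-a) + x) ⁻¹' K2) \ {a + b}) = volume K2 := by
    rw [measure_sdiff_null (by simp), e2]
  rw [← e1, ← e3, ← measure_union _ (m2.diff (measurableSet_singleton _))]
  · apply measure_mono
    rintro x (hx | hx)
    · have := h _ hx _ hb
      have e : x + -b + b = x := by ring
      rwa [e] at this
    · have := h _ ha _ hx.1
      have e : a + (-a + x) = x := by ring
      rwa [e] at this
  · rw [Set.disjoint_left]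
    intro x hx hx'
    have q1 := ua _ hx
    have q2 := lb _ hx'.1
    apply hx'.2
    rw [Set.mem_singleton_iff]
    linarith

theorem add_case {A B C : Set ℝ} (mA : MeasurableSet A) (mB : MeasurableSet B) (nA : A.Nonempty)
    (nB : B.Nonempty) (h : ∀ x ∈ A, ∀ y ∈ B, x + y ∈ C) : volume A + volume B ≤ volume C := by
  by_contra hc
  rw [not_le] at hc
  have hA0 : volume A ≠ 0 := by
    intro h0
    rw [h0, zero_add] at hc
    obtain ⟨a, ha⟩ := nA
    have e2 : volume ((fun x => (-a) + x) ⁻¹' B) = volume B := measure_preimage_add _ _ _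
    rw [← e2] at hc
    refine absurd hc (not_lt.2 (measure_mono ?_))
    intro x hx
    have := h _ ha _ hx
    have e : a + (-a + x) = x := by ring
    rwa [e] at this
  have hB0 : volume B ≠ 0 := by
    intro h0
    rw [h0, add_zero] at hc
    obtain ⟨b, hb⟩ := nB
    have e2 : volume ((fun x => x + (-b)) ⁻¹' A) = volume A := measure_preimage_add_right _ _ _
    rw [← e2] at hc
    refine absurd hc (not_lt.2 (measure_mono ?_))
    intro x hx
    have := h _ hx _ hb
    have e : x + -b + b = x := by ring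
    rwa [e] at this
  obtain ⟨y, hy, z, hz, hyz⟩ := ENNReal.exists_lt_add_of_lt_add hc hA0 hB0
  obtain ⟨K1, hK1, cK1, v1⟩ := mA.exists_lt_isCompact hy
  obtain ⟨K2, hK2, cK2, v2⟩ := mB.exists_lt_isCompact hz
  have n1 : K1.Nonempty := nonempty_of_measure_ne_zero (ne_bot_of_gt v1)
  have n2 : K2.Nonempty := nonempty_of_measure_ne_zero (ne_bot_of_gt v2)
  have := compact_case cK1 cK2 n1 n2 (C := C) (fun x hx y hy => h x (hK1 hx) y (hK2 hy))
  exact absurd (hyz.trans_le ((add_le_add v1.le v2.le).trans this)) (lt_irrefl _)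

theorem lbm {s t : ℝ} (hs : 0 < s) (ht : 0 < t) {A B C : Set ℝ} (mA : MeasurableSet A)
    (mB : MeasurableSet B) (nA : A.Nonempty) (nB : B.Nonempty)
    (h : ∀ x ∈ A, ∀ y ∈ B, s * x + t * y ∈ C) :
    ENNReal.ofReal s * volume A + ENNReal.ofReal t * volume B ≤ volume C := by
  have e1 : volume ((fun x => s⁻¹ * x) ⁻¹' A) = ENNReal.ofReal s * volume A := by
    rw [Real.volume_preimage_mul_left (inv_ne_zero hs.ne'), inv_inv, abs_of_pos hs]
  have e2 : volume ((fun x => t⁻¹ * x) ⁻¹' B) = ENNReal.ofReal t * volume B := by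
    rw [Real.volume_preimage_mul_left (inv_ne_zero ht.ne'), inv_inv, abs_of_pos ht]
  rw [← e1, ← e2]
  apply add_case
  · exact (measurable_const_mul _) mA
  · exact (measurable_const_mul _) mB
  · obtain ⟨x, hx⟩ := nA
    refine ⟨s * x, ?_⟩
    rw [Set.mem_preimage, inv_mul_cancel_left₀ hs.ne']
    exact hx
  · obtain ⟨x, hx⟩ := nB
    refine ⟨t * x, ?_⟩
    rw [Set.mem_preimage, inv_mul_cancel_left₀ ht.ne']
    exact hx
  · intro x hx y hy
    have := h _ hx _ hy
    rwa [mul_inv_cancel_left₀ hs.ne', mul_inv_cancel_left₀ ht.ne'] at this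

variable {m : ℕ}

/-- weak Brunn-Minkowski inequality with dyadic weights -/
theorem wbm (k : ℕ) {X Y C : Set (Fin m → ℝ)} (hX : IsCompact X) (cX : Convex ℝ X)
    (hY : IsCompact Y) (nX : X.Nonempty) (mC : MeasurableSet C)
    (h : ∀ x ∈ X, ∀ y ∈ Y, (1 - (1 / 2 : ℝ) ^ k) • x + (1 / 2 : ℝ) ^ k • y ∈ C) :
    min (volume X) (volume Y) ≤ volume C := by
  induction k generalizing C with
  | zero =>
    refine (min_le_right _ _).trans (measure_mono fun y hy => ?_)
    obtain ⟨x, hx⟩ := nX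
    simpa using h x hx y hy
  | succ k ih =>
    set Z : Set (Fin m → ℝ) := (fun p : (Fin m → ℝ) × (Fin m → ℝ) =>
      (1 - (1 / 2 : ℝ) ^ k) • p.1 + (1 / 2 : ℝ) ^ k • p.2) '' (X ×ˢ Y) with hZ
    have cZ : IsCompact Z := (hX.prod hY).image (by fun_prop)
    have h1 := ih (C := Z) cZ.measurableSet (fun x hx y hy => ⟨(x, y), ⟨hx, hy⟩, rfl⟩)
    have h2 : volume X * volume Z ≤ volume C ^ 2 := by
      refine Pool.Agent.Helper392.Mey.PL.bm_pi hX.measurableSet cZ.measurableSet mC ?_
      rintro a ha _ ⟨⟨x, y⟩, ⟨hx, hy⟩, rfl⟩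
      have hq : (1 / 2 : ℝ) ^ (k + 1) = (1 / 2 : ℝ) ^ k / 2 := by rw [pow_succ]; ring
      have q0 : 0 < (1 / 2 : ℝ) ^ k := by positivity
      have q1 : (1 / 2 : ℝ) ^ k ≤ 1 := pow_le_one₀ (by norm_num) (by norm_num)
      rw [hq] at h
      generalize (1 / 2 : ℝ) ^ k = q at *
      have hd : 0 < 1 - q / 2 := by linarith
      have hd' : 1 - q / 2 ≠ 0 := hd.ne'
      have hx'' : ((1 / 2) / (1 - q / 2)) • a + (((1 - q) / 2) / (1 - q / 2)) • x ∈ X := by
        apply cX ha hx (by positivity) (div_nonneg (by linarith) hd.le)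
        rw [← add_div, div_eq_one_iff_eq hd']
        ring
      have h5 := h _ hx'' y hy
      convert h5 using 1
      ext i
      simp only [Pi.add_apply, Pi.smul_apply, smul_eq_mul]
      have e1 : (1 - q / 2) * ((1 / 2) / (1 - q / 2) * a i + ((1 - q) / 2) / (1 - q / 2) * x i)
          = (1 / 2) * a i + ((1 - q) / 2) * x i := by
        rw [mul_add, ← mul_assoc, ← mul_assoc, mul_div_cancel₀ _ hd', mul_div_cancel₀ _ hd']
      rw [e1]
      ring
    have h3 : min (volume X) (volume Y) ^ 2 ≤ volume C ^ 2 := by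
      refine le_trans ?_ h2
      rw [sq]
      exact mul_le_mul' (min_le_left _ _) h1
    by_contra hc
    exact absurd h3 (not_le.2 (ENNReal.pow_lt_pow_left two_ne_zero (not_le.1 hc)))

/-- bases of the vertical segments of length `s` inside `A` -/
def U (A : Set (ℝ × (Fin m → ℝ))) (s : ℝ) : Set (Fin m → ℝ) :=
  {y | ∃ z : ℝ, (z, y) ∈ A ∧ (z + s, y) ∈ A}

theorem U_eq (A : Set (ℝ × (Fin m → ℝ))) (s : ℝ) :
    U A s = Prod.snd '' (A ∩ (fun p : ℝ × (Fin m → ℝ) => p + (s, (0 : Fin m → ℝ))) ⁻¹' A) := by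
  ext y
  constructor
  · rintro ⟨z, h1, h2⟩
    exact ⟨(z, y), ⟨h1, by simpa using h2⟩, rfl⟩
  · rintro ⟨⟨z, y'⟩, ⟨h1, h2⟩, rfl⟩
    exact ⟨z, h1, by simpa using h2⟩

theorem U_zero (A : Set (ℝ × (Fin m → ℝ))) : U A 0 = Prod.snd '' A := by
  ext y
  constructor
  · rintro ⟨z, h1, -⟩
    exact ⟨(z, y), h1, rfl⟩
  · rintro ⟨⟨z, y'⟩, h1, rfl⟩
    exact ⟨z, h1, by simpa using h1⟩

theorem U_compact {A : Set (ℝ × (Fin m → ℝ))} (hA : IsCompact A) (s : ℝ) : IsCompact (U A s) := by
  rw [U_eq]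
  exact (hA.inter_right (hA.isClosed.preimage (by fun_prop))).image continuous_snd

theorem U_convex {A : Set (ℝ × (Fin m → ℝ))} (cA : Convex ℝ A) (s : ℝ) : Convex ℝ (U A s) := by
  rintro y ⟨z, h1, h2⟩ y' ⟨z', h1', h2'⟩ a b ha hb hab
  refine ⟨a * z + b * z', ?_, ?_⟩
  · simpa using cA h1 h1' ha hb hab
  · have := cA h2 h2' ha hb hab
    have e : a * z + b * z' + s = a * (z + s) + b * (z' + s) := by
      have : s = (a + b) * s := by rw [hab, one_mul]
      nlinarith
    rw [e]
    simpa using this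

theorem U_anti {A : Set (ℝ × (Fin m → ℝ))} (cA : Convex ℝ A) {s t : ℝ} (hs : 0 ≤ s)
    (hst : s ≤ t) : U A t ⊆ U A s := by
  rintro y ⟨z, h1, h2⟩
  refine ⟨z, h1, ?_⟩
  rcases eq_or_lt_of_le (hs.trans hst) with h0 | h0
  · have hs0 : s = 0 := by linarith
    simpa [hs0] using h1
  have := cA h1 h2 (a := 1 - s / t) (b := s / t)
    (by rw [sub_nonneg, div_le_one h0]; exact hst) (by positivity) (by ring)
  convert this using 1
  ext i
  · simp only [Prod.fst_add, Prod.smul_fst, smul_eq_mul]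
    field_simp
    ring
  · simp only [Prod.snd_add, Prod.smul_snd, Pi.add_apply, Pi.smul_apply, smul_eq_mul]
    ring

/-- the body shaken down to the horizontal hyperplane -/
def W (A : Set (ℝ × (Fin m → ℝ))) : Set (ℝ × (Fin m → ℝ)) := {p | 0 ≤ p.1 ∧ p.2 ∈ U A p.1}

theorem W_compact {A : Set (ℝ × (Fin m → ℝ))} (hA : IsCompact A) : IsCompact (W A) := by
  have e : W A = (fun p : (ℝ × (Fin m → ℝ)) × (ℝ × (Fin m → ℝ)) => (p.2.1 - p.1.1, p.1.2)) ''
      ((A ×ˢ A) ∩ {p | p.1.2 = p.2.2 ∧ p.1.1 ≤ p.2.1}) := by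
    ext ⟨s, y⟩
    constructor
    · rintro ⟨h0, z, h1, h2⟩
      refine ⟨((z, y), (z + s, y)), ⟨⟨h1, h2⟩, rfl, ?_⟩, ?_⟩
      · show z ≤ z + s
        have : 0 ≤ s := h0
        linarith
      · simp
    · rintro ⟨⟨⟨z, y1⟩, ⟨z', y2⟩⟩, ⟨⟨h1, h2⟩, h3, h4⟩, h5⟩
      simp only [Prod.mk.injEq] at h5
      obtain ⟨rfl, rfl⟩ := h5
      simp only at h3 h4
      subst h3
      refine ⟨?_, z, h1, ?_⟩
      · show 0 ≤ z' - z
        linarith
      · simpa using h2
  rw [e]
  refine IsCompact.image ?_ (by fun_prop)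
  refine (hA.prod hA).inter_right ?_
  have c1 : IsClosed {p : (ℝ × (Fin m → ℝ)) × (ℝ × (Fin m → ℝ)) | p.1.2 = p.2.2} :=
    isClosed_eq (by fun_prop) (by fun_prop)
  have c2 : IsClosed {p : (ℝ × (Fin m → ℝ)) × (ℝ × (Fin m → ℝ)) | p.1.1 ≤ p.2.1} :=
    isClosed_le (by fun_prop) (by fun_prop)
  exact c1.inter c2

theorem section_eq {A : Set (ℝ × (Fin m → ℝ))} (hA : IsCompact A) (cA : Convex ℝ A)
    (y : Fin m → ℝ) : volume ((fun z : ℝ => (z, y)) ⁻¹' A) =
      volume ((fun s : ℝ => (s, y)) ⁻¹' (W A)) := by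
  set I : Set ℝ := (fun z : ℝ => (z, y)) ⁻¹' A with hI
  have cI : Convex ℝ I := by
    intro a ha b hb s t hs ht hst
    have := cA ha hb hs ht hst
    show (s • a + t • b, y) ∈ A
    convert this using 1
    ext i
    · simp
    · simp only [Prod.snd_add, Prod.smul_snd, Pi.add_apply, Pi.smul_apply, smul_eq_mul]
      rw [← add_mul, hst, one_mul]
  have kI : IsCompact I := by
    have : I = Prod.fst '' (A ∩ {p | p.2 = y}) := by
      ext z
      constructor
      · intro hz
        exact ⟨(z, y), ⟨hz, rfl⟩, rfl⟩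
      · rintro ⟨⟨z', y'⟩, ⟨h1, h2⟩, rfl⟩
        simp only [mem_ofPred_eq] at h2
        subst h2
        exact h1
    rw [this]
    exact (hA.inter_right (isClosed_eq (by fun_prop) (by fun_prop))).image continuous_fst
  rcases I.eq_empty_or_nonempty with hE | hN
  · rw [hE]
    have : (fun s : ℝ => (s, y)) ⁻¹' (W A) = ∅ := by
      ext s
      simp only [mem_preimage, mem_empty_iff_false, iff_false]
      rintro ⟨h0, z, h1, h2⟩
      have : z ∈ I := h1
      rw [hE] at this
      exact this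
    rw [this]
  · have hc : IsConnected I := ⟨hN, cI.isPreconnected⟩
    have e := eq_Icc_of_connected_compact hc kI
    have hab : sInf I ≤ sSup I := by
      obtain ⟨z, hz⟩ := hN
      exact (csInf_le kI.bddBelow hz).trans (le_csSup kI.bddAbove hz)
    have e2 : (fun s : ℝ => (s, y)) ⁻¹' (W A) = Icc 0 (sSup I - sInf I) := by
      ext s
      simp only [mem_preimage, mem_Icc]
      constructor
      · rintro ⟨h0, z, h1, h2⟩
        have h1' : z ∈ I := h1
        have h2' : z + s ∈ I := h2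
        rw [e, mem_Icc] at h1' h2'
        exact ⟨h0, by linarith [h1'.1, h2'.2]⟩
      · rintro ⟨h0, h1⟩
        refine ⟨h0, sInf I, ?_, ?_⟩
        · show sInf I ∈ I
          exact kI.sInf_mem hN
        · have h3 : sInf I + s ∈ Icc (sInf I) (sSup I) := ⟨by linarith, by linarith⟩
          rw [← e] at h3
          exact h3
    rw [e2, Real.volume_Icc, sub_zero]
    conv_lhs => rw [e]
    rw [Real.volume_Icc]

theorem vol_W {A : Set (ℝ × (Fin m → ℝ))} (hA : IsCompact A) (cA : Convex ℝ A) :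
    volume A = volume (W A) := by
  rw [Measure.volume_eq_prod, Measure.prod_apply_symm hA.measurableSet,
    Measure.prod_apply_symm (W_compact hA).measurableSet]
  exact lintegral_congr fun y => section_eq hA cA y

/-- volume of the base of the vertical segments of length `s` -/
noncomputable def F (A : Set (ℝ × (Fin m → ℝ))) (s : ℝ) : ℝ :=
  (volume (Prod.mk s ⁻¹' (W A))).toReal

theorem mk_W_nonneg (A : Set (ℝ × (Fin m → ℝ))) {s : ℝ} (hs : 0 ≤ s) :
    Prod.mk s ⁻¹' (W A) = U A s := by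
  ext y
  exact ⟨fun h => h.2, fun h => ⟨hs, h⟩⟩

theorem mk_W_neg (A : Set (ℝ × (Fin m → ℝ))) {s : ℝ} (hs : ¬ 0 ≤ s) :
    Prod.mk s ⁻¹' (W A) = ∅ := by
  ext y
  simp only [mem_preimage, mem_empty_iff_false, iff_false]
  exact fun h => hs h.1

theorem mk_W_lt_top {A : Set (ℝ × (Fin m → ℝ))} (hA : IsCompact A) (s : ℝ) :
    volume (Prod.mk s ⁻¹' (W A)) < ⊤ := by
  by_cases hs : 0 ≤ s
  · rw [mk_W_nonneg A hs]
    exact (U_compact hA s).measure_lt_top
  · rw [mk_W_neg A hs]
    simp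

theorem F_measurable {A : Set (ℝ × (Fin m → ℝ))} (hA : IsCompact A) : Measurable (F A) :=
  (measurable_measure_prodMk_left (W_compact hA).measurableSet).ennreal_toReal

theorem vol_eq {A : Set (ℝ × (Fin m → ℝ))} (hA : IsCompact A) (cA : Convex ℝ A) :
    volume A = ∫⁻ v in Ioi (0 : ℝ), volume {s | v < F A s} := by
  have h1 := lintegral_eq_lintegral_meas_lt (volume : Measure ℝ) (f := F A)
      (Filter.Eventually.of_forall fun s => ENNReal.toReal_nonneg) (F_measurable hA).aemeasurable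
  rw [vol_W hA cA, Measure.volume_eq_prod, Measure.prod_apply (W_compact hA).measurableSet, ← h1]
  refine lintegral_congr fun s => ?_
  rw [F, ENNReal.ofReal_toReal (mk_W_lt_top hA s).ne]

theorem F_nonneg_of_pos {A : Set (ℝ × (Fin m → ℝ))} {s v : ℝ} (hv : 0 < v) (h : v < F A s) :
    0 ≤ s := by
  by_contra hs
  rw [F, mk_W_neg A hs] at h
  simp at h
  linarith

theorem F_le_zero {A : Set (ℝ × (Fin m → ℝ))} (hA : IsCompact A) (cA : Convex ℝ A) (s : ℝ) :
    F A s ≤ F A 0 := by
  unfold F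
  refine ENNReal.toReal_mono (mk_W_lt_top hA 0).ne ?_
  by_cases hs : 0 ≤ s
  · rw [mk_W_nonneg A hs, mk_W_nonneg A le_rfl]
    exact measure_mono (U_anti cA le_rfl hs)
  · rw [mk_W_neg A hs]
    simp

/-- **Linear Brunn-Minkowski inequality**: projections of equal volume, weights `1 - 2⁻ᵏ`, `2⁻ᵏ` -/
theorem linBM (k : ℕ) (hk : 1 ≤ k) {A B C : Set (ℝ × (Fin m → ℝ))}
    (hA : IsCompact A) (cA : Convex ℝ A)
    (hB : IsCompact B) (cB : Convex ℝ B)
    (hC : IsCompact C) (cC : Convex ℝ C)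
    (hproj : volume (Prod.snd '' A) = volume (Prod.snd '' B))
    (h : ∀ a ∈ A, ∀ b ∈ B, (1 - (1 / 2 : ℝ) ^ k) • a + (1 / 2 : ℝ) ^ k • b ∈ C) :
    ENNReal.ofReal (1 - (1 / 2 : ℝ) ^ k) * volume A + ENNReal.ofReal ((1 / 2 : ℝ) ^ k) * volume B
      ≤ volume C := by
  have q0 : 0 < (1 / 2 : ℝ) ^ k := by positivity
  have q1 : (1 / 2 : ℝ) ^ k < 1 := pow_lt_one₀ (by norm_num) (by norm_num) (by omega)
  have hm : ∀ u : ℝ → ℝ, Measurable fun t : ℝ => volume {x | t < u x} := fun u =>
    Antitone.measurable fun _ _ hst => measure_mono fun _ hx => lt_of_le_of_lt hst hx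
  have hF0 : F A 0 = F B 0 := by
    unfold F
    rw [mk_W_nonneg A le_rfl, mk_W_nonneg B le_rfl, U_zero, U_zero, hproj]
  rw [vol_eq hA cA, vol_eq hB cB, vol_eq hC cC, ← lintegral_const_mul _ (hm _),
    ← lintegral_const_mul _ (hm _), ← lintegral_add_left ((hm _).const_mul _)]
  refine setLIntegral_mono' measurableSet_Ioi fun v hv => ?_
  rw [mem_Ioi] at hv
  by_cases hvP : v < F A 0
  · refine lbm (by linarith) q0 (measurableSet_lt measurable_const (F_measurable hA))
      (measurableSet_lt measurable_const (F_measurable hB)) ⟨0, hvP⟩ ⟨0, by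
        show v < F B 0
        rw [← hF0]; exact hvP⟩ ?_
    intro x hx y hy
    have hx' : v < F A x := hx
    have hy' : v < F B y := hy
    have x0 := F_nonneg_of_pos hv hx'
    have y0 := F_nonneg_of_pos hv hy'
    show v < F C _
    refine lt_of_lt_of_le (lt_min hx' hy') ?_
    unfold F
    have z0 : 0 ≤ (1 - (1 / 2 : ℝ) ^ k) * x + (1 / 2 : ℝ) ^ k * y := by
      have : 0 ≤ 1 - (1 / 2 : ℝ) ^ k := by linarith
      positivity
    rw [mk_W_nonneg A x0, mk_W_nonneg B y0, mk_W_nonneg C z0]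
    have nX : (U A x).Nonempty := by
      rw [F, mk_W_nonneg A x0] at hx'
      apply nonempty_of_measure_ne_zero (μ := volume)
      intro h0
      rw [h0] at hx'
      simp at hx'
      linarith
    have key := wbm k (U_compact hA x) (U_convex cA x) (U_compact hB y) nX
      (U_compact hC ((1 - (1 / 2 : ℝ) ^ k) * x + (1 / 2 : ℝ) ^ k * y)).measurableSet ?_
    · rw [← ENNReal.toReal_min (U_compact hA x).measure_lt_top.ne
        (U_compact hB y).measure_lt_top.ne]
      exact ENNReal.toReal_mono (U_compact hC _).measure_lt_top.ne key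
    · rintro y1 ⟨z1, h1, h2⟩ y2 ⟨z2, h3, h4⟩
      refine ⟨(1 - (1 / 2 : ℝ) ^ k) * z1 + (1 / 2 : ℝ) ^ k * z2, ?_, ?_⟩
      · simpa using h _ h1 _ h3
      · have := h _ h2 _ h4
        convert this using 1
        ext i
        · simp only [Prod.fst_add, Prod.smul_fst, smul_eq_mul]
          ring
        · simp
  · have e1 : {s | v < F A s} = ∅ := by
      ext s
      simp only [mem_ofPred_eq, mem_empty_iff_false, iff_false, not_lt]
      exact (F_le_zero hA cA s).trans (not_lt.1 hvP)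
    have e2 : {s | v < F B s} = ∅ := by
      ext s
      simp only [mem_ofPred_eq, mem_empty_iff_false, iff_false, not_lt]
      refine (F_le_zero hB cB s).trans ?_
      rw [← hF0]
      exact not_lt.1 hvP
    rw [e1, e2]
    simp

end H703R3.SC
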