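import Mathlib
import Pool.Agent.H703R3.SC2

/-!
# The volume inequality from containment and one covered shadow
-/

set_option autoImplicit false
open MeasureTheory Set Filter Topology
open scoped ENNReal Pointwise

namespace H703R3.SC

theorem bern (m : ℕ) {r : ℝ} (h0 : 0 ≤ r) : 0 ≤ 1 - (m + 1) * r ^ m + m * r ^ (m + 1) := by
  induction m with
  | zero => simp
  | succ m ih =>
    have h1 : 0 ≤ (m + 1 : ℝ) * r ^ m * (1 - r) ^ 2 := by positivity
    have e : 1 - (((m + 1 : ℕ) : ℝ) + 1) * r ^ (m + 1) + ((m + 1 : ℕ) : ℝ) * r ^ (m + 1 + 1)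
        = (1 - (m + 1) * r ^ m + m * r ^ (m + 1)) + (m + 1 : ℝ) * r ^ m * (1 - r) ^ 2 := by
      push_cast
      ring
    rw [e]
    exact add_nonneg ih h1

theorem lim_ineq (N : ℕ) (x a V : ℝ)
    (h : ∀ k : ℕ, 1 ≤ k →
      (1 - (1 / 2 : ℝ) ^ k) * V + (1 / 2 : ℝ) ^ k * a ≤ (1 + (1 / 2 : ℝ) ^ k * x) ^ N * V) :
    a ≤ (N * x + 1) * V := by
  have hd : HasDerivAt (fun t : ℝ => (1 + t * x) ^ N) (N * x) 0 := by
    have h1 : HasDerivAt (fun t : ℝ => 1 + t * x) x 0 := by
      simpa using ((hasDerivAt_id (0 : ℝ)).mul_const x).const_add 1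
    have h2 := h1.fun_pow N
    simpa using h2
  have h3 := hasDerivAt_iff_tendsto_slope_zero.1 hd
  have h4 : Tendsto (fun k : ℕ => (1 / 2 : ℝ) ^ k) atTop (𝓝[≠] 0) := by
    rw [tendsto_nhdsWithin_iff]
    refine ⟨tendsto_pow_atTop_nhds_zero_of_lt_one (by norm_num) (by norm_num), ?_⟩
    filter_upwards with k
    have : (1 / 2 : ℝ) ^ k ≠ 0 := by positivity
    exact this
  have h5 := h3.comp h4
  have h6 : Tendsto (fun k : ℕ => (((1 / 2 : ℝ) ^ k)⁻¹ • ((1 + (0 + (1 / 2 : ℝ) ^ k) * x) ^ N -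
      (1 + 0 * x) ^ N)) * V) atTop (𝓝 (N * x * V)) := h5.mul_const V
  have h7 : a - V ≤ N * x * V := by
    refine ge_of_tendsto h6 ?_
    filter_upwards [eventually_ge_atTop 1] with k hk
    have q0 : 0 < (1 / 2 : ℝ) ^ k := by positivity
    have := h k hk
    generalize (1 / 2 : ℝ) ^ k = q at *
    rw [zero_add, zero_mul, add_zero, one_pow, smul_eq_mul, mul_assoc, ← div_eq_inv_mul,
      le_div_iff₀ q0]
    linarith
  linarith

variable {m : ℕ}

instance haarProd : (volume : Measure (ℝ × (Fin m → ℝ))).IsAddHaarMeasure := by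
  rw [Measure.volume_eq_prod]
  infer_instance

theorem main_ineq (hm : 1 ≤ m) {K L : Set (ℝ × (Fin m → ℝ))} (hK : IsCompact K)
    (cK : Convex ℝ K) (hL : IsCompact L) (cL : Convex ℝ L)
    (h1 : ∃ x, ∀ k ∈ K, ∃ l ∈ L, k = (((m : ℝ) + 1) / m) • l + x)
    (h2 : ∃ v, ∀ k ∈ K, ∃ l ∈ L, l.2 = k.2 + v) :
    volume K ≤ ENNReal.ofReal ((2 * m + 1) / m) * volume L := by
  have hm0 : (0 : ℝ) < m := by exact_mod_cast hm
  obtain ⟨v, hv⟩ := h2
  obtain ⟨x, hx⟩ := h1
  have fPK : volume (Prod.snd '' K) ≠ ⊤ := (hK.image continuous_snd).measure_lt_top.ne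
  have fPL : volume (Prod.snd '' L) ≠ ⊤ := (hL.image continuous_snd).measure_lt_top.ne
  have fK : volume K ≠ ⊤ := hK.measure_lt_top.ne
  have fL : volume L ≠ ⊤ := hL.measure_lt_top.ne
  have hle : volume (Prod.snd '' K) ≤ volume (Prod.snd '' L) := by
    rw [← measure_preimage_add_right volume v (Prod.snd '' L)]
    refine measure_mono ?_
    rintro _ ⟨k, hk, rfl⟩
    obtain ⟨l, hl, e⟩ := hv k hk
    exact ⟨l, hl, e⟩
  by_cases hP : volume (Prod.snd '' K) = 0
  · have : volume K = 0 := by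
      refine le_antisymm ?_ bot_le
      calc volume K ≤ volume ((univ : Set ℝ) ×ˢ (Prod.snd '' K)) :=
            measure_mono fun p hp => ⟨mem_univ _, p, hp, rfl⟩
        _ = 0 := by rw [Measure.volume_eq_prod, Measure.prod_prod, hP, mul_zero]
    rw [this]
    exact bot_le
  set pK := (volume (Prod.snd '' K)).toReal with hpK
  set pL := (volume (Prod.snd '' L)).toReal with hpL
  have pK0 : 0 < pK := ENNReal.toReal_pos hP fPK
  have pKL : pK ≤ pL := ENNReal.toReal_mono fPL hle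
  have pL0 : 0 < pL := pK0.trans_le pKL
  set r : ℝ := (pK / pL) ^ ((m : ℝ)⁻¹) with hr
  have r0 : 0 < r := Real.rpow_pos_of_pos (div_pos pK0 pL0) _
  have r1 : r ≤ 1 := Real.rpow_le_one (div_pos pK0 pL0).le ((div_le_one pL0).2 pKL)
    (by positivity)
  have rm : r ^ m = pK / pL := Real.rpow_inv_natCast_pow (div_pos pK0 pL0).le (by omega)
  set K' : Set (ℝ × (Fin m → ℝ)) := r⁻¹ • K with hK'
  have kK' : IsCompact K' := hK.smul _
  have cK' : Convex ℝ K' := cK.smul _
  have eproj : volume (Prod.snd '' L) = volume (Prod.snd '' K') := by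
    have e1 : Prod.snd '' K' = r⁻¹ • (Prod.snd '' K) := by
      ext y
      constructor
      · rintro ⟨_, ⟨k, hk, rfl⟩, rfl⟩
        exact ⟨k.2, ⟨k, hk, rfl⟩, rfl⟩
      · rintro ⟨_, ⟨k, hk, rfl⟩, rfl⟩
        exact ⟨r⁻¹ • k, ⟨k, hk, rfl⟩, rfl⟩
    rw [e1, Measure.addHaar_smul, Module.finrank_fin_fun, abs_of_pos (by positivity), inv_pow, rm,
      inv_div, ← ENNReal.ofReal_toReal fPK, ← ENNReal.ofReal_toReal fPL, ← hpK, ← hpL,
      ← ENNReal.ofReal_mul (by positivity)]
    congr 1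
    field_simp
  have vK' : volume K' = ENNReal.ofReal ((r⁻¹) ^ (m + 1) * (volume K).toReal) := by
    rw [hK', Measure.addHaar_smul, Module.finrank_prod, Module.finrank_fin_fun,
      Module.finrank_self, abs_of_pos (by positivity), add_comm 1 m,
      ENNReal.ofReal_mul (by positivity), ENNReal.ofReal_toReal fK]
  set e : ℝ := ((m : ℝ) + 1) / m with he
  have e1 : 1 ≤ e := by
    rw [he, le_div_iff₀ hm0]
    linarith
  have key : (r⁻¹) ^ (m + 1) * (volume K).toReal ≤
      (((m + 1 : ℕ) : ℝ) * (e / r - 1) + 1) * (volume L).toReal := by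
    apply lim_ineq
    intro k hk
    have q0 : 0 < (1 / 2 : ℝ) ^ k := by positivity
    have q1 : (1 / 2 : ℝ) ^ k < 1 := pow_lt_one₀ (by norm_num) (by norm_num) (by omega)
    set C : Set (ℝ × (Fin m → ℝ)) := (1 - (1 / 2 : ℝ) ^ k) • L + (1 / 2 : ℝ) ^ k • K' with hC
    have kC : IsCompact C := (hL.smul _).add (kK'.smul _)
    have cC : Convex ℝ C := (cL.smul _).add (cK'.smul _)
    have hlin := linBM k hk hL cL kK' cK' kC cC eproj
      (fun a ha b hb => Set.add_mem_add (Set.smul_mem_smul_set ha) (Set.smul_mem_smul_set hb))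
    have hsub : volume C ≤ ENNReal.ofReal ((1 + (1 / 2 : ℝ) ^ k * (e / r - 1)) ^ (m + 1)) *
        volume L := by
      have s0 : 0 < 1 + (1 / 2 : ℝ) ^ k * (e / r - 1) := by
        have : 1 ≤ e / r := by
          rw [le_div_iff₀ r0]
          linarith
        have : 0 ≤ (1 / 2 : ℝ) ^ k * (e / r - 1) := mul_nonneg q0.le (by linarith)
        linarith
      have e2 : ENNReal.ofReal ((1 + (1 / 2 : ℝ) ^ k * (e / r - 1)) ^ (m + 1)) * volume L =
          volume ((1 + (1 / 2 : ℝ) ^ k * (e / r - 1)) • L) := by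
        rw [Measure.addHaar_smul, Module.finrank_prod, Module.finrank_fin_fun,
          Module.finrank_self, abs_of_pos (by positivity), add_comm 1 m]
      rw [e2, ← measure_preimage_add_right volume (-(((1 / 2 : ℝ) ^ k * r⁻¹) • x))
        ((1 + (1 / 2 : ℝ) ^ k * (e / r - 1)) • L)]
      refine measure_mono ?_
      rintro _ ⟨_, ⟨l1, hl1, rfl⟩, _, ⟨_, ⟨k1, hk1, rfl⟩, rfl⟩, rfl⟩
      obtain ⟨l2, hl2, rfl⟩ := hx k1 hk1
      generalize (1 / 2 : ℝ) ^ k = q at *
      set s := 1 + q * (e / r - 1) with hs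
      have s0' : s ≠ 0 := s0.ne'
      refine ⟨((1 - q) / s) • l1 + ((q * (e / r)) / s) • l2, ?_, ?_⟩
      · apply cL hl1 hl2
        · exact div_nonneg (by linarith) s0.le
        · positivity
        · rw [← add_div, div_eq_one_iff_eq s0', hs]
          ring
      · show s • (((1 - q) / s) • l1 + ((q * (e / r)) / s) • l2) =
          ((1 - q) • l1 + q • r⁻¹ • (e • l2 + x)) + -((q * r⁻¹) • x)
        rw [smul_add, smul_smul, smul_smul, mul_div_cancel₀ _ s0', mul_div_cancel₀ _ s0']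
        have e3 : q * (e / r) = q * (r⁻¹ * e) := by
          rw [div_eq_mul_inv]
          ring
        rw [e3]
        module
    have h3 := hlin.trans hsub
    rw [vK', ← ENNReal.ofReal_toReal fL, ← ENNReal.ofReal_mul (by linarith),
      ← ENNReal.ofReal_mul q0.le, ← ENNReal.ofReal_add, ← ENNReal.ofReal_mul] at h3
    · have hnn : 0 ≤ (1 + (1 / 2 : ℝ) ^ k * (e / r - 1)) ^ (m + 1) * (volume L).toReal := by
        have : 1 ≤ e / r := by
          rw [le_div_iff₀ r0]
          linarith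
        have h5 : 0 ≤ (1 / 2 : ℝ) ^ k * (e / r - 1) := mul_nonneg q0.le (by linarith)
        exact mul_nonneg (pow_nonneg (by linarith) _) ENNReal.toReal_nonneg
      exact (ENNReal.ofReal_le_ofReal_iff hnn).1 h3
    · have : 1 ≤ e / r := by
        rw [le_div_iff₀ r0]
        linarith
      have h5 : 0 ≤ (1 / 2 : ℝ) ^ k * (e / r - 1) := mul_nonneg q0.le (by linarith)
      exact pow_nonneg (by linarith) _
    · exact mul_nonneg (by linarith) ENNReal.toReal_nonneg
    · have := ENNReal.toReal_nonneg (a := volume K)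
      positivity
  -- conclusion
  have hfin : (volume K).toReal ≤ ((2 * m + 1) / m) * (volume L).toReal := by
    have VL := ENNReal.toReal_nonneg (a := volume L)
    have h4 : (volume K).toReal ≤ (r ^ (m + 1) * (((m + 1 : ℕ) : ℝ) * (e / r - 1) + 1)) *
        (volume L).toReal := by
      have := mul_le_mul_of_nonneg_left key (pow_pos r0 (m + 1)).le
      rw [← mul_assoc, ← mul_pow, mul_inv_cancel₀ r0.ne', one_pow, one_mul] at this
      linarith
    refine h4.trans (mul_le_mul_of_nonneg_right ?_ VL)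
    have e5 : r ^ (m + 1) * (((m + 1 : ℕ) : ℝ) * (e / r - 1) + 1) =
        (m + 1) * e * r ^ m - m * r ^ (m + 1) := by
      push_cast
      rw [pow_succ]
      field_simp
      ring
    have e6 : (2 * m + 1) / m = (m + 1) * e - m := by
      rw [he]
      field_simp
      ring
    rw [e5, e6]
    have b := bern m r0.le
    have r2 : r ^ m ≤ 1 := pow_le_one₀ r0.le r1
    have h6 : 0 ≤ ((m : ℝ) + 1) * (e - 1) * (1 - r ^ m) :=
      mul_nonneg (mul_nonneg (by positivity) (by linarith)) (by linarith)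
    nlinarith
  rw [← ENNReal.ofReal_toReal fK, ← ENNReal.ofReal_toReal fL, ← ENNReal.ofReal_mul (by positivity)]
  exact ENNReal.ofReal_le_ofReal hfin

end H703R3.SC
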